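import Pool.Agent.Helper48.SP.Top

/-!
# SP-K2: products with the invariant tensor

`mem_D_of` with the colours `Option (Fin r)`: the positions `p`, `q` have the colour `none` and the
second kind of piece, the other positions the given colours (span induction on `hT`; `insr` is
linear in `T`).
-/

set_option autoImplicit false

namespace Pool.Agent.Helper48.SP

open Pool.Agent.Helper48.GC8

variable {B : Type} {k : B → Blk} [Fintype B] [DecidableEq B] {ι : Type} [Fintype ι]
  [DecidableEq ι]

omit [Fintype ι] in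
private lemma some_iff_h14 {p q : ι} {r : ℕ} (c : {x : ι // x ≠ p ∧ x ≠ q} → Fin r) (x : ι)
    (a : Fin r) : (if h : x ≠ p ∧ x ≠ q then some (c ⟨x, h⟩) else none) = some a ↔
      ∃ h : x ≠ p ∧ x ≠ q, c ⟨x, h⟩ = a := by
  by_cases h : x ≠ p ∧ x ≠ q
  · rw [dif_pos h]
    constructor
    · intro h1
      exact ⟨h, Option.some_injective _ h1⟩
    · rintro ⟨_, h1⟩
      rw [h1]
  · rw [dif_neg h]
    constructor
    · intro h1
      exact absurd h1 (by simp)
    · rintro ⟨h1, _⟩
      exact absurd h1 h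

private lemma insr_gen_h14 (b : B) {p q : ι} (hpq : p ≠ q) {ν r : ℕ}
    (c : {x : ι // x ≠ p ∧ x ≠ q} → Fin r) (t : ∀ a, Ten {x // c x = a} (Ind k))
    (v : Fin r → ℕ) (h : ∀ a, IsPiece (t a) (v a)) (hν : ν ≤ ∑ a, v a) :
    insr b p q (fun y => ∏ a, t a (fun s => y s)) ∈ D k ι (ν + (k b).wt) := by
  obtain ⟨c', hc'⟩ : ∃ c' : ι → Option (Fin r), c' = fun x =>
    if h : x ≠ p ∧ x ≠ q then some (c ⟨x, h⟩) else none := ⟨_, rfl⟩
  have hs : ∀ x a, c' x = some a ↔ ∃ h : x ≠ p ∧ x ≠ q, c ⟨x, h⟩ = a := by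
    intro x a
    rw [hc']
    exact some_iff_h14 c x a
  have hp : c' p = none := by rw [hc']; simp
  have hq : c' q = none := by rw [hc']; simp
  have hn : ∀ x, c' x = none → x = p ∨ x = q := by
    intro x hx
    by_contra hcon
    rw [not_or] at hcon
    rw [(hs x (c ⟨x, hcon⟩)).2 ⟨hcon, rfl⟩] at hx
    exact absurd hx (by simp)
  let e : ∀ a : Fin r, {x // c' x = some a} ≃ {s // c s = a} := fun a =>
    { toFun := fun x => ⟨⟨x.1, ((hs _ _).1 x.2).choose⟩, ((hs _ _).1 x.2).choose_spec⟩
      invFun := fun s => ⟨s.1.1, (hs _ _).2 ⟨s.1.2, s.2⟩⟩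
      left_inv := fun x => rfl
      right_inv := fun s => rfl }
  let t' : ∀ a : Option (Fin r), Ten {x // c' x = a} (Ind k) := fun a =>
    match a with
    | none => fun z => frm k b (z ⟨p, hp⟩) (z ⟨q, hq⟩)
    | some a => fun z => t a (z ∘ (e a).symm)
  let v' : Option (Fin r) → ℕ := fun a =>
    match a with
    | none => (k b).wt
    | some a => v a
  have ht' : ∀ a, IsPiece (t' a) (v' a) := by
    intro a
    match a with
    | none =>
      refine Or.inr ⟨b, ⟨p, hp⟩, ⟨q, hq⟩, fun h => hpq (congrArg Subtype.val h), ?_,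
        fun y => rfl, rfl⟩
      rintro ⟨x, hx⟩
      rcases hn x hx with rfl | rfl
      · exact Or.inl rfl
      · exact Or.inr rfl
    | some a => exact (h a).comp (e a)
  have h1 : (fun y : ι → Ind k => ∏ a, t' a (fun x => y x)) ∈ D k ι (ν + (k b).wt) := by
    refine mem_D_of c' t' v' ht' ?_
    rw [Fintype.sum_option, add_comm]
    exact Nat.add_le_add_left hν _
  have h2 : insr b p q (fun y => ∏ a, t a (fun s => y s)) =
      fun y : ι → Ind k => ∏ a, t' a (fun x => y x) := by
    funext y
    rw [Fintype.prod_option]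
    rfl
  rw [h2]
  exact h1

theorem insr_mem (b : B) {p q : ι} (hpq : p ≠ q) {ν : ℕ}
    {T : Ten {x : ι // x ≠ p ∧ x ≠ q} (Ind k)} (hT : T ∈ D k {x : ι // x ≠ p ∧ x ≠ q} ν) :
    insr b p q T ∈ D k ι (ν + (k b).wt) := by
  unfold D at hT
  induction hT using Submodule.span_induction with
  | mem T hT =>
    obtain ⟨r, c, t, v, ht, hv, rfl⟩ := hT
    exact insr_gen_h14 b hpq c t v ht hv
  | zero =>
    have : insr b p q (0 : Ten {x : ι // x ≠ p ∧ x ≠ q} (Ind k)) = 0 := by
      funext y
      simp [insr]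
    rw [this]
    exact Submodule.zero_mem _
  | add T T' _ _ h h' =>
    have : insr b p q (T + T') = insr b p q T + insr b p q T' := by
      funext y
      simp [insr, mul_add]
    rw [this]
    exact Submodule.add_mem _ h h'
  | smul a T _ h =>
    have : insr b p q (a • T) = a • insr b p q T := by
      funext y
      simp only [insr, Pi.smul_apply, smul_eq_mul]
      ring
    rw [this]
    exact Submodule.smul_mem _ a h

end Pool.Agent.Helper48.SP
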