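import Pool.Agent.Helper48.SP.Defs

/-!
# SP-S1: matrices on products of tensors

`rho_prod`: Fubini: the words `ι → L` are the families of words on the fibres of `c`
(`Equiv.sigmaFiberEquiv c`, `Equiv.piCurry`), so
`∑ y, (∏ p, M (x p) (y p)) * ∏ a, t a (y|a) = ∏ a, ∑ z, (∏ p : fibre a, M (x p) (z p)) * t a z`
(`Finset.prod_univ_sum`).
-/

set_option autoImplicit false

namespace Pool.Agent.Helper48.SP

open Pool.Agent.Helper48.GC8

variable {ι : Type} [Fintype ι] [DecidableEq ι] {L : Type} [Fintype L] [DecidableEq L]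

lemma rho_univ_apply (M : Matrix L L ℂ) (u : Ten ι L) (x : ι → L) :
    rho Finset.univ M u x = ∑ y, (∏ p, M (x p) (y p)) * u y := by
  rw [rho_apply]
  simp

/-- Words and families of words on the fibres. -/
private def fibEquiv1 {A : Type} (c : ι → A) (L : Type) :
    (ι → L) ≃ (∀ a, {p // c p = a} → L) where
  toFun y := fun _ p => y p
  invFun z := fun p => z (c p) ⟨p, rfl⟩
  left_inv _ := rfl
  right_inv z := by
    funext a ⟨p, hp⟩
    subst hp
    rfl

theorem rho_prod {A : Type} [Fintype A] [DecidableEq A] (c : ι → A) (M : Matrix L L ℂ)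
    (t : ∀ a, Ten {p // c p = a} L) :
    rho Finset.univ M (fun y : ι → L => ∏ a, t a (fun p => y p)) =
      fun y : ι → L => ∏ a, rho Finset.univ M (t a) (fun p => y p) := by
  funext x
  rw [rho_univ_apply]
  simp only [rho_univ_apply]
  rw [Finset.prod_univ_sum, Fintype.piFinset_univ]
  refine Fintype.sum_equiv (fibEquiv1 c L) _ _ fun y => ?_
  rw [Finset.prod_mul_distrib]
  congr 1
  exact (Fintype.prod_fiberwise c fun p => M (x p) (y p)).symm

end Pool.Agent.Helper48.SP
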