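import Pool.Agent.Helper48.SP.Forms
import Pool.Agent.Helper48.SP.Prod

/-!
# SP-K1: contractions

`sum_glue`: the words on `ι` are the triples (letter at `p`, letter at `q`, word on the rest).
`kap_rho`: in coordinates, `∑ l r, frm l r * M l l' * M r r' = (Mᵀ frm M) l' r' = c^wt frm l' r'`
(`rho_univ_apply`, `sum_glue`). `herm_insr`: reindex by `sum_glue`, the form is real.
-/

set_option autoImplicit false

namespace Pool.Agent.Helper48.SP

open Pool.Agent.Helper48.GC8

variable {B : Type} {k : B → Blk} [Fintype B] [DecidableEq B] {ι : Type} [Fintype ι]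
  [DecidableEq ι]

lemma kap_apply (b : B) (p q : ι) (u : Ten ι (Ind k)) (y : {x : ι // x ≠ p ∧ x ≠ q} → Ind k) :
    kap b p q u y = ∑ l, ∑ r, frm k b l r * u (glue p q l r y) := rfl

private lemma glue_p46 {p q : ι} (l r : Ind k) (y : {x : ι // x ≠ p ∧ x ≠ q} → Ind k) :
    glue p q l r y p = l := by
  simp [glue]

private lemma glue_q46 {p q : ι} (hpq : p ≠ q) (l r : Ind k)
    (y : {x : ι // x ≠ p ∧ x ≠ q} → Ind k) : glue p q l r y q = r := by
  simp [glue, hpq.symm]

private lemma glue_rest46 {p q : ι} (l r : Ind k) (y : {x : ι // x ≠ p ∧ x ≠ q} → Ind k)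
    (x : {x : ι // x ≠ p ∧ x ≠ q}) : glue p q l r y x = y x := by
  simp only [glue, dif_pos x.2]

private lemma glue_eta46 (p q : ι) (z : ι → Ind k) :
    glue p q (z p) (z q) (fun x => z x) = z := by
  funext x
  by_cases h : x ≠ p ∧ x ≠ q
  · simp only [glue, dif_pos h]
  · by_cases hx : x = p
    · subst hx
      simp [glue]
    · have hq : x = q := by
        by_contra hq
        exact h ⟨hx, hq⟩
      subst hq
      simp [glue, hx]

private def glueEquiv46 {p q : ι} (hpq : p ≠ q) :
    (Ind k × Ind k) × ({x : ι // x ≠ p ∧ x ≠ q} → Ind k) ≃ (ι → Ind k) where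
  toFun t := glue p q t.1.1 t.1.2 t.2
  invFun z := ((z p, z q), fun x => z x)
  left_inv t := by
    obtain ⟨⟨l, r⟩, y⟩ := t
    refine Prod.ext (Prod.ext ?_ ?_) ?_
    · exact glue_p46 l r y
    · exact glue_q46 hpq l r y
    · funext x
      exact glue_rest46 l r y x
  right_inv z := glue_eta46 p q z

/-- The words on `ι`, as triples. -/
lemma sum_glue {M : Type} [AddCommMonoid M] {p q : ι} (hpq : p ≠ q) (f : (ι → Ind k) → M) :
    ∑ y, f y = ∑ l, ∑ r, ∑ y : {x : ι // x ≠ p ∧ x ≠ q} → Ind k, f (glue p q l r y) := by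
  rw [← (glueEquiv46 (k := k) hpq).sum_comp f, Fintype.sum_prod_type, Fintype.sum_prod_type]
  rfl

private lemma prod_rest46 {p q : ι} (hpq : p ≠ q) (F : ι → ℂ) :
    ∏ x, F x = F p * F q * ∏ x : {x : ι // x ≠ p ∧ x ≠ q}, F x := by
  rw [← Finset.mul_prod_erase Finset.univ F (Finset.mem_univ p),
    ← Finset.mul_prod_erase (Finset.univ.erase p) F
      (Finset.mem_erase.2 ⟨hpq.symm, Finset.mem_univ q⟩), mul_assoc]
  congr 2
  refine Finset.prod_subtype _ (fun x => ?_) F
  simp only [Finset.mem_erase, Finset.mem_univ, and_true]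
  tauto

theorem kap_rho (b : B) {p q : ι} (hpq : p ≠ q) {c : ℂ} {M : Matrix (Ind k) (Ind k) ℂ}
    (hM : InGO k c M) (u : Ten ι (Ind k)) :
    kap b p q (rho Finset.univ M u) = c ^ (k b).wt • rho Finset.univ M (kap b p q u) := by
  have hs : ∀ l' r' : Ind k, ∑ l, ∑ r, frm k b l r * (M l l' * M r r') =
      c ^ (k b).wt * frm k b l' r' := by
    intro l' r'
    have h1 := congrFun (congrFun (hM.sim b) l') r'
    rw [Matrix.smul_apply, smul_eq_mul] at h1
    rw [← h1, Matrix.mul_apply, Finset.sum_comm]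
    refine Finset.sum_congr rfl fun r _ => ?_
    rw [Matrix.mul_apply, Finset.sum_mul]
    refine Finset.sum_congr rfl fun l _ => ?_
    rw [Matrix.transpose_apply]
    ring
  funext y
  rw [kap_apply, Pi.smul_apply, rho_univ_apply, smul_eq_mul]
  have h1 : ∀ l r : Ind k, rho Finset.univ M u (glue p q l r y) =
      ∑ l', ∑ r', ∑ y' : {x : ι // x ≠ p ∧ x ≠ q} → Ind k,
        M l l' * M r r' * ((∏ x, M (y x) (y' x)) * u (glue p q l' r' y')) := by
    intro l r
    rw [rho_univ_apply, sum_glue hpq]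
    refine Finset.sum_congr rfl fun l' _ => Finset.sum_congr rfl fun r' _ =>
      Finset.sum_congr rfl fun y' _ => ?_
    rw [prod_rest46 hpq, glue_p46, glue_p46, glue_q46 hpq, glue_q46 hpq]
    simp only [glue_rest46]
    ring
  calc ∑ l, ∑ r, frm k b l r * rho Finset.univ M u (glue p q l r y)
      = ∑ l, ∑ r, ∑ l', ∑ r', ∑ y' : {x : ι // x ≠ p ∧ x ≠ q} → Ind k,
          frm k b l r * (M l l' * M r r') * ((∏ x, M (y x) (y' x)) * u (glue p q l' r' y')) := by
        refine Finset.sum_congr rfl fun l _ => Finset.sum_congr rfl fun r _ => ?_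
        rw [h1, Finset.mul_sum]
        refine Finset.sum_congr rfl fun l' _ => ?_
        rw [Finset.mul_sum]
        refine Finset.sum_congr rfl fun r' _ => ?_
        rw [Finset.mul_sum]
        refine Finset.sum_congr rfl fun y' _ => ?_
        ring
    _ = ∑ l', ∑ r', ∑ y' : {x : ι // x ≠ p ∧ x ≠ q} → Ind k, ∑ l, ∑ r,
          frm k b l r * (M l l' * M r r') * ((∏ x, M (y x) (y' x)) * u (glue p q l' r' y')) := by
        have e1 : ∀ l : Ind k, (∑ r, ∑ l', ∑ r', ∑ y' : {x : ι // x ≠ p ∧ x ≠ q} → Ind k,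
            frm k b l r * (M l l' * M r r') *
              ((∏ x, M (y x) (y' x)) * u (glue p q l' r' y'))) =
            ∑ l', ∑ r', ∑ y' : {x : ι // x ≠ p ∧ x ≠ q} → Ind k, ∑ r,
            frm k b l r * (M l l' * M r r') *
              ((∏ x, M (y x) (y' x)) * u (glue p q l' r' y')) := by
          intro l
          rw [Finset.sum_comm]
          refine Finset.sum_congr rfl fun l' _ => ?_
          rw [Finset.sum_comm]
          refine Finset.sum_congr rfl fun r' _ => ?_
          rw [Finset.sum_comm]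
        rw [Finset.sum_congr rfl fun l _ => e1 l, Finset.sum_comm]
        refine Finset.sum_congr rfl fun l' _ => ?_
        rw [Finset.sum_comm]
        refine Finset.sum_congr rfl fun r' _ => ?_
        rw [Finset.sum_comm]
    _ = ∑ l', ∑ r', ∑ y' : {x : ι // x ≠ p ∧ x ≠ q} → Ind k,
          c ^ (k b).wt * ((∏ x, M (y x) (y' x)) * (frm k b l' r' * u (glue p q l' r' y'))) := by
        refine Finset.sum_congr rfl fun l' _ => Finset.sum_congr rfl fun r' _ =>
          Finset.sum_congr rfl fun y' _ => ?_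
        have e2 : ∑ l, ∑ r, frm k b l r * (M l l' * M r r') *
            ((∏ x, M (y x) (y' x)) * u (glue p q l' r' y')) =
            (∑ l, ∑ r, frm k b l r * (M l l' * M r r')) *
              ((∏ x, M (y x) (y' x)) * u (glue p q l' r' y')) := by
          rw [Finset.sum_mul]
          refine Finset.sum_congr rfl fun l _ => ?_
          rw [Finset.sum_mul]
        rw [e2, hs]
        ring
    _ = c ^ (k b).wt * ∑ y' : {x : ι // x ≠ p ∧ x ≠ q} → Ind k,
          (∏ x, M (y x) (y' x)) * kap b p q u y' := by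
        have e3 : ∀ y' : {x : ι // x ≠ p ∧ x ≠ q} → Ind k,
            (∏ x, M (y x) (y' x)) * kap b p q u y' =
            ∑ l', ∑ r', (∏ x, M (y x) (y' x)) * (frm k b l' r' * u (glue p q l' r' y')) := by
          intro y'
          rw [kap_apply, Finset.mul_sum]
          refine Finset.sum_congr rfl fun l' _ => ?_
          rw [Finset.mul_sum]
        have e4 : ∑ y' : {x : ι // x ≠ p ∧ x ≠ q} → Ind k,
            (∏ x, M (y x) (y' x)) * kap b p q u y' =
            ∑ l', ∑ r', ∑ y' : {x : ι // x ≠ p ∧ x ≠ q} → Ind k,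
              (∏ x, M (y x) (y' x)) * (frm k b l' r' * u (glue p q l' r' y')) := by
          rw [Finset.sum_congr rfl fun y' _ => e3 y', Finset.sum_comm]
          refine Finset.sum_congr rfl fun l' _ => ?_
          rw [Finset.sum_comm]
        rw [e4]
        simp only [Finset.mul_sum]

theorem herm_insr (b : B) {p q : ι} (hpq : p ≠ q) (T : Ten {x : ι // x ≠ p ∧ x ≠ q} (Ind k))
    (u : Ten ι (Ind k)) : herm (insr b p q T) u = herm T (kap b p q u) := by
  unfold herm
  rw [sum_glue hpq]
  have e3 : ∀ y' : {x : ι // x ≠ p ∧ x ≠ q} → Ind k,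
      star (T y') * kap b p q u y' =
      ∑ l', ∑ r', star (T y') * (frm k b l' r' * u (glue p q l' r' y')) := by
    intro y'
    rw [kap_apply, Finset.mul_sum]
    refine Finset.sum_congr rfl fun l' _ => ?_
    rw [Finset.mul_sum]
  rw [Finset.sum_congr rfl fun y' _ => e3 y']
  symm
  rw [Finset.sum_comm]
  refine Finset.sum_congr rfl fun l' _ => ?_
  rw [Finset.sum_comm]
  refine Finset.sum_congr rfl fun r' _ => Finset.sum_congr rfl fun y' _ => ?_
  have e4 : insr b p q T (glue p q l' r' y') = frm k b l' r' * T y' := by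
    unfold insr
    rw [glue_p46, glue_q46 hpq]
    simp only [glue_rest46]
  rw [e4, star_mul', star_frm]
  ring

end Pool.Agent.Helper48.SP
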