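import Pool.Agent.Helper48.SP.Defs

/-!
# SP-T: the filtration `D`, elementary properties

`D_mono` is clear. `mem_D_of`: transport the colours with `Fintype.equivFin A`. `D_top`: for a word
`y0` the tensor `Pi.single y0 1` is the product over the colours `A = ι`, `c = id`, of the pieces
`t p = (z ↦ if z ⟨p, rfl⟩ = y0 p then 1 else 0)`, alternating for the block `(y0 p).1` (one position:
`Subsingleton`). `D_equiv`: colours `c ∘ e`, pieces transported with the induced equivalence of the
fibres.
-/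

set_option autoImplicit false

namespace Pool.Agent.Helper48.SP

open Pool.Agent.Helper48.GC8

variable {B : Type} {k : B → Blk} [Fintype B] [DecidableEq B] {ι κ : Type} [Fintype ι]
  [DecidableEq ι] [Fintype κ] [DecidableEq κ]

private lemma comp24 {S T : Type} [Fintype S] [DecidableEq S] [Fintype T] [DecidableEq T]
    (e : S ≃ T) {t : Ten T (Ind k)} {v : ℕ} (h : IsPiece t v) :
    IsPiece (fun y : S → Ind k => t (y ∘ e.symm)) v := by
  rcases h with ⟨b, hb, hv⟩ | ⟨b, p, q, hpq, hr, ht, hv⟩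
  · refine Or.inl ⟨b, ⟨fun y hy p => ?_, fun y p q hpq => ?_⟩, ?_⟩
    · have h1 := hb.supp _ hy (e p)
      rwa [Function.comp_apply, Equiv.symm_apply_apply] at h1
    · have h1 := hb.alt (y ∘ e.symm) (e p) (e q) (fun h => hpq (e.injective h))
      have h2 : (y ∘ Equiv.swap p q) ∘ e.symm = (y ∘ e.symm) ∘ Equiv.swap (e p) (e q) := by
        funext x
        simp only [Function.comp_apply]
        congr 1
        rw [Equiv.swap_apply_def, Equiv.swap_apply_def]
        by_cases hx : x = e p
        · rw [if_pos hx, hx, Equiv.symm_apply_apply, if_pos rfl, Equiv.symm_apply_apply]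
        · have hx' : ¬ e.symm x = p := fun h => hx (by rw [← h, Equiv.apply_symm_apply])
          rw [if_neg hx, if_neg hx']
          by_cases hx2 : x = e q
          · rw [if_pos hx2, hx2, Equiv.symm_apply_apply, if_pos rfl, Equiv.symm_apply_apply]
          · have hx3 : ¬ e.symm x = q := fun h => hx2 (by rw [← h, Equiv.apply_symm_apply])
            rw [if_neg hx2, if_neg hx3]
      change t ((y ∘ Equiv.swap p q) ∘ e.symm) = - t (y ∘ e.symm)
      rw [h2]
      exact h1
    · rw [hv, Fintype.card_congr e]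
  · refine Or.inr ⟨b, e.symm p, e.symm q, fun h => hpq (e.symm.injective h), fun r => ?_,
      fun y => ht _, hv⟩
    rcases hr (e r) with h | h
    · exact Or.inl (by rw [← h, Equiv.symm_apply_apply])
    · exact Or.inr (by rw [← h, Equiv.symm_apply_apply])

lemma D_mono {ν ν' : ℕ} (h : ν ≤ ν') : D k ι ν' ≤ D k ι ν := by
  refine Submodule.span_mono ?_
  rintro T ⟨r, c, t, v, hp, hv, rfl⟩
  exact ⟨r, c, t, v, hp, h.trans hv, rfl⟩

/-- Products of pieces with colours in any finite type. -/
lemma mem_D_of {A : Type} [Fintype A] [DecidableEq A] (c : ι → A)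
    (t : ∀ a, Ten {p // c p = a} (Ind k)) (v : A → ℕ) (h : ∀ a, IsPiece (t a) (v a)) {ν : ℕ}
    (hν : ν ≤ ∑ a, v a) : (fun y => ∏ a, t a (fun p => y p)) ∈ D k ι ν := by
  let e := Fintype.equivFin A
  let E : ∀ i, {p // e (c p) = i} ≃ {p // c p = e.symm i} := fun i =>
    Equiv.subtypeEquivRight (fun p => e.eq_symm_apply.symm)
  refine Submodule.subset_span ⟨Fintype.card A, fun p => e (c p),
    fun i y => t (e.symm i) (y ∘ (E i).symm), fun i => v (e.symm i),
    fun i => comp24 (E i) (h (e.symm i)), ?_, ?_⟩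
  · rw [Equiv.sum_comp e.symm v]
    exact hν
  · funext y
    exact (Equiv.prod_comp e.symm (fun a => t a (fun p => y p))).symm

lemma D_top (u : Ten ι (Ind k)) : u ∈ D k ι 0 := by
  classical
  have h1 : ∀ y0 : ι → Ind k,
      (fun y : ι → Ind k => ∏ a : ι, if y a = y0 a then (1 : ℂ) else 0) ∈ D k ι 0 := by
    intro y0
    refine mem_D_of (A := ι) (c := fun p => p)
      (t := fun a z => if z ⟨a, rfl⟩ = y0 a then (1 : ℂ) else 0)
      (v := fun a => (k (y0 a).1).nu (Fintype.card {p : ι // p = a})) (fun a => ?_)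
      (Nat.zero_le _)
    refine Or.inl ⟨(y0 a).1, ⟨fun z hz p => ?_, fun z p q hpq => ?_⟩,
      by congr!⟩
    · have h2 : z ⟨a, rfl⟩ = y0 a := by
        by_contra h3
        exact hz (if_neg h3)
      have h3 : p = ⟨a, rfl⟩ := Subtype.ext p.2
      rw [h3, h2]
    · exact absurd (Subtype.ext (p.2.trans q.2.symm)) hpq
  have h2 : u = ∑ y0 : ι → Ind k, u y0 •
      (fun y : ι → Ind k => ∏ a : ι, if y a = y0 a then (1 : ℂ) else 0) := by
    funext y
    rw [Finset.sum_apply, Finset.sum_eq_single y]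
    · simp
    · intro z _ hz
      obtain ⟨a, ha⟩ := Function.ne_iff.1 hz
      rw [Pi.smul_apply, smul_eq_mul]
      have h3 : (∏ a : ι, if y a = z a then (1 : ℂ) else 0) = 0 :=
        Finset.prod_eq_zero (Finset.mem_univ a) (if_neg (fun h => ha h.symm))
      rw [h3, mul_zero]
    · intro h
      exact absurd (Finset.mem_univ y) h
  rw [h2]
  exact Submodule.sum_mem _ fun y0 _ => Submodule.smul_mem _ _ (h1 y0)

lemma IsPiece.comp (e : ι ≃ κ) {t : Ten κ (Ind k)} {v : ℕ} (h : IsPiece t v) :
    IsPiece (fun y : ι → Ind k => t (y ∘ e.symm)) v := comp24 e h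

lemma D_equiv (e : ι ≃ κ) {u : Ten κ (Ind k)} {ν : ℕ} (h : u ∈ D k κ ν) :
    (fun y : ι → Ind k => u (y ∘ e.symm)) ∈ D k ι ν := by
  let L : Ten κ (Ind k) →ₗ[ℂ] Ten ι (Ind k) :=
    LinearMap.funLeft ℂ ℂ (fun y : ι → Ind k => y ∘ e.symm)
  have h1 : D k κ ν ≤ (D k ι ν).comap L := by
    refine Submodule.span_le.2 ?_
    rintro T ⟨r, c, t, v, hp, hv, rfl⟩
    let E : ∀ a, {p // c (e p) = a} ≃ {p // c p = a} := fun a =>
      e.subtypeEquiv (fun p => Iff.rfl)
    refine Submodule.subset_span ⟨r, fun p => c (e p), fun a y => t a (y ∘ (E a).symm), v,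
      fun a => comp24 (E a) (hp a), hv, ?_⟩
    rfl
  exact h1 h

end Pool.Agent.Helper48.SP
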