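import Pool.Agent.Helper48.SP.PieceRho
import Pool.Agent.Helper48.SP.Top

/-!
# SP-S3: the filtration `D` is stable under the similitudes

From `rho_prod` and `IsPiece.of_rho` (choose the multiples and the pieces; `Finset.prod_mul_distrib`).
-/

set_option autoImplicit false

namespace Pool.Agent.Helper48.SP

open Pool.Agent.Helper48.GC8

variable {B : Type} {k : B → Blk} [Fintype B] [DecidableEq B] {ι : Type} [Fintype ι]
  [DecidableEq ι]

theorem D_stab (hk : ∀ b, (k b).Ok) (ν : ℕ) {c : ℂ} {M : Matrix (Ind k) (Ind k) ℂ}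
    (hM : InGO k c M) {u : Ten ι (Ind k)} (hu : u ∈ D k ι ν) :
    rho Finset.univ M u ∈ D k ι ν := by
  unfold D at hu
  induction hu using Submodule.span_induction with
  | zero =>
    rw [map_zero]
    exact Submodule.zero_mem _
  | add x y _ _ hx hy =>
    rw [map_add]
    exact Submodule.add_mem _ hx hy
  | smul a x _ hx =>
    rw [map_smul]
    exact Submodule.smul_mem _ a hx
  | mem T hT =>
    obtain ⟨r, col, t, v, h1, h2, rfl⟩ := hT
    choose a t' ht' he using fun i => (h1 i).of_rho hk hM
    have e : rho Finset.univ M (fun y : ι → Ind k => ∏ i, t i (fun p => y p)) =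
        (∏ i, a i) • (fun y : ι → Ind k => ∏ i, t' i (fun p => y p)) := by
      rw [rho_prod]
      funext y
      rw [Pi.smul_apply, smul_eq_mul, ← Finset.prod_mul_distrib]
      refine Finset.prod_congr rfl fun i _ => ?_
      rw [he i, Pi.smul_apply, smul_eq_mul]
    rw [e]
    exact Submodule.smul_mem _ _ (Submodule.subset_span ⟨r, col, t', v, ht', h2, rfl⟩)

end Pool.Agent.Helper48.SP
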