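import Pool.Agent.Helper48.SP.Forms

/-!
# SP-F2: transposes and adjoints of similitudes

`InGO.symm`: let `A = ∑ b, (sg b * (c ^ wt b)⁻¹) • (frm b * Mᵀ * frm b)`. From
`frm b * frm b = sg b • (projection on the block b)` and `Mᵀ * frm b * M = c ^ wt b • frm b` one gets
`A * M = 1`, hence `M * A = 1` (`Matrix.mul_eq_one_comm`); multiply by `frm b` on the right (the
blocks are orthogonal by `blk`). `InGO.star`: conjugate `InGO.symm` (the form is real).
-/

set_option autoImplicit false

namespace Pool.Agent.Helper48.SP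

open Pool.Agent.Helper48.GC8

variable {B : Type} {k : B → Blk} [DecidableEq B] [Fintype B]

private lemma frm_mul_frm_h26 (hk : ∀ b, (k b).Ok) (b : B) :
    frm k b * frm k b = sg k b • Matrix.diagonal (fun l : Ind k => if l.1 = b then (1 : ℂ) else 0) := by
  ext l r
  rw [Matrix.mul_apply, Finset.sum_eq_single (op l), Matrix.smul_apply, Matrix.diagonal_apply,
    frm_apply, frm_apply, op_op, op_fst]
  · by_cases h1 : l.1 = b
    · by_cases h2 : l = r
      · subst h2
        rw [if_pos ⟨h1, rfl⟩, if_pos ⟨h1, rfl⟩, if_pos rfl, if_pos h1, eps_op hk, h1, smul_eq_mul,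
          mul_one, mul_comm (eps l), mul_assoc, eps_sq, mul_one]
      · have h3 : ¬(l.1 = b ∧ r = l) := fun h => h2 h.2.symm
        rw [if_neg h3, if_neg h2, mul_zero, smul_zero]
    · rw [if_neg (fun h => h1 h.1), zero_mul, if_neg h1, ite_self, smul_zero]
  · intro m _ hm
    rw [frm_apply, if_neg (fun h => hm h.2), zero_mul]
  · intro h
    exact absurd (Finset.mem_univ _) h

private lemma frm_mul_frm_ne_h26 {b b' : B} (hb : b ≠ b') : frm k b * frm k b' = 0 := by
  ext l r
  rw [Matrix.mul_apply, Matrix.zero_apply]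
  refine Finset.sum_eq_zero fun m _ => ?_
  rw [frm_apply, frm_apply]
  by_cases h1 : l.1 = b ∧ m = op l
  · have h2 : ¬ (m.1 = b' ∧ r = op m) := by
      rintro ⟨h2, -⟩
      rw [h1.2, op_fst, h1.1] at h2
      exact hb h2
    rw [if_neg h2, mul_zero]
  · rw [if_neg h1, zero_mul]

private lemma frm_proj_h26 {c : ℂ} {M : Matrix (Ind k) (Ind k) ℂ} (h : InGO k c M) (b : B) :
    frm k b * M.transpose * Matrix.diagonal (fun l : Ind k => if l.1 = b then (1 : ℂ) else 0) =
      frm k b * M.transpose := by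
  ext l r
  rw [Matrix.mul_diagonal]
  by_cases hr : r.1 = b
  · rw [if_pos hr, mul_one]
  · rw [if_neg hr, mul_zero, Matrix.mul_apply]
    symm
    refine Finset.sum_eq_zero fun m _ => ?_
    rw [frm_apply, Matrix.transpose_apply]
    by_cases h1 : l.1 = b ∧ m = op l
    · have h2 : m.1 = b := by rw [h1.2, op_fst, h1.1]
      rw [h.blk r m (fun h3 => hr (h3.trans h2)), mul_zero]
    · rw [if_neg h1, zero_mul]

theorem InGO.symm (hk : ∀ b, (k b).Ok) {c : ℂ} {M : Matrix (Ind k) (Ind k) ℂ} (h : InGO k c M)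
    (b : B) : M * frm k b * M.transpose = c ^ (k b).wt • frm k b := by
  let A : Matrix (Ind k) (Ind k) ℂ :=
    ∑ b, (sg k b * (c ^ (k b).wt)⁻¹) • (frm k b * M.transpose * frm k b)
  have hc : ∀ b, c ^ (k b).wt ≠ 0 := fun b => pow_ne_zero _ h.ne
  have h1 : A * M = 1 := by
    have e1 : ∀ b, (sg k b * (c ^ (k b).wt)⁻¹) • (frm k b * M.transpose * frm k b) * M =
        Matrix.diagonal (fun l : Ind k => if l.1 = b then (1 : ℂ) else 0) := by
      intro b
      rw [Matrix.smul_mul, Matrix.mul_assoc (frm k b), Matrix.mul_assoc (frm k b), h.sim b,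
        Matrix.mul_smul, smul_smul, frm_mul_frm_h26 hk, smul_smul]
      have e2 : sg k b * (c ^ (k b).wt)⁻¹ * c ^ (k b).wt * sg k b = 1 := by
        rw [mul_assoc (sg k b), inv_mul_cancel₀ (hc b), mul_one, sg_sq]
      rw [e2, one_smul]
    show (∑ b, _) * M = 1
    rw [Finset.sum_mul, Finset.sum_congr rfl fun b _ => e1 b]
    ext l r
    rw [Matrix.sum_apply]
    simp only [Matrix.diagonal_apply, Matrix.one_apply]
    by_cases hlr : l = r
    · simp [hlr]
    · simp [hlr]
  have h2 : M * A = 1 := mul_eq_one_comm.1 h1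
  have h3 : M * A * frm k b = frm k b := by rw [h2, Matrix.one_mul]
  have h4 : A * frm k b = (c ^ (k b).wt)⁻¹ • (frm k b * M.transpose) := by
    show (∑ b', _) * frm k b = _
    rw [Finset.sum_mul, Finset.sum_eq_single b]
    · rw [Matrix.smul_mul, Matrix.mul_assoc (frm k b * M.transpose), frm_mul_frm_h26 hk,
        Matrix.mul_smul, frm_proj_h26 h, smul_smul, mul_comm (sg k b), mul_assoc, sg_sq, mul_one]
    · intro b' _ hb
      rw [Matrix.smul_mul, Matrix.mul_assoc (frm k b' * M.transpose), frm_mul_frm_ne_h26 hb,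
        Matrix.mul_zero, smul_zero]
    · intro hb
      exact absurd (Finset.mem_univ _) hb
  rw [Matrix.mul_assoc, h4, Matrix.mul_smul, ← Matrix.mul_assoc] at h3
  rw [← h3, smul_smul, mul_inv_cancel₀ (hc b), one_smul, h3]

theorem InGO.star (hk : ∀ b, (k b).Ok) {c : ℂ} {M : Matrix (Ind k) (Ind k) ℂ} (h : InGO k c M) :
    InGO k (star c) M.conjTranspose := by
  refine ⟨fun h1 => h.ne (star_eq_zero.1 h1), fun l r hlr => ?_, fun b => ?_⟩
  · rw [Matrix.conjTranspose_apply, h.blk r l (Ne.symm hlr), star_zero]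
  · have h1 := congrArg (fun N : Matrix (Ind k) (Ind k) ℂ => N.map (starRingEnd ℂ)) (h.symm hk b)
    simp only [Matrix.map_mul] at h1
    have h2 : (frm k b).map (starRingEnd ℂ) = frm k b := by
      ext l r
      exact star_frm b l r
    have h3 : (c ^ (k b).wt • frm k b).map (starRingEnd ℂ) = (starRingEnd ℂ c) ^ (k b).wt • frm k b := by
      ext l r
      rw [Matrix.map_apply, Matrix.smul_apply, Matrix.smul_apply, smul_eq_mul, smul_eq_mul, map_mul,
        map_pow]
      congr 1
      exact star_frm b l r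
    rw [h2, h3] at h1
    exact h1

end Pool.Agent.Helper48.SP
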