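import Pool.Agent.Helper48.SP.Prod

/-!
# SP-E2: the tensors of degree `i`

`deg_stab`: `M` is block diagonal, so a word `x` of `rho univ M u` has the same blocks as some word
of `u` (`rho_univ_apply`).
-/

set_option autoImplicit false

namespace Pool.Agent.Helper48.SP

open Pool.Agent.Helper48.GC8

variable {B : Type} {k : B → Blk} [Fintype B] [DecidableEq B]

variable (k) in
/-- The tensors of degree `i`. -/
def deg (ι : Type) [Fintype ι] (i : ℕ) : Submodule ℂ (Ten ι (Ind k)) where
  carrier := {u | ∀ y, u y ≠ 0 → ∑ p, (k (y p).1).wt = i}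
  zero_mem' := by
    intro y hy
    exact absurd rfl hy
  add_mem' := by
    intro u v hu hv y hy
    by_cases h : u y = 0
    · refine hv y fun h' => hy ?_
      rw [Pi.add_apply, h, h', add_zero]
    · exact hu y h
  smul_mem' := by
    intro c u hu y hy
    refine hu y fun h' => hy ?_
    rw [Pi.smul_apply, h', smul_zero]

lemma mem_deg {ι : Type} [Fintype ι] {i : ℕ} {u : Ten ι (Ind k)} :
    u ∈ deg k ι i ↔ ∀ y, u y ≠ 0 → ∑ p, (k (y p).1).wt = i := Iff.rfl

theorem deg_stab {ι : Type} [Fintype ι] [DecidableEq ι] {c : ℂ} {M : Matrix (Ind k) (Ind k) ℂ}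
    (hM : InGO k c M) {i : ℕ} {u : Ten ι (Ind k)} (hu : u ∈ deg k ι i) :
    rho Finset.univ M u ∈ deg k ι i := by
  intro x hx
  rw [rho_univ_apply] at hx
  obtain ⟨y, -, hy⟩ := Finset.exists_ne_zero_of_sum_ne_zero hx
  have h1 := left_ne_zero_of_mul hy
  have h2 := right_ne_zero_of_mul hy
  rw [← hu y h2]
  refine Finset.sum_congr rfl fun p _ => ?_
  have h3 : M (x p) (y p) ≠ 0 := (Finset.prod_ne_zero_iff.mp h1) p (Finset.mem_univ p)
  have h4 : (x p).1 = (y p).1 := by
    by_contra h
    exact h3 (hM.blk _ _ h)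
  rw [h4]

end Pool.Agent.Helper48.SP
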