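import Pool.Agent.Helper48.SP.Prod

/-!
# SP: products of generalized eigenvectors

`prod_gen`: a product of generalized eigenvectors of `rho M` at the fibres of `c` is a generalized
eigenvector, with the product of the eigenvalues (expand `∏ (β a • t a + s a)`, induction on the sum
of the exponents). `rho_unipotent`: if `N - 1` is nilpotent then `rho N - 1` is nilpotent.
-/

set_option autoImplicit false

namespace Pool.Agent.Helper48.SP

open Pool.Agent.Helper48.GC8

/-! ### Generalized eigenvectors -/

lemma eig_of_span_gen {V : Type} [AddCommGroup V] [Module ℂ V] (T : Module.End ℂ V)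
    (E : Set ℂ) {x : V} (hx : x ∈ Submodule.span ℂ {y | ∃ μ ∈ E, y ∈ T.maxGenEigenspace μ})
    (hx0 : x ≠ 0) {β : ℂ} (hβ : T x = β • x) : β ∈ E := by
  by_contra hE
  have h1 : Submodule.span ℂ {y | ∃ μ ∈ E, y ∈ T.maxGenEigenspace μ} ≤
      ⨆ μ ∈ E, T.maxGenEigenspace μ := by
    rw [Submodule.span_le]
    rintro y ⟨μ, hμ, hy⟩
    exact Submodule.mem_iSup_of_mem μ (Submodule.mem_iSup_of_mem hμ hy)
  have h2 := (T.independent_maxGenEigenspace).disjoint_biSup hE
  have h3 : x ∈ T.maxGenEigenspace β := by
    rw [Module.End.mem_maxGenEigenspace]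
    refine ⟨1, ?_⟩
    rw [pow_one, LinearMap.sub_apply, hβ, LinearMap.smul_apply, Module.End.one_apply, sub_self]
  exact hx0 ((Submodule.disjoint_def.1 h2) x h3 (h1 hx))

/-- A product of generalized eigenvectors is a generalized eigenvector. -/
lemma prod_gen {L A ι : Type} [Fintype L] [DecidableEq L] [Fintype A] [DecidableEq A]
    [Fintype ι] [DecidableEq ι] (c : ι → A) (M : Matrix L L ℂ) (β : A → ℂ) :
    ∀ (n : ℕ) (e : A → ℕ) (t : ∀ a, Ten {p // c p = a} L), ∑ a, e a ≤ n →
      (∀ a, (((rho Finset.univ M : Module.End ℂ (Ten {p // c p = a} L)) - β a • 1) ^ e a) (t a) =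
        0) →
      (((rho Finset.univ M : Module.End ℂ (Ten ι L)) - (∏ a, β a) • 1) ^ (n + 1))
        (fun y : ι → L => ∏ a, t a (fun p => y p)) = 0 := by
  intro n
  induction n with
  | zero =>
    intro e t he ht
    have h0 : ∀ a, t a = 0 := by
      intro a
      have h1 : e a = 0 := by
        have := Finset.single_le_sum (f := e) (fun _ _ => Nat.zero_le _) (Finset.mem_univ a)
        omega
      have h2 := ht a
      rw [h1, pow_zero, Module.End.one_apply] at h2
      exact h2
    rw [zero_add, pow_one, LinearMap.sub_apply, rho_prod, LinearMap.smul_apply,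
      Module.End.one_apply, sub_eq_zero]
    funext y
    rw [Pi.smul_apply, smul_eq_mul]
    by_cases hA : Nonempty A
    · obtain ⟨a⟩ := hA
      rw [Finset.prod_eq_zero (Finset.mem_univ a) (by rw [h0 a, map_zero]; rfl),
        Finset.prod_eq_zero (s := Finset.univ) (f := fun a => t a (fun p => y p))
          (Finset.mem_univ a) (by rw [h0 a]; rfl), mul_zero]
    · have : IsEmpty A := not_nonempty_iff.1 hA
      simp
  | succ n ih =>
    intro e t he ht
    set s : ∀ a, Ten {p // c p = a} L := fun a =>
      ((rho Finset.univ M : Module.End ℂ (Ten {p // c p = a} L)) - β a • 1) (t a) with hs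
    have h1 : ∀ a, rho Finset.univ M (t a) = s a + β a • t a := by
      intro a
      rw [hs]
      simp only [LinearMap.sub_apply, LinearMap.smul_apply, Module.End.one_apply]
      rw [sub_add_cancel]
    have h2 : ((rho Finset.univ M : Module.End ℂ (Ten ι L)) - (∏ a, β a) • 1)
        (fun y : ι → L => ∏ a, t a (fun p => y p)) =
        ∑ S ∈ (Finset.univ : Finset A).powerset.erase ∅,
          fun y : ι → L => ∏ a, (if a ∈ S then s a else β a • t a) (fun p => y p) := by
      rw [LinearMap.sub_apply, rho_prod, LinearMap.smul_apply, Module.End.one_apply]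
      funext y
      rw [Pi.sub_apply, Pi.smul_apply, smul_eq_mul, Finset.sum_apply]
      simp only [h1, Pi.add_apply]
      rw [Finset.prod_add, ← Finset.add_sum_erase _ _ (Finset.empty_mem_powerset _)]
      rw [Finset.prod_empty, one_mul, Finset.sdiff_empty]
      have h3 : ∏ a, (β a • t a) (fun p => y p) = (∏ a, β a) * ∏ a, t a (fun p => y p) := by
        rw [← Finset.prod_mul_distrib]
        rfl
      rw [h3, add_sub_cancel_left]
      refine Finset.sum_congr rfl fun S hS => ?_
      rw [← Finset.prod_sdiff (Finset.subset_univ S), mul_comm]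
      congr 1
      · refine Finset.prod_congr rfl fun a ha => ?_
        rw [if_neg (Finset.mem_sdiff.1 ha).2]
      · refine Finset.prod_congr rfl fun a ha => ?_
        rw [if_pos ha]
    rw [pow_succ, Module.End.mul_apply, h2, map_sum]
    refine Finset.sum_eq_zero fun S hS => ?_
    have hS0 : S.Nonempty := Finset.nonempty_iff_ne_empty.2 (Finset.ne_of_mem_erase hS)
    by_cases hz : ∃ a ∈ S, e a = 0
    · obtain ⟨a, ha, hea⟩ := hz
      have h3 : t a = 0 := by
        have h4 := ht a
        rw [hea, pow_zero, Module.End.one_apply] at h4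
        exact h4
      have h4 : (fun y : ι → L => ∏ a, (if a ∈ S then s a else β a • t a) (fun p => y p)) = 0 := by
        funext y
        refine Finset.prod_eq_zero (Finset.mem_univ a) ?_
        rw [if_pos ha, hs]
        simp only [h3, map_zero]
        rfl
      rw [h4, map_zero]
    · push Not at hz
      refine ih (fun a => if a ∈ S then e a - 1 else e a) _ ?_ ?_
      · obtain ⟨a0, ha0⟩ := hS0
        have h3 : ∑ a, (if a ∈ S then e a - 1 else e a) < ∑ a, e a := by
          refine Finset.sum_lt_sum (fun a _ => ?_) ⟨a0, Finset.mem_univ a0, ?_⟩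
          · split_ifs <;> omega
          · rw [if_pos ha0]
            have := hz a0 ha0
            omega
        omega
      · intro a
        by_cases ha : a ∈ S
        · simp only [if_pos ha]
          have h3 := ht a
          have h4 : e a = (e a - 1) + 1 := by
            have := hz a ha
            omega
          rw [h4, pow_succ, Module.End.mul_apply] at h3
          exact h3
        · simp only [if_neg ha]
          rw [map_smul, ht a, smul_zero]

lemma mem_gen_of_eig {V : Type} [AddCommGroup V] [Module ℂ V] {T : Module.End ℂ V} {x : V}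
    {β : ℂ} (hβ : T x = β • x) : x ∈ T.maxGenEigenspace β := by
  rw [Module.End.mem_maxGenEigenspace]
  refine ⟨1, ?_⟩
  rw [pow_one, LinearMap.sub_apply, hβ, LinearMap.smul_apply, Module.End.one_apply, sub_self]

lemma rho_single_pos {L ι : Type} [Fintype L] [DecidableEq L] [Fintype ι] [DecidableEq ι] (a : ι)
    (M : Matrix L L ℂ) (v : L → ℂ) :
    rho (Finset.univ : Finset {p : ι // id p = a}) M (fun y => v (y ⟨a, rfl⟩)) =
      fun y => (M.mulVec v) (y ⟨a, rfl⟩) := by
  funext x
  rw [rho_univ_apply]
  have hu : ∀ p : {p : ι // id p = a}, p = ⟨a, rfl⟩ := fun p => Subtype.ext p.2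
  have huniv : (Finset.univ : Finset {p : ι // id p = a}) = {⟨a, rfl⟩} := by
    ext p
    simp only [Finset.mem_univ, Finset.mem_singleton, true_iff]
    exact hu p
  simp only [huniv, Finset.prod_singleton]
  unfold Matrix.mulVec dotProduct
  refine Fintype.sum_equiv
    { toFun := fun y => y ⟨a, rfl⟩
      invFun := fun l _ => l
      left_inv := fun y => by
        funext p
        rw [hu p]
      right_inv := fun l => rfl } _ _ fun y => rfl

lemma rho_unipotent {L ι : Type} [Fintype L] [DecidableEq L] [Fintype ι] [DecidableEq ι]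
    {N : Matrix L L ℂ} (hN : IsNilpotent (N - 1)) :
    ∃ n : ℕ, ((rho Finset.univ N : Module.End ℂ (Ten ι L)) - 1) ^ n = 0 := by
  obtain ⟨e, he⟩ := hN
  refine ⟨(∑ _p : ι, e) + 1, ?_⟩
  have key : ∀ w : ι → L, (((rho Finset.univ N : Module.End ℂ (Ten ι L)) - 1) ^
      ((∑ _p : ι, e) + 1)) (Pi.single w 1) = 0 := by
    intro w
    have h1 : (Pi.single w (1 : ℂ) : Ten ι L) =
        fun y : ι → L => ∏ a, (fun z : {p : ι // id p = a} → L =>
          (Pi.single (w a) (1 : ℂ) : L → ℂ) (z ⟨a, rfl⟩)) (fun p => y p) := by
      funext x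
      by_cases hxy : x = w
      · subst hxy
        rw [Pi.single_eq_same]
        symm
        exact Finset.prod_eq_one fun p _ => by
          change (Pi.single (x p) (1 : ℂ) : L → ℂ) (x p) = 1
          rw [Pi.single_eq_same]
      · rw [Pi.single_eq_of_ne hxy]
        symm
        obtain ⟨p, hp⟩ := Function.ne_iff.1 hxy
        refine Finset.prod_eq_zero (Finset.mem_univ p) ?_
        change (Pi.single (w p) (1 : ℂ) : L → ℂ) (x p) = 0
        rw [Pi.single_eq_of_ne hp]
    have h2 := prod_gen (ι := ι) (id : ι → ι) N (fun _ => 1) (∑ _p : ι, e) (fun _ => e)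
      (fun a => fun z : {p : ι // id p = a} → L =>
          (Pi.single (w a) (1 : ℂ) : L → ℂ) (z ⟨a, rfl⟩)) le_rfl (fun a => by
        have h3 : ∀ (n : ℕ) (v : L → ℂ),
            (((rho Finset.univ N : Module.End ℂ (Ten {p : ι // id p = a} L)) - (1 : ℂ) • 1) ^ n)
              (fun z => v (z ⟨a, rfl⟩)) = fun z => (((N - 1) ^ n).mulVec v) (z ⟨a, rfl⟩) := by
          intro n
          induction n with
          | zero => intro v; simp
          | succ n ih =>
            intro v
            rw [pow_succ, Module.End.mul_apply, LinearMap.sub_apply, rho_single_pos,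
              LinearMap.smul_apply, Module.End.one_apply]
            have h4 : ((fun y : {p : ι // id p = a} → L => N.mulVec v (y ⟨a, rfl⟩)) -
                (1 : ℂ) • fun z => v (z ⟨a, rfl⟩)) = fun z => ((N - 1).mulVec v) (z ⟨a, rfl⟩) := by
              funext z
              rw [Matrix.sub_mulVec, Matrix.one_mulVec, one_smul]
              rfl
            rw [h4, ih, Matrix.mulVec_mulVec, ← pow_succ]
        rw [h3, he, Matrix.zero_mulVec]
        rfl)
    rw [h1]
    simpa using h2
  refine LinearMap.ext fun t => ?_
  have h3 : t = ∑ y : ι → L, t y • (Pi.single y (1 : ℂ) : Ten ι L) := by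
    funext y
    simp [Finset.sum_apply, Pi.single_apply]
  rw [h3, map_sum, map_sum]
  refine Finset.sum_congr rfl fun y _ => ?_
  rw [map_smul, key, smul_zero, LinearMap.zero_apply]

end Pool.Agent.Helper48.SP
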