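import Pool.Agent.Helper48.SP.PieceRho

/-!
# SP-E1: alternating tensors are sums of alternating eigenvectors

A semisimple `M` is diagonalisable, `M = h Λ h⁻¹`, so `rho univ M = rho h * rho Λ * rho h⁻¹` is
diagonalisable (`rho_diag`), and so is its restriction to the stable subspace of the alternating
tensors of the block `b` (`IsAlt.of_rho`): for finite dimensional spaces over `ℂ`, semisimple and
diagonalisable are the same, semisimplicity passes to stable subspaces, and
`⨆ μ, eigenspace = ⊤` (`Module.End.iSup_maxGenEigenspace_eq_top` and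
`Module.End.IsFinitelySemisimple.maxGenEigenspace_eq_eigenspace`).
-/

set_option autoImplicit false

namespace Pool.Agent.Helper48.SP

open Pool.Agent.Helper48.GC8

variable {B : Type} {k : B → Blk} [Fintype B] [DecidableEq B] {ι : Type} [Fintype ι]
  [DecidableEq ι]

/-- Products of eigenvectors are eigenvectors. -/
private lemma rho_prod_vec56 {L : Type} [Fintype L] [DecidableEq L] (M : Matrix L L ℂ)
    (u : ι → L → ℂ) (μ : ι → ℂ) (hu : ∀ p, Matrix.toLin' M (u p) = μ p • u p) :
    rho Finset.univ M (fun x : ι → L => ∏ p, u p (x p)) =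
      (∏ p, μ p) • fun x : ι → L => ∏ p, u p (x p) := by
  funext x
  rw [rho_univ_apply, Pi.smul_apply, smul_eq_mul, ← Finset.prod_mul_distrib]
  have h1 : ∀ p, μ p * u p (x p) = ∑ l, M (x p) l * u p l := by
    intro p
    have h2 := congrFun (hu p) (x p)
    rw [Matrix.toLin'_apply, Pi.smul_apply, smul_eq_mul] at h2
    rw [← h2]
    rfl
  simp only [h1]
  rw [Finset.prod_univ_sum, Fintype.piFinset_univ]
  refine Finset.sum_congr rfl fun y _ => ?_
  rw [Finset.prod_mul_distrib]

private lemma rho_top56 {L : Type} [Fintype L] [DecidableEq L] (M : Matrix L L ℂ)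
    (hss : Module.End.IsSemisimple (Matrix.toLin' M)) :
    ⨆ μ : ℂ, Module.End.eigenspace (rho Finset.univ M : Module.End ℂ (Ten ι L)) μ = ⊤ := by
  classical
  have h1 : ⨆ μ : ℂ, Module.End.eigenspace (Matrix.toLin' M) μ = ⊤ := hss.iSup_eigenspace_eq_top
  have h2 : ∀ l : L, ∃ f : ℂ →₀ (L → ℂ), (∀ μ, f μ ∈ Module.End.eigenspace (Matrix.toLin' M) μ) ∧
      (f.sum fun _ x => x) = Pi.single l 1 := by
    intro l
    have h3 : (Pi.single l (1 : ℂ) : L → ℂ) ∈
        ⨆ μ : ℂ, Module.End.eigenspace (Matrix.toLin' M) μ := by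
      rw [h1]
      exact Submodule.mem_top
    exact (Submodule.mem_iSup_iff_exists_finsupp _ _).1 h3
  choose F hF hFs using h2
  rw [eq_top_iff]
  intro t _
  have h3 : t = ∑ y : ι → L, t y • (Pi.single y (1 : ℂ) : Ten ι L) := by
    funext y
    simp [Finset.sum_apply, Pi.single_apply]
  rw [h3]
  refine Submodule.sum_mem _ fun y _ => Submodule.smul_mem _ _ ?_
  have h4 : (Pi.single y (1 : ℂ) : Ten ι L) =
      ∑ m ∈ Fintype.piFinset (fun p => (F (y p)).support),
        fun x : ι → L => ∏ p, F (y p) (m p) (x p) := by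
    funext x
    have h5 : (Pi.single y (1 : ℂ) : Ten ι L) x = ∏ p, (Pi.single (y p) (1 : ℂ) : L → ℂ) (x p) := by
      by_cases hxy : x = y
      · subst hxy
        rw [Pi.single_eq_same]
        symm
        exact Finset.prod_eq_one fun p _ => by rw [Pi.single_eq_same]
      · rw [Pi.single_eq_of_ne hxy]
        symm
        obtain ⟨p, hp⟩ := Function.ne_iff.1 hxy
        refine Finset.prod_eq_zero (Finset.mem_univ p) ?_
        rw [Pi.single_eq_of_ne hp]
    have h6 : ∀ p, (Pi.single (y p) (1 : ℂ) : L → ℂ) (x p) =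
        ∑ μ ∈ (F (y p)).support, F (y p) μ (x p) := by
      intro p
      rw [← hFs (y p), Finsupp.sum, Finset.sum_apply]
    rw [h5, Finset.sum_apply]
    simp only [h6]
    rw [Finset.prod_univ_sum]
  rw [h4]
  refine Submodule.sum_mem _ fun m _ => ?_
  refine Submodule.mem_iSup_of_mem (∏ p, m p) ?_
  rw [Module.End.mem_eigenspace_iff]
  exact rho_prod_vec56 M (fun p => F (y p) (m p)) m fun p =>
    Module.End.mem_eigenspace_iff.1 (hF (y p) (m p))

variable (k ι) in
/-- The space of the alternating tensors. -/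
private def altSub56 (b : B) : Submodule ℂ (Ten ι (Ind k)) where
  carrier := {t | IsAlt b t}
  add_mem' := by
    intro t t' ht ht'
    refine ⟨fun y hy p => ?_, fun y p q hpq => ?_⟩
    · by_cases h : t y = 0
      · refine ht'.supp y ?_ p
        intro h'
        apply hy
        rw [Pi.add_apply, h, h', add_zero]
      · exact ht.supp y h p
    · rw [Pi.add_apply, Pi.add_apply, ht.alt y p q hpq, ht'.alt y p q hpq]
      ring
  zero_mem' := by
    refine ⟨fun y hy p => absurd rfl hy, fun y p q hpq => ?_⟩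
    rw [Pi.zero_apply, Pi.zero_apply, neg_zero]
  smul_mem' := by
    intro c t ht
    refine ⟨fun y hy p => ?_, fun y p q hpq => ?_⟩
    · refine ht.supp y ?_ p
      intro h
      apply hy
      rw [Pi.smul_apply, h, smul_zero]
    · rw [Pi.smul_apply, Pi.smul_apply, ht.alt y p q hpq, smul_neg]

theorem alt_span {c : ℂ} {M : Matrix (Ind k) (Ind k) ℂ} (hM : InGO k c M)
    (hss : Module.End.IsSemisimple (Matrix.toLin' M)) {b : B} {t : Ten ι (Ind k)}
    (ht : IsAlt b t) : t ∈ Submodule.span ℂ {t' : Ten ι (Ind k) | IsAlt b t' ∧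
      ∃ β : ℂ, rho Finset.univ M t' = β • t'} := by
  have hst : ∀ x ∈ altSub56 k ι b, (rho Finset.univ M : Module.End ℂ (Ten ι (Ind k))) x ∈
      altSub56 k ι b := fun x hx => IsAlt.of_rho hx hM
  have h1 := Submodule.inf_iSup_genEigenspace hst 1
  have h2 : ⨆ μ : ℂ, Module.End.genEigenspace (rho Finset.univ M : Module.End ℂ (Ten ι (Ind k)))
      μ 1 = ⊤ := rho_top56 M hss
  rw [h2, inf_top_eq] at h1
  have h3 : t ∈ ⨆ μ : ℂ, altSub56 k ι b ⊓
      Module.End.genEigenspace (rho Finset.univ M : Module.End ℂ (Ten ι (Ind k))) μ 1 := by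
    rw [← h1]
    exact ht
  refine (iSup_le fun μ => ?_ : (⨆ μ : ℂ, altSub56 k ι b ⊓
      Module.End.genEigenspace (rho Finset.univ M : Module.End ℂ (Ten ι (Ind k))) μ 1) ≤ _) h3
  rintro x ⟨hx1, hx2⟩
  exact Submodule.subset_span ⟨hx1, μ, Module.End.mem_eigenspace_iff.1 hx2⟩

end Pool.Agent.Helper48.SP
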