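import Mathlib

/-!
# SP-C4: an inequality

The expression is `∑_{i < i.rev} 2 c_{i.rev} (c_i - s) + ∑_{i = i.rev} c_i (c_i - s)`. Reindex the
terms with `i.rev < i` by `Fin.rev` (`Fin.revPerm`). For `s = 1`: if `c_i = 0` then `c_{i.rev} = 0` by
dominance, and `c (c - 1) ≥ 0` for integers. For `s = -1` all terms are nonnegative, and `i = i.rev` is
impossible for even `n`.
-/

set_option autoImplicit false

namespace Pool.Agent.Helper48.SP

lemma bracket {n : ℕ} (c : Fin n → ℤ) (hc : ∀ i, 0 ≤ c i) (s : ℤ)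
    (hs : (s = 1 ∧ ∀ i : Fin n, i < i.rev → c i.rev ≤ c i) ∨ (s = -1 ∧ Even n)) :
    0 ≤ (∑ i, c i * c i.rev) + s * (∑ i, if i < i.rev then c i - c i.rev else 0) -
      s * ∑ i, c i := by
  have e : (∑ i, c i * c i.rev) + s * (∑ i, if i < i.rev then c i - c i.rev else 0) -
      s * ∑ i, c i =
      ∑ i : Fin n, (c i * c i.rev + s * (if i < i.rev then c i - c i.rev else 0) - s * c i) := by
    rw [Finset.sum_sub_distrib, Finset.sum_add_distrib, ← Finset.mul_sum, ← Finset.mul_sum]
  rw [e]
  set f : Fin n → ℤ := fun i =>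
    c i * c i.rev + s * (if i < i.rev then c i - c i.rev else 0) - s * c i with hf
  have hrev : ∑ i, f i = ∑ i : Fin n, f i.rev := (Equiv.sum_comp Fin.revPerm f).symm
  have hpair : ∀ i j : Fin n, i < j → i.rev = j → 0 ≤ f i + f j := by
    intro i j hij hj
    have hi : j.rev = i := by rw [← hj, Fin.rev_rev]
    have h1 : f i + f j = 2 * (c j * (c i - s)) := by
      simp only [hf]
      rw [hj, hi, if_pos hij, if_neg (not_lt.mpr hij.le)]
      ring
    rw [h1]
    refine mul_nonneg (by norm_num) ?_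
    rcases hs with ⟨rfl, hd⟩ | ⟨rfl, -⟩
    · have h2 := hd i (by rw [hj]; exact hij)
      rw [hj] at h2
      rcases eq_or_lt_of_le (hc i) with h3 | h3
      · have h4 : c j = 0 := le_antisymm (by rw [h3]; exact h2) (hc j)
        rw [h4, zero_mul]
      · exact mul_nonneg (hc j) (by omega)
    · exact mul_nonneg (hc j) (by have := hc i; omega)
  have hall : ∀ i : Fin n, 0 ≤ f i + f i.rev := by
    intro i
    rcases lt_trichotomy i i.rev with h | h | h
    · exact hpair i i.rev h rfl
    · rw [← h]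
      have h1 : f i = c i * (c i - s) := by
        simp only [hf]
        rw [if_neg (by rw [← h]; exact lt_irrefl i), ← h]
        ring
      have h2 : 0 ≤ c i * (c i - s) := by
        rcases eq_or_lt_of_le (hc i) with h3 | h3
        · rw [← h3, zero_mul]
        · refine mul_nonneg (hc i) ?_
          rcases hs with ⟨rfl, -⟩ | ⟨rfl, -⟩ <;> omega
      rw [h1]
      omega
    · rw [add_comm]
      exact hpair i.rev i h (Fin.rev_rev i)
  have h2 : 0 ≤ ∑ i, (f i + f i.rev) := Finset.sum_nonneg fun i _ => hall i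
  rw [Finset.sum_add_distrib, ← hrev] at h2
  change 0 ≤ ∑ i, f i
  omega

end Pool.Agent.Helper48.SP
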