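import Pool.Agent.Helper48.SP.Ops

/-!
# SP-P: the Capelli identity on highest weight vectors

Let `v` be killed by all `E l r` with `l < r` (a linear order on the letters, restricted to the
letters `s i`), with constant letter counts `α` on its support, and `s : Fin r → L` injective. Then
`Φ_s v := ∑ f, det [y (f i) = s j] * v (extend f s y) = c * v` with a natural number `c`, positive if
`α (s i) ≥ 1` for all `i`. (For non injective `f` the determinant has two equal rows.)

Proof by induction on `r`. `Φ_s` does not change if `s` is permuted (permute rows and columns, and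
the summation over `f`), so assume that `m = s (last r)` is the largest of the letters `s i`. Write
`f = snoc g q`. For fixed injective `g : Fin r → ι` let `y' = extend g (s ∘ castSucc) y`; sum over
`q ∉ range g` (for `q ∈ range g` the determinant vanishes). Expand along the last row `[y q = s j]`:
* `j = last`: cofactor `det [y (g i) = s (castSucc j')]`; `∑_{q, y q = m} v (update y' q m) =
  (cnt y' m) * v y' = α m * v y'` (if `q ∈ range g` then `y' q ≠ m`).
* `j = castSucc a`: cofactor `- det [y (g i) = s_a j']`, `s_a = update (s ∘ castSucc) a m` (exchange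
  the columns `a` and `last`); `∑_{q ∉ range g, y q = s a} v (update y' q m) = (E (s a) m v) y' -
  v (update y' (g a) m) = 0 - v (extend g s_a y)`.
So `Φ_s v = α m • Φ_(s ∘ castSucc) v + ∑ a, Φ_(s_a) v`, all with `r` letters.
-/

set_option autoImplicit false

namespace Pool.Agent.Helper48.SP

open Pool.Agent.Helper48.GC8 Function

variable {ι : Type} [Fintype ι] [DecidableEq ι] {L : Type} [Fintype L] [DecidableEq L]

/-- The 0-1 matrix with the entry `1` at `(i, j)` if the letter of `y` at `f i` is `s j`. -/
noncomputable def hit {r : ℕ} (y : ι → L) (f : Fin r → ι) (s : Fin r → L) :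
    Matrix (Fin r) (Fin r) ℂ := Matrix.of fun i j => if y (f i) = s j then 1 else 0

lemma hit_apply {r : ℕ} (y : ι → L) (f : Fin r → ι) (s : Fin r → L) (i j : Fin r) :
    hit y f s i j = if y (f i) = s j then 1 else 0 := rfl

lemma hit_det_zero {r : ℕ} (y : ι → L) {f : Fin r → ι} (s : Fin r → L) (hf : ¬ Injective f) :
    (hit y f s).det = 0 := by
  unfold Injective at hf
  push Not at hf
  obtain ⟨i, j, hij, hne⟩ := hf
  refine Matrix.det_zero_of_row_eq hne ?_
  funext a
  rw [hit_apply, hit_apply, hij]

/-- the sum of the theorem -/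
private noncomputable def Ph {r : ℕ} (s : Fin r → L) (v : Ten ι L) (y : ι → L) : ℂ :=
  ∑ f : Fin r → ι, (hit y f s).det * v (extend f s y)

private lemma Ph_perm {r : ℕ} (s : Fin r → L) (π : Equiv.Perm (Fin r)) (v : Ten ι L)
    (y : ι → L) : Ph (s ∘ π) v y = Ph s v y := by
  unfold Ph
  symm
  refine Fintype.sum_equiv (Equiv.arrowCongr π.symm (Equiv.refl ι)) _ _ fun f => ?_
  have e1 : (Equiv.arrowCongr π.symm (Equiv.refl ι)) f = f ∘ π := by
    funext i
    simp [Equiv.arrowCongr]
  rw [e1]
  by_cases hf : Injective f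
  · congr 1
    · have e2 : hit y (f ∘ π) (s ∘ π) = (hit y f s).submatrix π π := by
        ext i j
        simp [hit_apply]
      rw [e2, Matrix.det_submatrix_equiv_self]
    · congr 1
      funext p
      by_cases hp : ∃ i, f i = p
      · obtain ⟨i, rfl⟩ := hp
        rw [hf.extend_apply]
        have e3 : f i = (f ∘ π) (π.symm i) := by simp
        rw [e3, (hf.comp π.injective).extend_apply]
        simp
      · have hp' : ¬ ∃ i, (f ∘ π) i = p := by
          rintro ⟨i, hi⟩
          exact hp ⟨π i, hi⟩
        rw [extend_apply' _ _ _ hp, extend_apply' _ _ _ hp']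
  · have hf' : ¬ Injective (f ∘ π) := fun h => hf (by
      intro a b hab
      have := @h (π.symm a) (π.symm b) (by simpa using hab)
      simpa using this)
    rw [hit_det_zero y s hf, hit_det_zero y (s ∘ π) hf', zero_mul, zero_mul]

/-- the cofactors of the last row -/
private lemma cof_last {r : ℕ} (y : ι → L) (g : Fin r → ι) (q : ι) (s : Fin (r + 1) → L) :
    (hit y (Fin.snoc g q : Fin (r + 1) → ι) s).adjugate (Fin.last r) (Fin.last r) =
      (hit y g (s ∘ Fin.castSucc)).det := by
  rw [Matrix.adjugate_fin_succ_eq_det_submatrix]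
  have e1 : (hit y (Fin.snoc g q : Fin (r + 1) → ι) s).submatrix (Fin.last r).succAbove
      (Fin.last r).succAbove = hit y g (s ∘ Fin.castSucc) := by
    ext i j
    simp [hit_apply]
  rw [e1]
  have e2 : ((-1 : ℂ)) ^ ((Fin.last r : ℕ) + (Fin.last r : ℕ)) = 1 := by
    rw [← two_mul, pow_mul]
    norm_num
  rw [e2, one_mul]

private lemma cof_cast {r : ℕ} (y : ι → L) (g : Fin r → ι) (q : ι) (s : Fin (r + 1) → L)
    (a : Fin r) :
    (hit y (Fin.snoc g q : Fin (r + 1) → ι) s).adjugate a.castSucc (Fin.last r) =
      - (hit y g (update (s ∘ Fin.castSucc) a (s (Fin.last r)))).det := by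
  rw [Matrix.adjugate_apply]
  set A := (hit y (Fin.snoc g q : Fin (r + 1) → ι) s) with hA
  set C := A.updateRow (Fin.last r) (Pi.single a.castSucc 1) with hC
  set τ : Equiv.Perm (Fin (r + 1)) := Equiv.swap a.castSucc (Fin.last r) with hτ
  have hne : a.castSucc ≠ Fin.last r := (Fin.castSucc_lt_last a).ne
  have h1 : (C.submatrix id τ).det = - C.det := by
    rw [Matrix.det_permute', hτ, Equiv.Perm.sign_swap hne]
    simp
  have h2 : (C.submatrix id τ).det =
      (hit y g (update (s ∘ Fin.castSucc) a (s (Fin.last r)))).det := by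
    rw [Matrix.det_succ_row _ (Fin.last r), Finset.sum_eq_single (Fin.last r)]
    · have e0 : (C.submatrix id τ) (Fin.last r) (Fin.last r) = 1 := by
        rw [Matrix.submatrix_apply, hC, id, Matrix.updateRow_self, hτ, Equiv.swap_apply_right,
          Pi.single_eq_same]
      rw [e0]
      have e2 : ((-1 : ℂ)) ^ ((Fin.last r : ℕ) + (Fin.last r : ℕ)) = 1 := by
        rw [← two_mul, pow_mul]
        norm_num
      rw [e2, one_mul, one_mul]
      congr 1
      ext i j
      rw [Matrix.submatrix_apply, Matrix.submatrix_apply, Fin.succAbove_last, id, hC,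
        Matrix.updateRow_ne (Fin.castSucc_lt_last i).ne, hA, hit_apply, hit_apply]
      rw [Fin.snoc_castSucc]
      have e3 : s (τ j.castSucc) = update (s ∘ Fin.castSucc) a (s (Fin.last r)) j := by
        by_cases hj : j = a
        · subst hj
          rw [hτ, Equiv.swap_apply_left, update_self]
        · rw [update_of_ne hj, hτ, Equiv.swap_apply_of_ne_of_ne]
          · rfl
          · exact fun h => hj (Fin.castSucc_injective _ h)
          · exact (Fin.castSucc_lt_last j).ne
      rw [e3]
    · intro j _ hj
      have e0 : (C.submatrix id τ) (Fin.last r) j = 0 := by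
        rw [Matrix.submatrix_apply, hC, id, Matrix.updateRow_self]
        refine Pi.single_eq_of_ne ?_ _
        intro h
        apply hj
        have h3 : j = τ a.castSucc := by
          rw [← h, hτ, Equiv.swap_apply_self]
        rw [h3, hτ, Equiv.swap_apply_left]
      rw [e0, mul_zero, zero_mul]
    · intro h
      exact absurd (Finset.mem_univ _) h
  rw [← h2, h1, neg_neg]

private lemma extend_snoc {r : ℕ} {g : Fin r → ι} (hg : Injective g) {q : ι}
    (hq : ∀ i, g i ≠ q) (s : Fin (r + 1) → L) (y : ι → L) :
    extend (Fin.snoc g q : Fin (r + 1) → ι) s y =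
      update (extend g (s ∘ Fin.castSucc) y) q (s (Fin.last r)) := by
  have hinj : Injective (Fin.snoc g q : Fin (r + 1) → ι) := by
    intro a b
    refine Fin.lastCases ?_ (fun a => ?_) a <;> refine Fin.lastCases ?_ (fun b => ?_) b
    · intro _; rfl
    · intro h
      rw [Fin.snoc_last, Fin.snoc_castSucc] at h
      exact absurd h.symm (hq b)
    · intro h
      rw [Fin.snoc_last, Fin.snoc_castSucc] at h
      exact absurd h (hq a)
    · intro h
      rw [Fin.snoc_castSucc, Fin.snoc_castSucc] at h
      rw [hg h]
  funext p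
  by_cases hp : p = q
  · subst hp
    rw [update_self]
    have e1 : extend (Fin.snoc g p : Fin (r + 1) → ι) s y
        ((Fin.snoc g p : Fin (r + 1) → ι) (Fin.last r)) = s (Fin.last r) :=
      hinj.extend_apply _ _ _
    rwa [Fin.snoc_last] at e1
  · rw [update_of_ne hp]
    by_cases hp' : ∃ i, g i = p
    · obtain ⟨i, rfl⟩ := hp'
      rw [hg.extend_apply]
      have e1 : extend (Fin.snoc g q : Fin (r + 1) → ι) s y
          ((Fin.snoc g q : Fin (r + 1) → ι) i.castSucc) = s i.castSucc :=
        hinj.extend_apply _ _ _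
      rwa [Fin.snoc_castSucc] at e1
    · rw [extend_apply' _ _ _ hp', extend_apply']
      rintro ⟨i, hi⟩
      revert hi
      refine Fin.lastCases ?_ (fun i => ?_) i
      · intro hi
        rw [Fin.snoc_last] at hi
        exact hp hi.symm
      · intro hi
        rw [Fin.snoc_castSucc] at hi
        exact hp' ⟨i, hi⟩

private lemma extend_update {r : ℕ} {g : Fin r → ι} (hg : Injective g) (s : Fin r → L) (a : Fin r)
    (m : L) (y : ι → L) : update (extend g s y) (g a) m = extend g (update s a m) y := by
  funext p
  by_cases hp : ∃ i, g i = p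
  · obtain ⟨i, rfl⟩ := hp
    rw [hg.extend_apply]
    by_cases hi : i = a
    · subst hi
      rw [update_self, update_self]
    · rw [update_of_ne (fun h => hi (hg h)), update_of_ne hi, hg.extend_apply]
  · rw [extend_apply' _ _ _ hp, update_of_ne, extend_apply' _ _ _ hp]
    rintro rfl
    exact hp ⟨a, rfl⟩

private lemma step_g {v : Ten ι L} {α : L → ℕ}
    (hα : ∀ y, v y ≠ 0 → ∀ l, (Finset.univ.filter fun p => y p = l).card = α l) {r : ℕ}
    {s : Fin (r + 1) → L} (hs : Injective s)
    (hE : ∀ a : Fin r, E (s a.castSucc) (s (Fin.last r)) v = 0) {g : Fin r → ι}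
    (hg : Injective g) (y : ι → L) :
    ∑ q, (hit y (Fin.snoc g q : Fin (r + 1) → ι) s).det *
        v (extend (Fin.snoc g q : Fin (r + 1) → ι) s y) =
      (α (s (Fin.last r)) : ℂ) * ((hit y g (s ∘ Fin.castSucc)).det *
        v (extend g (s ∘ Fin.castSucc) y)) +
      ∑ a, (hit y g (update (s ∘ Fin.castSucc) a (s (Fin.last r)))).det *
        v (extend g (update (s ∘ Fin.castSucc) a (s (Fin.last r))) y) := by
  set m := s (Fin.last r) with hm
  set y' := extend g (s ∘ Fin.castSucc) y with hy'
  have hy'g : ∀ i, y' (g i) = s i.castSucc := fun i => hg.extend_apply _ _ _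
  have hy'n : ∀ q, (∀ i, g i ≠ q) → y' q = y q := by
    intro q hq
    exact extend_apply' _ _ _ (fun ⟨i, hi⟩ => hq i hi)
  set c0 := (hit y g (s ∘ Fin.castSucc)).det with hc0
  set c : Fin r → ℂ := fun a => (hit y g (update (s ∘ Fin.castSucc) a m)).det with hc
  -- the terms
  have hterm : ∀ q, (hit y (Fin.snoc g q : Fin (r + 1) → ι) s).det *
        v (extend (Fin.snoc g q : Fin (r + 1) → ι) s y) =
      c0 * (if y' q = m then v y' else 0) -
        ∑ a, c a * (if q = g a then 0 else if y' q = s a.castSucc then v (update y' q m)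
          else 0) := by
    intro q
    by_cases hq : ∃ i, g i = q
    · obtain ⟨i, rfl⟩ := hq
      have h1 : ¬ Injective (Fin.snoc g (g i) : Fin (r + 1) → ι) := by
        intro h
        have := @h i.castSucc (Fin.last r) (by rw [Fin.snoc_castSucc, Fin.snoc_last])
        exact (Fin.castSucc_lt_last i).ne this
      rw [hit_det_zero y s h1, zero_mul, hy'g, if_neg, mul_zero, zero_sub]
      · symm
        rw [neg_eq_zero]
        refine Finset.sum_eq_zero fun a _ => ?_
        by_cases ha : i = a
        · subst ha
          rw [if_pos rfl, mul_zero]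
        · rw [if_neg (fun h => ha (hg h)), if_neg, mul_zero]
          exact fun h => ha (Fin.castSucc_injective _ (hs h))
      · exact fun h => (Fin.castSucc_lt_last i).ne (hs h)
    · push Not at hq
      rw [extend_snoc hg hq s y, ← hy', ← hm, Matrix.det_eq_sum_mul_adjugate_row _ (Fin.last r),
        Fin.sum_univ_castSucc, cof_last, add_mul, add_comm]
      have e1 : hit y (Fin.snoc g q : Fin (r + 1) → ι) s (Fin.last r) (Fin.last r) =
          if y q = m then 1 else 0 := by
        rw [hit_apply, Fin.snoc_last]
      have e2 : ∀ a : Fin r, hit y (Fin.snoc g q : Fin (r + 1) → ι) s (Fin.last r) a.castSucc =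
          if y q = s a.castSucc then 1 else 0 := by
        intro a
        rw [hit_apply, Fin.snoc_last]
      rw [e1, hy'n q hq, sub_eq_add_neg]
      congr 1
      · by_cases h : y q = m
        · rw [if_pos h, if_pos h, one_mul]
          congr 2
          rw [← h, ← hy'n q hq, update_eq_self]
        · rw [if_neg h, if_neg h, zero_mul, zero_mul, mul_zero]
      · rw [Finset.sum_mul, ← Finset.sum_neg_distrib]
        refine Finset.sum_congr rfl fun a _ => ?_
        rw [cof_cast, e2, if_neg (Ne.symm (hq a))]
        by_cases h : y q = s a.castSucc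
        · rw [if_pos h, if_pos h, one_mul, neg_mul]
        · rw [if_neg h, if_neg h, zero_mul, zero_mul, mul_zero, neg_zero]
  simp only [hterm]
  rw [Finset.sum_sub_distrib, ← Finset.mul_sum, sub_eq_add_neg]
  congr 1
  · have h1 : ∑ q, (if y' q = m then v y' else 0) = (α m : ℂ) * v y' := by
      rw [← Finset.sum_filter, Finset.sum_const, nsmul_eq_mul]
      by_cases h : v y' = 0
      · rw [h, mul_zero, mul_zero]
      · rw [hα y' h m]
    rw [h1]
    ring
  · rw [Finset.sum_comm, ← Finset.sum_neg_distrib]
    refine Finset.sum_congr rfl fun a _ => ?_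
    rw [← Finset.mul_sum, ← mul_neg]
    congr 1
    have h1 := congrFun (hE a) y'
    rw [E_apply, Pi.zero_apply, ← Finset.add_sum_erase Finset.univ _ (Finset.mem_univ (g a)),
      hy'g a, if_pos rfl] at h1
    have h2 : ∑ q, (if q = g a then 0 else if y' q = s a.castSucc then v (update y' q m) else 0) =
        ∑ q ∈ Finset.univ.erase (g a), (if y' q = s a.castSucc then v (update y' q m) else 0) := by
      rw [← Finset.add_sum_erase Finset.univ _ (Finset.mem_univ (g a)), if_pos rfl, zero_add]
      refine Finset.sum_congr rfl fun q hq => ?_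
      rw [if_neg (Finset.ne_of_mem_erase hq)]
    rw [h2, ← extend_update hg, ← hy']
    linear_combination -h1

private lemma step_Ph {v : Ten ι L} {α : L → ℕ}
    (hα : ∀ y, v y ≠ 0 → ∀ l, (Finset.univ.filter fun p => y p = l).card = α l) {r : ℕ}
    {s : Fin (r + 1) → L} (hs : Injective s)
    (hE : ∀ a : Fin r, E (s a.castSucc) (s (Fin.last r)) v = 0) (y : ι → L) :
    Ph s v y = (α (s (Fin.last r)) : ℂ) * Ph (s ∘ Fin.castSucc) v y +
      ∑ a, Ph (update (s ∘ Fin.castSucc) a (s (Fin.last r))) v y := by
  unfold Ph
  rw [← (Fin.snocEquiv fun _ : Fin (r + 1) => ι).sum_comp, Fintype.sum_prod_type, Finset.sum_comm,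
    Finset.sum_comm (s := Finset.univ (α := Fin r)), Finset.mul_sum, ← Finset.sum_add_distrib]
  refine Finset.sum_congr rfl fun g _ => ?_
  by_cases hg : Injective g
  · exact step_g hα hs hE hg y
  · have h1 : ∀ q, ¬ Injective (Fin.snoc g q : Fin (r + 1) → ι) := by
      intro q h
      apply hg
      intro a b hab
      have := @h a.castSucc b.castSucc (by rw [Fin.snoc_castSucc, Fin.snoc_castSucc, hab])
      exact Fin.castSucc_injective _ this
    rw [hit_det_zero y _ hg, zero_mul, mul_zero, zero_add]
    have h2 : ∀ a : Fin r, (hit y g (update (s ∘ Fin.castSucc) a (s (Fin.last r)))).det = 0 :=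
      fun a => hit_det_zero y _ hg
    simp only [h2, zero_mul, Finset.sum_const_zero]
    refine Finset.sum_eq_zero fun q _ => ?_
    have h3 : (hit y (Fin.snoc g q : Fin (r + 1) → ι) s).det = 0 := hit_det_zero y _ (h1 q)
    show (hit y (Fin.snoc g q : Fin (r + 1) → ι) s).det * _ = 0
    rw [h3, zero_mul]

theorem capelli (rk : L → ℕ) {v : Ten ι L} {α : L → ℕ}
    (hα : ∀ y, v y ≠ 0 → ∀ l, (Finset.univ.filter fun p => y p = l).card = α l) :
    ∀ (r : ℕ) (s : Fin r → L), Injective s → (Injective fun i => rk (s i)) →
      (∀ i j, rk (s i) < rk (s j) → E (s i) (s j) v = 0) →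
      ∃ c : ℕ, ((∀ i, 1 ≤ α (s i)) → 0 < c) ∧
        ∀ y, ∑ f : Fin r → ι, (hit y f s).det * v (extend f s y) = (c : ℂ) * v y := by
  intro r
  induction r with
  | zero =>
    intro s _ _ _
    refine ⟨1, fun _ => one_pos, fun y => ?_⟩
    rw [Fintype.sum_unique, Matrix.det_fin_zero]
    congr 1
    · simp
    · congr 1
      funext p
      exact extend_apply' _ _ _ (fun ⟨i, _⟩ => i.elim0)
  | succ r ih =>
    intro s hs hrk hE
    -- move the largest letter to the end
    obtain ⟨i0, -, hi0⟩ := Finset.exists_max_image Finset.univ (fun i => rk (s i))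
      ⟨Fin.last r, Finset.mem_univ _⟩
    set π : Equiv.Perm (Fin (r + 1)) := Equiv.swap i0 (Fin.last r) with hπ
    set t : Fin (r + 1) → L := s ∘ π with ht
    have htinj : Injective t := hs.comp π.injective
    have htlast : t (Fin.last r) = s i0 := by
      rw [ht, Function.comp, hπ, Equiv.swap_apply_right]
    have htrk : Injective fun i => rk (t i) := hrk.comp π.injective
    have htE : ∀ i j, rk (t i) < rk (t j) → E (t i) (t j) v = 0 := fun i j h => hE _ _ h
    have hlt : ∀ a : Fin r, rk (t a.castSucc) < rk (t (Fin.last r)) := by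
      intro a
      refine lt_of_le_of_ne ?_ ?_
      · rw [htlast]
        exact hi0 _ (Finset.mem_univ _)
      · intro h
        exact (Fin.castSucc_lt_last a).ne (htrk h)
    have hEa : ∀ a : Fin r, E (t a.castSucc) (t (Fin.last r)) v = 0 := fun a => htE _ _ (hlt a)
    -- the smaller tuples
    have hu : ∀ a : Fin r, ∀ i, ∃ i', update (t ∘ Fin.castSucc) a (t (Fin.last r)) i = t i' ∧
        (i = a → i' = Fin.last r) ∧ (i ≠ a → i' = i.castSucc) := by
      intro a i
      by_cases h : i = a
      · subst h
        exact ⟨Fin.last r, update_self _ _ _, fun _ => rfl, fun h => absurd rfl h⟩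
      · exact ⟨i.castSucc, update_of_ne h _ _, fun h' => absurd h' h, fun _ => rfl⟩
    have hidx : ∀ a : Fin r, ∀ i j, ∀ i' j', (i = a → i' = Fin.last r) → (i ≠ a → i' = i.castSucc) →
        (j = a → j' = Fin.last r) → (j ≠ a → j' = j.castSucc) → i' = j' → i = j := by
      intro a i j i' j' h1 h2 h3 h4 h5
      by_cases hi : i = a <;> by_cases hj : j = a
      · rw [hi, hj]
      · rw [h1 hi, h4 hj] at h5
        exact absurd h5.symm (Fin.castSucc_lt_last j).ne
      · rw [h2 hi, h3 hj] at h5
        exact absurd h5 (Fin.castSucc_lt_last i).ne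
      · rw [h2 hi, h4 hj] at h5
        exact Fin.castSucc_injective _ h5
    have key0 := ih (t ∘ Fin.castSucc) (htinj.comp (Fin.castSucc_injective r))
      (htrk.comp (Fin.castSucc_injective r)) (fun i j h => htE _ _ h)
    have keya : ∀ a : Fin r, ∃ c : ℕ, ∀ y, ∑ f : Fin r → ι,
        (hit y f (update (t ∘ Fin.castSucc) a (t (Fin.last r)))).det *
          v (extend f (update (t ∘ Fin.castSucc) a (t (Fin.last r))) y) = (c : ℂ) * v y := by
      intro a
      obtain ⟨c, -, hc⟩ := ih (update (t ∘ Fin.castSucc) a (t (Fin.last r))) (by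
        intro i j hij
        obtain ⟨i', hi1, hi2, hi3⟩ := hu a i
        obtain ⟨j', hj1, hj2, hj3⟩ := hu a j
        rw [hi1, hj1] at hij
        exact hidx a i j i' j' hi2 hi3 hj2 hj3 (htinj hij)) (by
        intro i j hij
        obtain ⟨i', hi1, hi2, hi3⟩ := hu a i
        obtain ⟨j', hj1, hj2, hj3⟩ := hu a j
        simp only [hi1, hj1] at hij
        exact hidx a i j i' j' hi2 hi3 hj2 hj3 (htrk hij)) (by
        intro i j hij
        obtain ⟨i', hi1, -, -⟩ := hu a i
        obtain ⟨j', hj1, -, -⟩ := hu a j
        rw [hi1, hj1] at hij ⊢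
        exact htE _ _ hij)
      exact ⟨c, hc⟩
    obtain ⟨c0, hc0, hc0'⟩ := key0
    choose c hc using keya
    refine ⟨α (t (Fin.last r)) * c0 + ∑ a, c a, ?_, ?_⟩
    · intro hpos
      have h1 : 0 < c0 := hc0 fun i => hpos _
      have h2 : 1 ≤ α (t (Fin.last r)) := hpos _
      exact Nat.add_pos_left (Nat.mul_pos h2 h1) _
    · intro y
      have h1 : ∑ f : Fin (r + 1) → ι, (hit y f s).det * v (extend f s y) = Ph s v y := rfl
      have h2 : s = t ∘ π := by
        funext i
        rw [ht, Function.comp, Function.comp, hπ, Equiv.swap_apply_self]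
      rw [h1, h2, Ph_perm, step_Ph hα htinj hEa]
      unfold Ph
      rw [hc0' y]
      simp only [hc]
      rw [← Finset.sum_mul]
      push_cast
      ring

end Pool.Agent.Helper48.SP
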