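import Pool.Agent.Helper48.SP.Ops
import Pool.Agent.Helper48.SP.Kap

/-!
# SP-C1: the trace identity

For a tensor `w` killed by the contractions with the form of the block `b`,
`∑ i j, eps i eps j ⟨E_{j i} w, E_{i' j'} w⟩ = sg ∑_y (number of letters of the block b in y) |w y|²`.
Proof: the left hand side is `∑ i j, eps i eps j ⟨w, E_{i j} (E_{i' j'} w)⟩` (`herm_E`). At a word
`y`, `E_{i j} (E_{i' j'} w) y` is the sum over the positions `p`, `q` of: (`p ≠ q`, `y p = i`,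
`y q = i'`) `w (update (update y p j) q j')`; (`p = q`, `y p = i`, `j = i'`)
`w (update y p j') = w y`. The terms with `p ≠ q` add up, for fixed `p`, `q`, over `i`, `j`, to
`(∑ i, if y p = i ∧ y q = i' then eps i else 0) * ∑ j, eps j * w (update (update y p j) q j')`,
and the last sum is `kap b p q w` at the restriction of `y`, so zero. The terms with `p = q` are
`∑ i, eps i * eps i' * #{p | y p = i} * w y` and `eps i * eps i' = sg`.
-/

set_option autoImplicit false

namespace Pool.Agent.Helper48.SP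

open Pool.Agent.Helper48.GC8 Function

variable {B : Type} {k : B → Blk} [Fintype B] [DecidableEq B] {ι : Type} [Fintype ι]
  [DecidableEq ι]

private lemma glue_h12 {p q : ι} (hpq : p ≠ q) (l r : Ind k) (y : ι → Ind k) :
    glue p q l r (fun x => y x) = update (update y p l) q r := by
  funext x
  unfold glue
  by_cases h1 : x = q
  · subst h1
    rw [dif_neg (fun h => h.2 rfl), if_neg (Ne.symm hpq), update_self]
  · rw [update_of_ne h1]
    by_cases h2 : x = p
    · subst h2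
      rw [dif_neg (fun h => h.1 rfl), if_pos rfl, update_self]
    · rw [update_of_ne h2, dif_pos ⟨h2, h1⟩]

private lemma kap_h12 (b : B) {p q : ι} (hpq : p ≠ q) (w : Ten ι (Ind k))
    (h : kap b p q w = 0) (y : ι → Ind k) :
    ∑ j : Fin (k b).dim, eps (⟨b, j⟩ : Ind k) *
      w (update (update y p (⟨b, j⟩ : Ind k)) q ⟨b, j.rev⟩) = 0 := by
  have h1 := congrFun h (fun x => y x)
  rw [kap_apply] at h1
  simp only [glue_h12 hpq, Pi.zero_apply] at h1
  refine Eq.trans ?_ h1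
  rw [Fintype.sum_sigma, Finset.sum_eq_single b]
  · refine Finset.sum_congr rfl fun j _ => ?_
    rw [Finset.sum_eq_single (⟨b, j.rev⟩ : Ind k)]
    · rw [frm_apply, if_pos ⟨rfl, rfl⟩]
    · intro r _ hr
      rw [frm_apply, if_neg (fun h => hr h.2), zero_mul]
    · intro hn
      exact absurd (Finset.mem_univ _) hn
  · intro c _ hc
    refine Finset.sum_eq_zero fun j _ => Finset.sum_eq_zero fun r _ => ?_
    rw [frm_apply, if_neg (fun h => hc h.1), zero_mul]
  · intro hn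
    exact absurd (Finset.mem_univ _) hn

private lemma EE_h12 (l r l' r' : Ind k) (w : Ten ι (Ind k)) (y : ι → Ind k) :
    E l r (E l' r' w) y = ∑ p, ∑ q, if y p = l then
      (if update y p r q = l' then w (update (update y p r) q r') else 0) else 0 := by
  rw [E_apply]
  refine Finset.sum_congr rfl fun p _ => ?_
  by_cases h : y p = l
  · simp only [if_pos h]
    rw [E_apply]
  · simp only [if_neg h, Finset.sum_const_zero]

private lemma swap_h12 {X Y P Q : Type} [Fintype X] [Fintype Y] [Fintype P] [Fintype Q]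
    (F : X → Y → P → Q → ℂ) :
    ∑ i, ∑ j, ∑ p, ∑ q, F i j p q = ∑ p, ∑ q, ∑ i, ∑ j, F i j p q :=
  calc ∑ i, ∑ j, ∑ p, ∑ q, F i j p q
      = ∑ i, ∑ p, ∑ j, ∑ q, F i j p q := Finset.sum_congr rfl fun _ _ => Finset.sum_comm
    _ = ∑ p, ∑ i, ∑ j, ∑ q, F i j p q := Finset.sum_comm
    _ = ∑ p, ∑ i, ∑ q, ∑ j, F i j p q := Finset.sum_congr rfl fun _ _ =>
        Finset.sum_congr rfl fun _ _ => Finset.sum_comm
    _ = ∑ p, ∑ q, ∑ i, ∑ j, F i j p q := Finset.sum_congr rfl fun _ _ => Finset.sum_comm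

private lemma eps_rev_h12 (hk : ∀ b, (k b).Ok) (b : B) (i : Fin (k b).dim) :
    eps (⟨b, i⟩ : Ind k) * eps (⟨b, i.rev⟩ : Ind k) = sg k b := by
  have h1 := eps_op hk (⟨b, i⟩ : Ind k)
  have h2 := eps_sq (⟨b, i⟩ : Ind k)
  have h3 : eps (⟨b, i.rev⟩ : Ind k) = sg k b * eps (⟨b, i⟩ : Ind k) := h1
  rw [h3]
  linear_combination sg k b * h2

private lemma point_h12 (hk : ∀ b, (k b).Ok) (b : B) (w : Ten ι (Ind k))
    (htr : ∀ p q : ι, p ≠ q → kap b p q w = 0) (y : ι → Ind k) :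
    (∑ i : Fin (k b).dim, ∑ j : Fin (k b).dim, eps (⟨b, i⟩ : Ind k) * eps (⟨b, j⟩ : Ind k) *
      E (⟨b, i⟩ : Ind k) ⟨b, j⟩ (E (⟨b, i.rev⟩ : Ind k) ⟨b, j.rev⟩ w) y) =
    sg k b * ((∑ i : Fin (k b).dim, (cnt y (⟨b, i⟩ : Ind k) : ℂ)) * w y) := by
  simp only [EE_h12, Finset.mul_sum]
  rw [swap_h12]
  have h1 : ∀ p : ι, ∑ q, ∑ i : Fin (k b).dim, ∑ j : Fin (k b).dim,
      eps (⟨b, i⟩ : Ind k) * eps (⟨b, j⟩ : Ind k) *
      (if y p = ⟨b, i⟩ then (if update y p (⟨b, j⟩ : Ind k) q = ⟨b, i.rev⟩ then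
        w (update (update y p (⟨b, j⟩ : Ind k)) q ⟨b, j.rev⟩) else 0) else 0) =
      ∑ i : Fin (k b).dim, if y p = ⟨b, i⟩ then sg k b * w y else 0 := by
    intro p
    rw [Finset.sum_eq_single p]
    · refine Finset.sum_congr rfl fun i _ => ?_
      by_cases hi : y p = ⟨b, i⟩
      · simp only [if_pos hi, update_self]
        rw [Finset.sum_eq_single i.rev]
        · rw [if_pos rfl, update_idem, Fin.rev_rev, eps_rev_h12 hk b i, ← hi, update_eq_self]
        · intro j _ hj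
          rw [if_neg, mul_zero]
          intro h
          apply hj
          have h' := Sigma.mk.inj h
          exact eq_of_heq h'.2
        · intro hn
          exact absurd (Finset.mem_univ _) hn
      · simp only [if_neg hi, mul_zero, Finset.sum_const_zero]
    · intro q _ hq
      refine Finset.sum_eq_zero fun i _ => ?_
      by_cases hi : y p = ⟨b, i⟩ ∧ y q = ⟨b, i.rev⟩
      · have h2 : ∀ j : Fin (k b).dim, eps (⟨b, i⟩ : Ind k) * eps (⟨b, j⟩ : Ind k) *
            (if y p = ⟨b, i⟩ then (if update y p (⟨b, j⟩ : Ind k) q = ⟨b, i.rev⟩ then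
            w (update (update y p (⟨b, j⟩ : Ind k)) q ⟨b, j.rev⟩) else 0) else 0) =
            eps (⟨b, i⟩ : Ind k) * (eps (⟨b, j⟩ : Ind k) *
              w (update (update y p (⟨b, j⟩ : Ind k)) q ⟨b, j.rev⟩)) := by
          intro j
          rw [if_pos hi.1, if_pos (by rw [update_of_ne hq]; exact hi.2)]
          ring
        rw [Finset.sum_congr rfl fun j _ => h2 j, ← Finset.mul_sum,
          kap_h12 b (Ne.symm hq) w (htr p q (Ne.symm hq)) y, mul_zero]
      · refine Finset.sum_eq_zero fun j _ => ?_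
        by_cases h3 : y p = ⟨b, i⟩
        · rw [if_pos h3, if_neg, mul_zero]
          rw [update_of_ne hq]
          exact fun h => hi ⟨h3, h⟩
        · rw [if_neg h3, mul_zero]
    · intro hn
      exact absurd (Finset.mem_univ _) hn
  rw [Finset.sum_congr rfl fun p _ => h1 p, Finset.sum_comm]
  rw [Finset.sum_mul, Finset.mul_sum]
  refine Finset.sum_congr rfl fun i _ => ?_
  rw [← Finset.sum_filter, Finset.sum_const, nsmul_eq_mul]
  unfold cnt
  ring

theorem trace_id (hk : ∀ b, (k b).Ok) (b : B) (w : Ten ι (Ind k))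
    (htr : ∀ p q : ι, p ≠ q → kap b p q w = 0) :
    (∑ i : Fin (k b).dim, ∑ j : Fin (k b).dim, eps (⟨b, i⟩ : Ind k) * eps (⟨b, j⟩ : Ind k) *
      herm (E (⟨b, j⟩ : Ind k) ⟨b, i⟩ w) (E (⟨b, i.rev⟩ : Ind k) ⟨b, j.rev⟩ w)) =
    sg k b * ∑ y, (∑ i : Fin (k b).dim, (cnt y (⟨b, i⟩ : Ind k) : ℂ)) * (star (w y) * w y) := by
  have h1 : ∀ i j : Fin (k b).dim, eps (⟨b, i⟩ : Ind k) * eps (⟨b, j⟩ : Ind k) *
      herm (E (⟨b, j⟩ : Ind k) ⟨b, i⟩ w) (E (⟨b, i.rev⟩ : Ind k) ⟨b, j.rev⟩ w) =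
      ∑ y, star (w y) * (eps (⟨b, i⟩ : Ind k) * eps (⟨b, j⟩ : Ind k) *
        E (⟨b, i⟩ : Ind k) ⟨b, j⟩ (E (⟨b, i.rev⟩ : Ind k) ⟨b, j.rev⟩ w) y) := by
    intro i j
    rw [herm_E]
    unfold herm
    rw [Finset.mul_sum]
    exact Finset.sum_congr rfl fun y _ => by ring
  simp only [h1]
  have h2 : ∀ F : Fin (k b).dim → Fin (k b).dim → (ι → Ind k) → ℂ,
      ∑ i, ∑ j, ∑ y, F i j y = ∑ y, ∑ i, ∑ j, F i j y := by
    intro F
    calc ∑ i, ∑ j, ∑ y, F i j y = ∑ i, ∑ y, ∑ j, F i j y :=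
          Finset.sum_congr rfl fun _ _ => Finset.sum_comm
      _ = ∑ y, ∑ i, ∑ j, F i j y := Finset.sum_comm
  rw [h2, Finset.mul_sum]
  refine Finset.sum_congr rfl fun y _ => ?_
  simp only [← Finset.mul_sum]
  rw [point_h12 hk b w htr y]
  ring

end Pool.Agent.Helper48.SP
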