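import Pool.Agent.Helper48.SP.Cas1
import Pool.Agent.Helper48.SP.Bracket

/-!
# SP-C3: highest weight vectors of the form are highest weight vectors of `GL`

Write `c_i = cnt y (b, i)`, `i' = i.rev`, and `t(i, j) = eps i eps j ⟨E_{j i} w, E_{i' j'} w⟩`.
* `j = i`: `t(i, i) = ∑_y c_i c_{i'} |w y|²` (`E_self`, `eps_sq`).
* `j < i`: `E_{j i} w = eps i eps j E_{i' j'} w` (`der_rais`, `IsHW.raise`), so
  `t(i, j) = ⟨E_{j i} w, E_{j i} w⟩`.
* `i < j`: `t(i, j) = eps i eps j ⟨w, E_{i j} E_{i' j'} w⟩`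
  `= eps i eps j (⟨w, E_{i' j'} E_{i j} w⟩ + (if j = i' then ⟨w, E_{i i} w - E_{i' i'} w⟩ else 0))`
  (`E_comm`), and the first part is `⟨E_{i j} w, E_{i j} w⟩` (`herm_E`, `raise`), the second is
  `sg ∑_y (c_i - c_{i'}) |w y|²`.
Hence by `trace_id`
`2 ∑_{i < j} ‖E_{i j} w‖² + ∑_y |w y|² (∑_i c_i c_{i'} + sg ∑_{i < i'} (c_i - c_{i'}) - sg ∑_i c_i) = 0`,
and the bracket is `∑_{i < i'} 2 c_{i'} (c_i - sg) + ∑_{i = i'} c_i (c_i - sg) ≥ 0` (`bracket`): for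
`sg = -1` clear; for `sg = 1`, `c_i = 0` implies `c_{i'} = 0` by dominance. So `E_{i j} w = 0`.
-/

set_option autoImplicit false

namespace Pool.Agent.Helper48.SP

open Pool.Agent.Helper48.GC8 Function

variable {B : Type} {k : B → Blk} [Fintype B] [DecidableEq B] {ι : Type} [Fintype ι]
  [DecidableEq ι]

section c3

variable {L : Type} [Fintype L] [DecidableEq L]

/-- The square of the norm. -/
noncomputable def nrm3 (u : Ten ι L) : ℝ := ∑ y, ‖u y‖ ^ 2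

lemma nrm3_nonneg (u : Ten ι L) : 0 ≤ nrm3 u := Finset.sum_nonneg fun _ _ => by positivity

lemma star_mul_self3 (z : ℂ) : star z * z = ((‖z‖ ^ 2 : ℝ) : ℂ) := by
  rw [Complex.star_def, Complex.conj_mul']
  push_cast
  rfl

lemma herm_self3 (u : Ten ι L) : herm u u = (nrm3 u : ℂ) := by
  unfold herm nrm3
  rw [Complex.ofReal_sum]
  exact Finset.sum_congr rfl fun y _ => star_mul_self3 (u y)

lemma herm_smul_right3 (c : ℂ) (u v : Ten ι L) : herm u (c • v) = c * herm u v := by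
  unfold herm
  rw [Finset.mul_sum]
  refine Finset.sum_congr rfl fun y _ => ?_
  rw [Pi.smul_apply, smul_eq_mul]
  ring

lemma herm_smul_left3 (c : ℂ) (u v : Ten ι L) : herm (c • u) v = star c * herm u v := by
  unfold herm
  rw [Finset.mul_sum]
  refine Finset.sum_congr rfl fun y _ => ?_
  rw [Pi.smul_apply, smul_eq_mul, star_mul']
  ring

lemma herm_add_right3 (u v v' : Ten ι L) : herm u (v + v') = herm u v + herm u v' := by
  unfold herm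
  rw [← Finset.sum_add_distrib]
  refine Finset.sum_congr rfl fun y _ => ?_
  rw [Pi.add_apply]
  ring

lemma herm_sub_right3 (u v v' : Ten ι L) : herm u (v - v') = herm u v - herm u v' := by
  unfold herm
  rw [← Finset.sum_sub_distrib]
  refine Finset.sum_congr rfl fun y _ => ?_
  rw [Pi.sub_apply]
  ring

lemma herm_zero_right3 (u : Ten ι L) : herm u 0 = 0 := by
  unfold herm
  simp

end c3

/-- The eigenvalue of `E l l`. -/
lemma E_self3 (l : Ind k) (w : Ten ι (Ind k)) (y : ι → Ind k) :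
    E l l w y = (cnt y l : ℂ) * w y := E_self l w y

lemma herm_E_self3 (l : Ind k) (w : Ten ι (Ind k)) :
    herm w (E l l w) = ∑ y, (cnt y l : ℂ) * (star (w y) * w y) := by
  unfold herm
  refine Finset.sum_congr rfl fun y _ => ?_
  rw [E_self3]
  ring

lemma herm_E_E3 (l r : Ind k) (w : Ten ι (Ind k)) :
    herm (E l l w) (E r r w) = ∑ y, ((cnt y l : ℂ) * cnt y r) * (star (w y) * w y) := by
  unfold herm
  refine Finset.sum_congr rfl fun y _ => ?_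
  rw [E_self3, E_self3, star_mul', star_natCast]
  ring

/-- The integer `sg`. -/
def sgi (k : B → Blk) (b : B) : ℤ := if Even (k b).wt then 1 else -1

lemma sgi_cast (b : B) : ((sgi k b : ℤ) : ℂ) = sg k b := by
  unfold sgi sg
  split_ifs <;> simp

/-- The bracket of the Casimir identity. -/
def brk (b : B) (y : ι → Ind k) : ℤ :=
  (∑ i : Fin (k b).dim, (cnt y (⟨b, i⟩ : Ind k) : ℤ) * cnt y (⟨b, i.rev⟩ : Ind k)) +
    sgi k b * (∑ i : Fin (k b).dim, if i < i.rev then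
      (cnt y (⟨b, i⟩ : Ind k) : ℤ) - cnt y (⟨b, i.rev⟩ : Ind k) else 0) -
    sgi k b * ∑ i : Fin (k b).dim, (cnt y (⟨b, i⟩ : Ind k) : ℤ)

lemma brk_nonneg (hk : ∀ b, (k b).Ok) {w : Ten ι (Ind k)} (h : IsHW w) (b : B) (y : ι → Ind k)
    (hy : w y ≠ 0) : 0 ≤ brk b y := by
  refine bracket (fun i : Fin (k b).dim => (cnt y (⟨b, i⟩ : Ind k) : ℤ))
    (fun i => Int.natCast_nonneg _) (sgi k b) ?_
  by_cases hw : Even (k b).wt
  · left
    refine ⟨by simp [sgi, hw], fun i hi => ?_⟩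
    have h1 := h.dom y hy (⟨b, i⟩ : Ind k) hw hi
    exact_mod_cast h1
  · right
    exact ⟨by simp [sgi, hw], (hk b).even (Nat.not_even_iff_odd.1 hw)⟩

/-- The raising relations. -/
lemma raise3 {w : Ten ι (Ind k)} (h : IsHW w) (b : B) {i j : Fin (k b).dim} (hij : i < j) :
    E (⟨b, i⟩ : Ind k) ⟨b, j⟩ w =
      (eps (⟨b, i⟩ : Ind k) * eps (⟨b, j⟩ : Ind k)) • E (⟨b, j.rev⟩ : Ind k) ⟨b, i.rev⟩ w := by
  have h1 := h.raise (⟨b, i⟩ : Ind k) ⟨b, j⟩ rfl hij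
  rw [der_rais, sub_eq_zero] at h1
  exact h1

lemma raise3' {w : Ten ι (Ind k)} (h : IsHW w) (b : B) {i j : Fin (k b).dim} (hij : i < j) :
    E (⟨b, j.rev⟩ : Ind k) ⟨b, i.rev⟩ w =
      (eps (⟨b, i⟩ : Ind k) * eps (⟨b, j⟩ : Ind k)) • E (⟨b, i⟩ : Ind k) ⟨b, j⟩ w := by
  rw [raise3 h b hij, smul_smul]
  have e1 := eps_sq (⟨b, i⟩ : Ind k)
  have e2 := eps_sq (⟨b, j⟩ : Ind k)
  have e : eps (⟨b, i⟩ : Ind k) * eps (⟨b, j⟩ : Ind k) *
      (eps (⟨b, i⟩ : Ind k) * eps (⟨b, j⟩ : Ind k)) = 1 := by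
    calc _ = (eps (⟨b, i⟩ : Ind k) * eps (⟨b, i⟩ : Ind k)) *
        (eps (⟨b, j⟩ : Ind k) * eps (⟨b, j⟩ : Ind k)) := by ring
      _ = 1 := by rw [e1, e2, one_mul]
  rw [e, one_smul]

/-- The terms with `j < i`. -/
lemma term_lt3 {w : Ten ι (Ind k)} (h : IsHW w) (b : B) {i j : Fin (k b).dim} (hij : j < i) :
    eps (⟨b, i⟩ : Ind k) * eps (⟨b, j⟩ : Ind k) *
      herm (E (⟨b, j⟩ : Ind k) ⟨b, i⟩ w) (E (⟨b, i.rev⟩ : Ind k) ⟨b, j.rev⟩ w) =
      (nrm3 (E (⟨b, j⟩ : Ind k) ⟨b, i⟩ w) : ℂ) := by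
  rw [raise3' h b hij, herm_smul_right3, herm_self3]
  have e1 := eps_sq (⟨b, i⟩ : Ind k)
  have e2 := eps_sq (⟨b, j⟩ : Ind k)
  linear_combination
    (eps (⟨b, j⟩ : Ind k) * eps (⟨b, j⟩ : Ind k) * (nrm3 (E (⟨b, j⟩ : Ind k) ⟨b, i⟩ w) : ℂ)) * e1 +
      (nrm3 (E (⟨b, j⟩ : Ind k) ⟨b, i⟩ w) : ℂ) * e2

/-- The terms with `i < j`. -/
lemma term_gt3 (hk : ∀ b, (k b).Ok) {w : Ten ι (Ind k)} (h : IsHW w) (b : B)
    {i j : Fin (k b).dim} (hij : i < j) :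
    eps (⟨b, i⟩ : Ind k) * eps (⟨b, j⟩ : Ind k) *
      herm (E (⟨b, j⟩ : Ind k) ⟨b, i⟩ w) (E (⟨b, i.rev⟩ : Ind k) ⟨b, j.rev⟩ w) =
      (nrm3 (E (⟨b, i⟩ : Ind k) ⟨b, j⟩ w) : ℂ) +
        if j = i.rev then sg k b * ∑ y, ((cnt y (⟨b, i⟩ : Ind k) : ℂ) -
          cnt y (⟨b, i.rev⟩ : Ind k)) * (star (w y) * w y) else 0 := by
  have hrev : j.rev < i.rev := Fin.rev_lt_rev.2 hij
  have e1 := eps_sq (⟨b, i⟩ : Ind k)
  have e2 := eps_sq (⟨b, j⟩ : Ind k)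
  have hstar : star (eps (⟨b, i⟩ : Ind k) * eps (⟨b, j⟩ : Ind k)) =
      eps (⟨b, i⟩ : Ind k) * eps (⟨b, j⟩ : Ind k) := by
    rw [star_mul', star_eps, star_eps]
  -- the first part
  have hA : herm w (E (⟨b, i.rev⟩ : Ind k) ⟨b, j.rev⟩ (E (⟨b, i⟩ : Ind k) ⟨b, j⟩ w)) =
      eps (⟨b, i⟩ : Ind k) * eps (⟨b, j⟩ : Ind k) * (nrm3 (E (⟨b, i⟩ : Ind k) ⟨b, j⟩ w) : ℂ) := by
    rw [← herm_E, raise3' h b hij, herm_smul_left3, hstar, herm_self3]
  have hcomm := E_comm (⟨b, i⟩ : Ind k) ⟨b, j⟩ ⟨b, i.rev⟩ ⟨b, j.rev⟩ w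
  rw [herm_E, hcomm]
  by_cases hj : j = i.rev
  · subst hj
    have hrr : i.rev.rev = i := Fin.rev_rev i
    rw [if_pos rfl, if_pos rfl, if_pos (by rw [hrr])]
    rw [herm_sub_right3, herm_add_right3, hA]
    have hee : eps (⟨b, i⟩ : Ind k) * eps (⟨b, i.rev⟩ : Ind k) = sg k b := by
      have h1 := eps_op hk (⟨b, i⟩ : Ind k)
      change eps (⟨b, i.rev⟩ : Ind k) = sg k b * eps (⟨b, i⟩ : Ind k) at h1
      rw [h1]
      linear_combination (sg k b) * e1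
    have h2 : herm w (E (⟨b, i⟩ : Ind k) ⟨b, i.rev.rev⟩ w) =
        ∑ y, (cnt y (⟨b, i⟩ : Ind k) : ℂ) * (star (w y) * w y) := by
      rw [hrr]
      exact herm_E_self3 _ w
    have h3 : herm w (E (⟨b, i.rev⟩ : Ind k) ⟨b, i.rev⟩ w) =
        ∑ y, (cnt y (⟨b, i.rev⟩ : Ind k) : ℂ) * (star (w y) * w y) := herm_E_self3 _ w
    rw [h2, h3]
    have h4 : ∑ y, ((cnt y (⟨b, i⟩ : Ind k) : ℂ) - cnt y (⟨b, i.rev⟩ : Ind k)) *
        (star (w y) * w y) = ∑ y, (cnt y (⟨b, i⟩ : Ind k) : ℂ) * (star (w y) * w y) -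
          ∑ y, (cnt y (⟨b, i.rev⟩ : Ind k) : ℂ) * (star (w y) * w y) := by
      rw [← Finset.sum_sub_distrib]
      exact Finset.sum_congr rfl fun y _ => by ring
    rw [h4, ← hee]
    linear_combination (eps (⟨b, i.rev⟩ : Ind k) * eps (⟨b, i.rev⟩ : Ind k) *
      (nrm3 (E (⟨b, i⟩ : Ind k) ⟨b, i.rev⟩ w) : ℂ)) * e1 +
        (nrm3 (E (⟨b, i⟩ : Ind k) ⟨b, i.rev⟩ w) : ℂ) * e2
  · have hj1 : ¬ ((⟨b, j⟩ : Ind k) = ⟨b, i.rev⟩) := by
      intro h1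
      apply hj
      simpa using h1
    have hj2 : ¬ ((⟨b, j.rev⟩ : Ind k) = ⟨b, i⟩) := by
      intro h1
      apply hj
      have h2 : j.rev = i := by simpa using h1
      rw [← h2, Fin.rev_rev]
    rw [if_neg hj1, if_neg hj2, if_neg hj, add_zero, sub_zero, add_zero, hA]
    linear_combination (eps (⟨b, j⟩ : Ind k) * eps (⟨b, j⟩ : Ind k) *
      (nrm3 (E (⟨b, i⟩ : Ind k) ⟨b, j⟩ w) : ℂ)) * e1 +
        (nrm3 (E (⟨b, i⟩ : Ind k) ⟨b, j⟩ w) : ℂ) * e2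

/-- The diagonal terms. -/
lemma term_eq3 {w : Ten ι (Ind k)} (b : B) (i : Fin (k b).dim) :
    eps (⟨b, i⟩ : Ind k) * eps (⟨b, i⟩ : Ind k) *
      herm (E (⟨b, i⟩ : Ind k) ⟨b, i⟩ w) (E (⟨b, i.rev⟩ : Ind k) ⟨b, i.rev⟩ w) =
      ∑ y, ((cnt y (⟨b, i⟩ : Ind k) : ℂ) * cnt y (⟨b, i.rev⟩ : Ind k)) * (star (w y) * w y) := by
  rw [eps_sq, one_mul]
  exact herm_E_E3 _ _ w

/-- The Casimir identity. -/
lemma casimir3 (hk : ∀ b, (k b).Ok) {w : Ten ι (Ind k)} (h : IsHW w) (b : B) :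
    2 * (∑ i : Fin (k b).dim, ∑ j : Fin (k b).dim,
      if i < j then nrm3 (E (⟨b, i⟩ : Ind k) ⟨b, j⟩ w) else 0) +
      ∑ y, ((brk b y : ℤ) : ℝ) * ‖w y‖ ^ 2 = 0 := by
  have h1 := trace_id hk b w (fun p q hpq => h.traceless b p q hpq)
  -- the terms
  have h2 : ∀ i j : Fin (k b).dim, eps (⟨b, i⟩ : Ind k) * eps (⟨b, j⟩ : Ind k) *
      herm (E (⟨b, j⟩ : Ind k) ⟨b, i⟩ w) (E (⟨b, i.rev⟩ : Ind k) ⟨b, j.rev⟩ w) =
      (if j = i then ∑ y, ((cnt y (⟨b, i⟩ : Ind k) : ℂ) * cnt y (⟨b, i.rev⟩ : Ind k)) *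
        (star (w y) * w y) else 0) +
      (if j < i then (nrm3 (E (⟨b, j⟩ : Ind k) ⟨b, i⟩ w) : ℂ) else 0) +
      (if i < j then (nrm3 (E (⟨b, i⟩ : Ind k) ⟨b, j⟩ w) : ℂ) else 0) +
      (if j = i.rev then (if i < i.rev then sg k b * ∑ y, ((cnt y (⟨b, i⟩ : Ind k) : ℂ) -
          cnt y (⟨b, i.rev⟩ : Ind k)) * (star (w y) * w y) else 0) else 0) := by
    intro i j
    rcases lt_trichotomy i j with hij | hij | hij
    · rw [term_gt3 hk h b hij, if_neg hij.ne', if_neg (not_lt.2 hij.le), if_pos hij, zero_add,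
        zero_add]
      congr 1
      by_cases hj : j = i.rev
      · rw [if_pos hj, if_pos hj, if_pos (by rw [← hj]; exact hij)]
      · rw [if_neg hj, if_neg hj]
    · subst hij
      rw [term_eq3, if_pos rfl, if_neg (lt_irrefl _), add_zero, add_zero]
      by_cases hj : i = i.rev
      · rw [if_pos hj, if_neg (by rw [← hj]; exact lt_irrefl _), add_zero]
      · rw [if_neg hj, add_zero]
    · rw [term_lt3 h b hij, if_neg hij.ne, if_pos hij, if_neg (not_lt.2 hij.le), zero_add,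
        add_zero]
      by_cases hj : j = i.rev
      · rw [if_pos hj, if_neg (by rw [← hj]; exact not_lt.2 hij.le), add_zero]
      · rw [if_neg hj, add_zero]
  simp only [h2, Finset.sum_add_distrib, Finset.sum_ite_eq', Finset.mem_univ, if_true] at h1
  -- the sums over `j < i`
  have h3 : ∑ i : Fin (k b).dim, ∑ j : Fin (k b).dim,
      (if j < i then (nrm3 (E (⟨b, j⟩ : Ind k) ⟨b, i⟩ w) : ℂ) else 0) =
      ∑ i : Fin (k b).dim, ∑ j : Fin (k b).dim,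
      (if i < j then (nrm3 (E (⟨b, i⟩ : Ind k) ⟨b, j⟩ w) : ℂ) else 0) := Finset.sum_comm
  rw [h3] at h1
  -- the bracket
  have h4 : ∑ y, ((brk b y : ℤ) : ℂ) * (star (w y) * w y) =
      (∑ i : Fin (k b).dim, ∑ y, ((cnt y (⟨b, i⟩ : Ind k) : ℂ) * cnt y (⟨b, i.rev⟩ : Ind k)) *
        (star (w y) * w y)) +
      (∑ i : Fin (k b).dim, if i < i.rev then sg k b * ∑ y, ((cnt y (⟨b, i⟩ : Ind k) : ℂ) -
          cnt y (⟨b, i.rev⟩ : Ind k)) * (star (w y) * w y) else 0) -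
      sg k b * ∑ y, (∑ i : Fin (k b).dim, (cnt y (⟨b, i⟩ : Ind k) : ℂ)) *
        (star (w y) * w y) := by
    have h5 : (∑ i : Fin (k b).dim, if i < i.rev then sg k b * ∑ y,
        ((cnt y (⟨b, i⟩ : Ind k) : ℂ) - cnt y (⟨b, i.rev⟩ : Ind k)) * (star (w y) * w y)
          else 0) = ∑ y, sg k b * (∑ i : Fin (k b).dim, if i < i.rev then
            ((cnt y (⟨b, i⟩ : Ind k) : ℂ) - cnt y (⟨b, i.rev⟩ : Ind k)) else 0) *
              (star (w y) * w y) := by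
      simp only [Finset.mul_sum, Finset.sum_mul]
      rw [Finset.sum_comm]
      refine Finset.sum_congr rfl fun i _ => ?_
      by_cases hi : i < i.rev
      · simp only [hi, if_true]
        exact Finset.sum_congr rfl fun y _ => by ring
      · simp [hi]
    rw [h5, Finset.sum_comm, Finset.mul_sum, ← Finset.sum_add_distrib, ← Finset.sum_sub_distrib]
    refine Finset.sum_congr rfl fun y _ => ?_
    rw [← Finset.sum_mul]
    have h6 : ((brk b y : ℤ) : ℂ) =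
        (∑ i : Fin (k b).dim, (cnt y (⟨b, i⟩ : Ind k) : ℂ) * cnt y (⟨b, i.rev⟩ : Ind k)) +
        sg k b * (∑ i : Fin (k b).dim, if i < i.rev then
            ((cnt y (⟨b, i⟩ : Ind k) : ℂ) - cnt y (⟨b, i.rev⟩ : Ind k)) else 0) -
        sg k b * ∑ i : Fin (k b).dim, (cnt y (⟨b, i⟩ : Ind k) : ℂ) := by
      unfold brk
      push_cast
      rw [sgi_cast]
    rw [h6]
    ring
  have h7 : ∑ y, ((brk b y : ℤ) : ℂ) * (star (w y) * w y) =
      ((∑ y, ((brk b y : ℤ) : ℝ) * ‖w y‖ ^ 2 : ℝ) : ℂ) := by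
    rw [Complex.ofReal_sum]
    refine Finset.sum_congr rfl fun y _ => ?_
    rw [star_mul_self3]
    push_cast
    rfl
  have h8 : ((2 * (∑ i : Fin (k b).dim, ∑ j : Fin (k b).dim,
      if i < j then nrm3 (E (⟨b, i⟩ : Ind k) ⟨b, j⟩ w) else 0) +
      ∑ y, ((brk b y : ℤ) : ℝ) * ‖w y‖ ^ 2 : ℝ) : ℂ) = 0 := by
    rw [Complex.ofReal_add, ← h7, h4]
    have h9 : ((2 * (∑ i : Fin (k b).dim, ∑ j : Fin (k b).dim,
        if i < j then nrm3 (E (⟨b, i⟩ : Ind k) ⟨b, j⟩ w) else 0) : ℝ) : ℂ) =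
        2 * ∑ i : Fin (k b).dim, ∑ j : Fin (k b).dim,
        (if i < j then (nrm3 (E (⟨b, i⟩ : Ind k) ⟨b, j⟩ w) : ℂ) else 0) := by
      rw [Complex.ofReal_mul, Complex.ofReal_ofNat, Complex.ofReal_sum]
      congr 1
      refine Finset.sum_congr rfl fun i _ => ?_
      rw [Complex.ofReal_sum]
      refine Finset.sum_congr rfl fun j _ => ?_
      split_ifs
      · rfl
      · exact Complex.ofReal_zero
    rw [h9]
    linear_combination h1
  exact_mod_cast h8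

theorem isTop_of_isHW (hk : ∀ b, (k b).Ok) {w : Ten ι (Ind k)} (h : IsHW w) : IsTop w := by
  have key : ∀ (b : B) (i j : Fin (k b).dim), i < j → E (⟨b, i⟩ : Ind k) ⟨b, j⟩ w = 0 := by
    intro b i j hij
    have h1 := casimir3 hk h b
    have h2 : ∀ y, 0 ≤ ((brk b y : ℤ) : ℝ) * ‖w y‖ ^ 2 := by
      intro y
      by_cases hy : w y = 0
      · rw [hy, norm_zero]
        simp
      · exact mul_nonneg (by exact_mod_cast brk_nonneg hk h b y hy) (by positivity)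
    have h3 : 0 ≤ ∑ y, ((brk b y : ℤ) : ℝ) * ‖w y‖ ^ 2 := Finset.sum_nonneg fun y _ => h2 y
    have h4 : ∀ i j : Fin (k b).dim,
        0 ≤ if i < j then nrm3 (E (⟨b, i⟩ : Ind k) ⟨b, j⟩ w) else 0 := by
      intro i j
      split_ifs
      · exact nrm3_nonneg _
      · exact le_refl _
    have h5 : ∀ i : Fin (k b).dim, 0 ≤ ∑ j : Fin (k b).dim,
        if i < j then nrm3 (E (⟨b, i⟩ : Ind k) ⟨b, j⟩ w) else 0 :=
      fun i => Finset.sum_nonneg fun j _ => h4 i j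
    have h6 : (if i < j then nrm3 (E (⟨b, i⟩ : Ind k) ⟨b, j⟩ w) else 0) ≤
        ∑ i : Fin (k b).dim, ∑ j : Fin (k b).dim,
          if i < j then nrm3 (E (⟨b, i⟩ : Ind k) ⟨b, j⟩ w) else 0 :=
      (Finset.single_le_sum (fun j _ => h4 i j) (Finset.mem_univ j)).trans
        (Finset.single_le_sum (f := fun i => ∑ j : Fin (k b).dim,
          if i < j then nrm3 (E (⟨b, i⟩ : Ind k) ⟨b, j⟩ w) else 0)
          (fun i _ => h5 i) (Finset.mem_univ i))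
    rw [if_pos hij] at h6
    have h7 : nrm3 (E (⟨b, i⟩ : Ind k) ⟨b, j⟩ w) = 0 :=
      le_antisymm (by linarith) (nrm3_nonneg _)
    apply herm_self_eq_zero
    rw [herm_self3, h7, Complex.ofReal_zero]
  rintro ⟨b, i⟩ ⟨b', j⟩ hb hlt
  obtain rfl : b = b' := hb
  exact key b i j hlt

end Pool.Agent.Helper48.SP
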