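import Pool.Agent.Helper48.SP.Capelli
import Pool.Agent.Helper48.SP.Top

/-!
# SP-Q0: the contraction with a column

`plug f s z` is the word with the letters `s i` at the positions `f i` (`f` injective) and `z`
elsewhere; `col f s v` is the contraction of `v` with the determinant of the letters `s i` at the
positions `f i`.
-/

set_option autoImplicit false

namespace Pool.Agent.Helper48.SP

open Pool.Agent.Helper48.GC8 Function

variable {ι : Type} [Fintype ι] [DecidableEq ι] {L : Type} [Fintype L] [DecidableEq L]

noncomputable def plug {n : ℕ} (f : Fin n → ι) (s : Fin n → L)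
    (z : {p : ι // p ∉ Set.range f} → L) : ι → L := fun p =>
  if h : p ∈ Set.range f then s (Classical.choose h) else z ⟨p, h⟩

lemma plug_apply {n : ℕ} {f : Fin n → ι} (hf : Injective f) (s : Fin n → L)
    (z : {p : ι // p ∉ Set.range f} → L) (i : Fin n) : plug f s z (f i) = s i := by
  have h : f i ∈ Set.range f := ⟨i, rfl⟩
  unfold plug
  rw [dif_pos h]
  exact congrArg s (hf (Classical.choose_spec h))

lemma plug_not {n : ℕ} (f : Fin n → ι) (s : Fin n → L) (z : {p : ι // p ∉ Set.range f} → L)
    (p : {p : ι // p ∉ Set.range f}) : plug f s z p = z p := by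
  unfold plug
  rw [dif_neg p.2]

noncomputable def col {n : ℕ} (f : Fin n → ι) (s : Fin n → L) (v : Ten ι L) :
    Ten {p : ι // p ∉ Set.range f} L := fun z =>
  ∑ σ : Equiv.Perm (Fin n), ((Equiv.Perm.sign σ : ℤ) : ℂ) * v (plug f (fun i => s (σ i)) z)

end Pool.Agent.Helper48.SP
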