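import Pool.Agent.Helper48.SP.Col

/-!
# SP-Q2: some column contraction is nonzero

By `capelli` there is `y` with `∑ f, (hit y f s).det * v (extend f s y) ≠ 0` (`c * v y ≠ 0`, choose
`y` with `v y ≠ 0`). If all `col f s v` with `f` injective vanish, this sum is zero: it runs over the
injective `f` (`det = 0` otherwise: two equal rows); replacing `f` by `f ∘ σ` for all `σ` and
averaging over `σ ∈ Perm (Fin n)`, `(hit y (f ∘ σ) s).det = sign σ * (hit y f s).det`
(`Matrix.det_permute`) and `extend (f ∘ σ) s y = plug f (s ∘ σ⁻¹) (y restricted)`.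
-/

set_option autoImplicit false

namespace Pool.Agent.Helper48.SP

open Pool.Agent.Helper48.GC8 Function

variable {ι : Type} [Fintype ι] [DecidableEq ι] {L : Type} [Fintype L] [DecidableEq L]

theorem exists_col (rk : L → ℕ) {v : Ten ι L} {α : L → ℕ} (hv : v ≠ 0)
    (hα : ∀ y, v y ≠ 0 → ∀ l, (Finset.univ.filter fun p => y p = l).card = α l) {n : ℕ}
    (s : Fin n → L) (hs : Injective s) (hrk : Injective fun i => rk (s i))
    (hE : ∀ i j, rk (s i) < rk (s j) → E (s i) (s j) v = 0) (hpos : ∀ i, 1 ≤ α (s i)) :
    ∃ f : Fin n → ι, Injective f ∧ col f s v ≠ 0 := by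
  obtain ⟨c, hc, hcap⟩ := capelli rk hα n s hs hrk hE
  obtain ⟨y, hy⟩ : ∃ y, v y ≠ 0 := by
    by_contra hcon
    push Not at hcon
    exact hv (funext hcon)
  by_contra hcon
  push Not at hcon
  have hpc : (c : ℂ) ≠ 0 := Nat.cast_ne_zero.2 (hc hpos).ne'
  set T := ∑ f : Fin n → ι, (hit y f s).det * v (extend f s y) with hT
  have hTne : T ≠ 0 := by
    rw [hT, hcap y]
    exact mul_ne_zero hpc hy
  -- reindexing
  have h1 : ∀ σ : Equiv.Perm (Fin n), T =
      ∑ f : Fin n → ι, (hit y (f ∘ σ) s).det * v (extend (f ∘ σ) s y) := by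
    intro σ
    exact (Fintype.sum_equiv (Equiv.arrowCongr σ.symm (Equiv.refl ι)) _ _ (fun f => rfl)).symm
  have hdet : ∀ (σ : Equiv.Perm (Fin n)) (f : Fin n → ι), (hit y (f ∘ σ) s).det =
      ((Equiv.Perm.sign σ : ℤ) : ℂ) * (hit y f s).det := by
    intro σ f
    rw [← Matrix.det_permute]
    rfl
  have hext : ∀ (σ : Equiv.Perm (Fin n)) (f : Fin n → ι), Injective f →
      extend (f ∘ σ) s y = plug f (fun i => s (σ⁻¹ i)) (fun p => y p) := by
    intro σ f hf
    funext p
    by_cases hp : p ∈ Set.range f
    · obtain ⟨i, rfl⟩ := hp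
      rw [plug_apply hf]
      have hfσ : Injective (f ∘ σ) := hf.comp σ.injective
      have h2 := hfσ.extend_apply s y (σ⁻¹ i)
      have h3 : (f ∘ σ) (σ⁻¹ i) = f i := congrArg f (σ.apply_symm_apply i)
      rw [h3] at h2
      exact h2
    · have h2 := plug_not f (fun i => s (σ⁻¹ i)) (fun p => y p) ⟨p, hp⟩
      refine Eq.trans ?_ h2.symm
      apply extend_apply'
      rintro ⟨i, hi⟩
      exact hp ⟨σ i, hi⟩
  have h2 : ∑ _σ : Equiv.Perm (Fin n), T = 0 := by
    calc ∑ _σ : Equiv.Perm (Fin n), T
        = ∑ σ : Equiv.Perm (Fin n), ∑ f : Fin n → ι,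
            (hit y (f ∘ σ) s).det * v (extend (f ∘ σ) s y) :=
          Finset.sum_congr rfl (fun σ _ => h1 σ)
      _ = ∑ f : Fin n → ι, ∑ σ : Equiv.Perm (Fin n),
            (hit y (f ∘ σ) s).det * v (extend (f ∘ σ) s y) := Finset.sum_comm
      _ = 0 := by
          refine Finset.sum_eq_zero (fun f _ => ?_)
          by_cases hf : Injective f
          · have h3 := congrFun (hcon f hf) (fun p => y p)
            have h4 : ∑ σ : Equiv.Perm (Fin n),
                (hit y (f ∘ σ) s).det * v (extend (f ∘ σ) s y) =
                (hit y f s).det * col f s v (fun p => y p) := by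
              unfold col
              rw [Finset.mul_sum]
              refine Fintype.sum_equiv (Equiv.inv (Equiv.Perm (Fin n))) _ _ (fun σ => ?_)
              rw [hdet, hext σ f hf]
              show _ = (hit y f s).det * (((Equiv.Perm.sign σ⁻¹ : ℤ) : ℂ) *
                v (plug f (fun i => s (σ⁻¹ i)) (fun p => y p)))
              rw [Equiv.Perm.sign_inv]
              ring
            rw [h4, h3]
            simp
          · refine Finset.sum_eq_zero (fun σ _ => ?_)
            have h5 : (hit y (f ∘ σ) s).det = 0 := by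
              rw [hdet]
              obtain ⟨i, j, hij, hne⟩ : ∃ i j, f i = f j ∧ i ≠ j := by
                unfold Injective at hf
                push Not at hf
                exact hf
              have : (hit y f s).det = 0 := by
                apply Matrix.det_zero_of_row_eq hne
                funext a
                show (if y (f i) = s a then (1 : ℂ) else 0) = if y (f j) = s a then 1 else 0
                rw [hij]
              rw [this, mul_zero]
            rw [h5, zero_mul]
  rw [Finset.sum_const, Finset.card_univ, Fintype.card_perm, Fintype.card_fin, nsmul_eq_mul] at h2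
  rcases mul_eq_zero.1 h2 with h3 | h3
  · exact (Nat.factorial_ne_zero n) (by exact_mod_cast h3)
  · exact hTne h3

end Pool.Agent.Helper48.SP
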