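import Pool.Agent.Helper48.SP.Col

/-!
# SP-Q3a: the letter counts of the column contraction

A word `z` of `col f s v` gives a word `plug f (s ∘ σ) z` of `v`, in which every `s i` occurs once
more (`plug_apply`, `plug_not`).
-/

set_option autoImplicit false

namespace Pool.Agent.Helper48.SP

open Pool.Agent.Helper48.GC8 Function

variable {ι : Type} [Fintype ι] [DecidableEq ι] {L : Type} [Fintype L] [DecidableEq L]

open Classical in
lemma col_count {v : Ten ι L} {α : L → ℕ}
    (hα : ∀ y, v y ≠ 0 → ∀ l, (Finset.univ.filter fun p => y p = l).card = α l) {n : ℕ}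
    {f : Fin n → ι} (hf : Injective f) {s : Fin n → L} (hs : Injective s)
    (z : {p : ι // p ∉ Set.range f} → L) (hz : col f s v z ≠ 0) (l : L) :
    (Finset.univ.filter fun p => z p = l).card + (if l ∈ Set.range s then 1 else 0) = α l := by
  unfold col at hz
  obtain ⟨σ, -, hσ⟩ := Finset.exists_ne_zero_of_sum_ne_zero hz
  have h1 : v (plug f (fun i => s (σ i)) z) ≠ 0 := right_ne_zero_of_mul hσ
  set y := plug f (fun i => s (σ i)) z with hy
  rw [← hα y h1 l]
  have hyf : ∀ i, y (f i) = s (σ i) := fun i => plug_apply hf _ z i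
  have hyn : ∀ p : {p : ι // p ∉ Set.range f}, y p = z p := fun p => plug_not f _ z p
  have h2 : (Finset.univ.filter fun p => y p = l) =
      (Finset.univ.filter fun p => z p = l).map ⟨Subtype.val, Subtype.val_injective⟩ ∪
        (Finset.univ.filter fun i => s (σ i) = l).map ⟨f, hf⟩ := by
    ext p
    simp only [Finset.mem_filter, Finset.mem_univ, true_and, Finset.mem_union, Finset.mem_map,
      Function.Embedding.coeFn_mk]
    constructor
    · intro hp
      by_cases hr : p ∈ Set.range f
      · obtain ⟨i, rfl⟩ := hr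
        exact Or.inr ⟨i, by rw [← hyf]; exact hp, rfl⟩
      · exact Or.inl ⟨⟨p, hr⟩, by rw [← hyn]; exact hp, rfl⟩
    · rintro (⟨q, hq, rfl⟩ | ⟨i, hi, rfl⟩)
      · rw [hyn]; exact hq
      · rw [hyf]; exact hi
  have h3 : Disjoint ((Finset.univ.filter fun p => z p = l).map
      ⟨Subtype.val, Subtype.val_injective⟩)
      ((Finset.univ.filter fun i => s (σ i) = l).map ⟨f, hf⟩) := by
    rw [Finset.disjoint_left]
    intro p hp hp'
    obtain ⟨q, -, rfl⟩ := Finset.mem_map.1 hp
    obtain ⟨i, -, hi⟩ := Finset.mem_map.1 hp'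
    exact q.2 ⟨i, hi⟩
  rw [h2, Finset.card_union_of_disjoint h3, Finset.card_map, Finset.card_map]
  congr 1
  split_ifs with h
  · obtain ⟨j, rfl⟩ := h
    symm
    rw [Finset.card_eq_one]
    refine ⟨σ.symm j, ?_⟩
    ext i
    simp only [Finset.mem_filter, Finset.mem_univ, true_and, Finset.mem_singleton]
    constructor
    · intro hi
      rw [← hs hi, Equiv.symm_apply_apply]
    · rintro rfl
      rw [Equiv.apply_symm_apply]
  · symm
    rw [Finset.card_eq_zero, Finset.filter_eq_empty_iff]
    intro i _ hi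
    exact h ⟨σ i, hi⟩

end Pool.Agent.Helper48.SP
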