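import Pool.Agent.Helper48.SP.Col

/-!
# SP-Q3b: the column contraction of a highest weight vector

At a word `z`, `0 = ∑ σ, sign σ * (E l r v) (plug f (s ∘ σ) z)` is `E l r (col f s v) z` plus the
terms for the positions `f i` with `s (σ i) = l`, which are
`∑ σ, sign σ * v (update (plug f (s ∘ σ) z) (f i) r)`: no such terms if `l ∉ range s`; zero if `r`
does not occur in `v`; if `r = s j0`, `l = s i0`, then for each `σ` there is one position
`i = σ⁻¹ i0`, and the involution `σ ↦ swap i0 j0 * σ` changes the sign and preserves the word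
`update (plug f (s ∘ σ) z) (f i) r` (it has the letter `r` at the two positions `f (σ⁻¹ i0)` and
`f (σ⁻¹ j0)`) (`Finset.sum_involution`, or the sum equals its negative).
-/

set_option autoImplicit false

namespace Pool.Agent.Helper48.SP

open Pool.Agent.Helper48.GC8 Function

variable {ι : Type} [Fintype ι] [DecidableEq ι] {L : Type} [Fintype L] [DecidableEq L]

private lemma sum_split40 {n : ℕ} {f : Fin n → ι} (hf : Injective f) (F : ι → ℂ) :
    ∑ q, F q = ∑ q : {p : ι // p ∉ Set.range f}, F q + ∑ i, F (f i) := by
  classical
  rw [← Finset.sum_filter_add_sum_filter_not Finset.univ (fun q => q ∈ Set.range f), add_comm]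
  congr 1
  · exact Finset.sum_subtype _ (fun q => by simp) F
  · have h : (Finset.univ.filter fun q => q ∈ Set.range f) = Finset.univ.image f := by
      ext q
      simp
    rw [h, Finset.sum_image fun i _ j _ hij => hf hij]

private lemma plug_update40 {n : ℕ} (f : Fin n → ι) (s : Fin n → L)
    (z : {p : ι // p ∉ Set.range f} → L) (p : {p : ι // p ∉ Set.range f}) (r : L) :
    plug f s (update z p r) = update (plug f s z) p r := by
  funext q
  by_cases h : q = p
  · subst h
    rw [update_self, plug_not, update_self]
  · rw [update_of_ne h]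
    by_cases hq : q ∈ Set.range f
    · unfold plug
      rw [dif_pos hq, dif_pos hq]
    · have h1 := plug_not f s (update z p r) ⟨q, hq⟩
      have h2 := plug_not f s z ⟨q, hq⟩
      change plug f s (update z p r) q = _ at h1
      change plug f s z q = _ at h2
      rw [h1, h2, update_of_ne]
      intro h3
      exact h (congrArg Subtype.val h3)

private lemma plug_eq40 {n : ℕ} {f : Fin n → ι} (hf : Injective f) {s s' : Fin n → L}
    {z : {p : ι // p ∉ Set.range f} → L} {i j : Fin n} {r : L}
    (h : ∀ m, (if m = i then r else s m) = if m = j then r else s' m) :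
    update (plug f s z) (f i) r = update (plug f s' z) (f j) r := by
  funext q
  by_cases hq : q ∈ Set.range f
  · obtain ⟨m, rfl⟩ := hq
    have h1 := h m
    by_cases hi : m = i
    · subst hi
      rw [if_pos rfl] at h1
      rw [update_self]
      by_cases hj : m = j
      · subst hj
        rw [update_self]
      · rw [if_neg hj] at h1
        rw [update_of_ne (fun h => hj (hf h)), plug_apply hf, h1]
    · rw [if_neg hi] at h1
      rw [update_of_ne (fun h => hi (hf h)), plug_apply hf, h1]
      by_cases hj : m = j
      · subst hj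
        rw [if_pos rfl, update_self]
      · rw [if_neg hj, update_of_ne (fun h => hj (hf h)), plug_apply hf]
  · rw [update_of_ne (by rintro rfl; exact hq ⟨i, rfl⟩),
      update_of_ne (by rintro rfl; exact hq ⟨j, rfl⟩)]
    unfold plug
    rw [dif_neg hq, dif_neg hq]

theorem col_E {v : Ten ι L} {n : ℕ} {f : Fin n → ι} (hf : Injective f) {s : Fin n → L}
    (hs : Injective s) {l r : L} (hlr : l ≠ r) (hE : E l r v = 0)
    (h : l ∉ Set.range s ∨ r ∈ Set.range s ∨ ∀ y, v y ≠ 0 → ∀ p, y p ≠ r) :
    E l r (col f s v) = 0 := by
  funext z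
  rw [E_apply]
  -- the value at the word of each permutation
  have h1 : ∀ σ : Equiv.Perm (Fin n),
      (∑ p : {p : ι // p ∉ Set.range f}, if z p = l then
        v (plug f (fun i => s (σ i)) (update z p r)) else 0) =
      -∑ i, if s (σ i) = l then v (update (plug f (fun i => s (σ i)) z) (f i) r) else 0 := by
    intro σ
    have h2 : E l r v (plug f (fun i => s (σ i)) z) = 0 := by rw [hE]; rfl
    rw [E_apply, sum_split40 hf] at h2
    rw [eq_neg_iff_add_eq_zero]
    refine Eq.trans ?_ h2
    congr 1
    · refine Finset.sum_congr rfl fun p _ => ?_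
      rw [plug_not, plug_update40]
    · refine Finset.sum_congr rfl fun i _ => ?_
      rw [plug_apply hf]
  have h3 : (∑ p : {p : ι // p ∉ Set.range f}, if z p = l then
      col f s v (update z p r) else 0) =
      -∑ σ : Equiv.Perm (Fin n), ((Equiv.Perm.sign σ : ℤ) : ℂ) *
        ∑ i, if s (σ i) = l then v (update (plug f (fun i => s (σ i)) z) (f i) r) else 0 := by
    rw [← Finset.sum_neg_distrib]
    have h4 : ∀ p : {p : ι // p ∉ Set.range f}, (if z p = l then
        col f s v (update z p r) else 0) =
        ∑ σ : Equiv.Perm (Fin n), ((Equiv.Perm.sign σ : ℤ) : ℂ) *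
          (if z p = l then v (plug f (fun i => s (σ i)) (update z p r)) else 0) := by
      intro p
      by_cases hp : z p = l
      · simp only [if_pos hp]
        rfl
      · simp only [if_neg hp, mul_zero, Finset.sum_const_zero]
    rw [Finset.sum_congr rfl fun p _ => h4 p, Finset.sum_comm]
    refine Finset.sum_congr rfl fun σ _ => ?_
    rw [← Finset.mul_sum, h1, mul_neg]
  rw [h3]
  change _ = (0 : ℂ)
  rw [neg_eq_zero]
  by_cases hl : l ∈ Set.range s
  · rcases h with h | h | h
    · exact absurd hl h
    · obtain ⟨i0, rfl⟩ := hl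
      obtain ⟨j0, rfl⟩ := h
      have hij : i0 ≠ j0 := fun h => hlr (congrArg s h)
      have h5 : ∀ σ : Equiv.Perm (Fin n), (∑ i, if s (σ i) = s i0 then
          v (update (plug f (fun i => s (σ i)) z) (f i) (s j0)) else 0) =
          v (update (plug f (fun i => s (σ i)) z) (f (σ.symm i0)) (s j0)) := by
        intro σ
        rw [Finset.sum_eq_single (σ.symm i0)]
        · rw [Equiv.apply_symm_apply, if_pos rfl]
        · intro i _ hi
          rw [if_neg]
          intro h6
          exact hi ((Equiv.eq_symm_apply σ).2 (hs h6))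
        · intro h6
          exact absurd (Finset.mem_univ _) h6
      simp only [h5]
      have h6 : ∀ σ : Equiv.Perm (Fin n),
          v (update (plug f (fun i => s ((Equiv.swap i0 j0 * σ) i)) z)
            (f ((Equiv.swap i0 j0 * σ).symm i0)) (s j0)) =
          v (update (plug f (fun i => s (σ i)) z) (f (σ.symm i0)) (s j0)) := by
        intro σ
        congr 1
        have h7 : (Equiv.swap i0 j0 * σ).symm i0 = σ.symm j0 := by
          rw [Equiv.symm_apply_eq, Equiv.Perm.mul_apply, Equiv.apply_symm_apply,
            Equiv.swap_apply_right]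
        rw [h7]
        refine plug_eq40 hf fun m => ?_
        by_cases hm : σ m = i0
        · have h8 : m = σ.symm i0 := (Equiv.eq_symm_apply σ).2 hm
          rw [if_pos h8, Equiv.Perm.mul_apply, hm, Equiv.swap_apply_left]
          exact ite_self _
        · have h8 : m ≠ σ.symm i0 := fun h => hm ((Equiv.eq_symm_apply σ).1 h)
          rw [if_neg h8]
          by_cases hm' : σ m = j0
          · have h9 : m = σ.symm j0 := (Equiv.eq_symm_apply σ).2 hm'
            rw [if_pos h9, hm']
          · have h9 : m ≠ σ.symm j0 := fun h => hm' ((Equiv.eq_symm_apply σ).1 h)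
            rw [if_neg h9, Equiv.Perm.mul_apply, Equiv.swap_apply_of_ne_of_ne hm hm']
      have h7 := Equiv.sum_comp (Equiv.mulLeft (Equiv.swap i0 j0))
        (fun σ : Equiv.Perm (Fin n) => ((Equiv.Perm.sign σ : ℤ) : ℂ) *
          v (update (plug f (fun i => s (σ i)) z) (f (σ.symm i0)) (s j0)))
      simp only [Equiv.coe_mulLeft] at h7
      have h8 : ∀ σ : Equiv.Perm (Fin n),
          ((Equiv.Perm.sign (Equiv.swap i0 j0 * σ) : ℤ) : ℂ) *
            v (update (plug f (fun i => s ((Equiv.swap i0 j0 * σ) i)) z)
              (f ((Equiv.swap i0 j0 * σ).symm i0)) (s j0)) =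
          -(((Equiv.Perm.sign σ : ℤ) : ℂ) *
            v (update (plug f (fun i => s (σ i)) z) (f (σ.symm i0)) (s j0))) := by
        intro σ
        rw [h6, Equiv.Perm.sign_mul, Equiv.Perm.sign_swap hij]
        push_cast
        ring
      rw [Finset.sum_congr rfl fun σ _ => h8 σ, Finset.sum_neg_distrib] at h7
      exact self_eq_neg.1 h7.symm
    · refine Finset.sum_eq_zero fun σ _ => ?_
      rw [Finset.sum_eq_zero, mul_zero]
      intro i _
      split_ifs
      · by_contra h6
        exact h _ h6 (f i) (update_self _ _ _)
      · rfl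
  · refine Finset.sum_eq_zero fun σ _ => ?_
    rw [Finset.sum_eq_zero, mul_zero]
    intro i _
    rw [if_neg]
    intro h6
    exact hl ⟨_, h6⟩

end Pool.Agent.Helper48.SP
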