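import Pool.Agent.Helper48.SP.Col

/-!
# SP-Q4a: the adjoint of the column contraction

The words `y` on `ι` are the pairs (word on `Fin n` via `f`, word on the rest), `y = plug f x z`;
`(hit y f s).det` is `sign σ` if `y (f i) = s (σ i)` for all `i`, and zero if there is no such `σ`
(Leibniz formula `Matrix.det_apply`; `s` is injective).
-/

set_option autoImplicit false

namespace Pool.Agent.Helper48.SP

open Pool.Agent.Helper48.GC8 Function

variable {ι : Type} [Fintype ι] [DecidableEq ι]

private lemma hc_det {L : Type} [DecidableEq L] {n : ℕ} (f : Fin n → ι) (s : Fin n → L)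
    (y : ι → L) : (hit y f s).det = ∑ σ : Equiv.Perm (Fin n), ((Equiv.Perm.sign σ : ℤ) : ℂ) *
      (if ∀ i, y (f i) = s (σ i) then 1 else 0) := by
  rw [← Matrix.det_transpose, Matrix.det_apply']
  refine Finset.sum_congr rfl fun σ _ => ?_
  congr 1
  have h1 : ∀ i, (hit y f s).transpose (σ i) i = if y (f i) = s (σ i) then (1 : ℂ) else 0 :=
    fun i => rfl
  simp only [h1]
  rw [Finset.prod_ite_zero]
  simp

private lemma hc_sum {L : Type} [Fintype L] [DecidableEq L] {n : ℕ} {f : Fin n → ι}
    (hf : Injective f) (t : Fin n → L) (T : Ten {p : ι // p ∉ Set.range f} L) (v : Ten ι L) :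
    ∑ y : ι → L, (if ∀ i, y (f i) = t i then star (T fun p => y p) * v y else 0) =
      ∑ z, star (T z) * v (plug f t z) := by
  rw [← Finset.sum_filter]
  refine Finset.sum_nbij' (fun y => fun p : {p : ι // p ∉ Set.range f} => y p)
    (fun z => plug f t z) (fun y _ => Finset.mem_univ _) ?_ ?_ ?_ ?_
  · intro z _
    exact Finset.mem_filter.2 ⟨Finset.mem_univ _, fun i => plug_apply hf t z i⟩
  · intro y hy
    have hy' := (Finset.mem_filter.1 hy).2
    funext p
    by_cases hp : p ∈ Set.range f
    · obtain ⟨i, rfl⟩ := hp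
      rw [plug_apply hf, hy' i]
    · exact plug_not f t _ ⟨p, hp⟩
  · intro z _
    funext p
    exact plug_not f t z p
  · intro y hy
    have hy' := (Finset.mem_filter.1 hy).2
    have h1 : plug f t (fun p : {p : ι // p ∉ Set.range f} => y p) = y := by
      funext p
      by_cases hp : p ∈ Set.range f
      · obtain ⟨i, rfl⟩ := hp
        rw [plug_apply hf, hy' i]
      · exact plug_not f t _ ⟨p, hp⟩
    simp only [h1]

theorem herm_col {L : Type} [Fintype L] [DecidableEq L] {n : ℕ} {f : Fin n → ι} (hf : Injective f)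
    {s : Fin n → L} (hs : Injective s) (T : Ten {p : ι // p ∉ Set.range f} L) (v : Ten ι L) :
    herm (fun y => (hit y f s).det * T (fun p => y p)) v = herm T (col f s v) := by
  unfold herm
  have h1 : ∀ y : ι → L, star ((hit y f s).det * T (fun p => y p)) * v y =
      ∑ σ : Equiv.Perm (Fin n), ((Equiv.Perm.sign σ : ℤ) : ℂ) *
        (if ∀ i, y (f i) = s (σ i) then star (T fun p => y p) * v y else 0) := by
    intro y
    rw [hc_det, star_mul', star_sum, Finset.sum_mul, Finset.sum_mul]
    refine Finset.sum_congr rfl fun σ _ => ?_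
    rw [star_mul', star_intCast]
    split_ifs
    · rw [star_one]
      ring
    · rw [star_zero]
      ring
  have h2 : ∀ z : {p : ι // p ∉ Set.range f} → L, star (T z) * col f s v z =
      ∑ σ : Equiv.Perm (Fin n), ((Equiv.Perm.sign σ : ℤ) : ℂ) *
        (star (T z) * v (plug f (fun i => s (σ i)) z)) := by
    intro z
    unfold col
    rw [Finset.mul_sum]
    refine Finset.sum_congr rfl fun σ _ => ?_
    ring
  simp only [h1, h2]
  rw [Finset.sum_comm, Finset.sum_comm (s := (Finset.univ : Finset
    ({p : ι // p ∉ Set.range f} → L)))]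
  refine Finset.sum_congr rfl fun σ _ => ?_
  rw [← Finset.mul_sum, ← Finset.mul_sum, hc_sum hf (fun i => s (σ i)) T v]

end Pool.Agent.Helper48.SP
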