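import Pool.Agent.Helper48.SP.Col

/-!
# SP-Q4b: the product with a column

`mem_D_of` with the colours `Option (Fin r)`: the range of `f` has the colour `none` and the piece
`(hit y f s).det`, which is alternating (exchange two rows) and supported on the words with letters
in the block `b` (a row is zero else); the fibre has `n` elements; its value is
`nu n = ∑ i, sl (s i)`. Span induction on `hT`.
-/

set_option autoImplicit false

namespace Pool.Agent.Helper48.SP

open Pool.Agent.Helper48.GC8 Function

variable {B : Type} {k : B → Blk} [Fintype B] [DecidableEq B] {ι : Type} [Fintype ι]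
  [DecidableEq ι]

omit [Fintype B] [DecidableEq B] in
private lemma nu_eq52 {b : B} {n : ℕ} (hn : n ≤ (k b).dim) :
    (k b).nu n = ∑ i : Fin n, sl (⟨b, Fin.castLE hn i⟩ : Ind k) := by
  unfold Blk.nu sl
  rw [← Finset.sum_filter]
  symm
  refine Finset.sum_bij (fun i _ => Fin.castLE hn i) ?_ ?_ ?_ ?_
  · intro i _
    simp only [Finset.mem_filter, Finset.mem_univ, true_and, Fin.val_castLE]
    exact i.2
  · intro i _ j _ h
    exact Fin.castLE_injective hn h
  · intro j hj
    simp only [Finset.mem_filter, Finset.mem_univ, true_and] at hj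
    exact ⟨⟨j, hj⟩, Finset.mem_univ _, Fin.ext rfl⟩
  · intro i _
    rfl


omit [Fintype B] in
private lemma det_alt52 {S : Type} [DecidableEq S] {b : B} {n : ℕ} (hn : n ≤ (k b).dim)
    (g : Fin n ≃ S) : IsAlt b (fun z : S → Ind k =>
      (Matrix.of fun i j : Fin n => if z (g i) = (⟨b, Fin.castLE hn j⟩ : Ind k) then (1 : ℂ) else 0).det) := by
  constructor
  · intro z hz p
    by_contra hp
    apply hz
    refine Matrix.det_eq_zero_of_row_eq_zero (g.symm p) fun j => ?_
    rw [Matrix.of_apply, g.apply_symm_apply, if_neg]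
    intro h
    exact hp (by rw [h])
  · intro z p q hpq
    have h1 : (Matrix.of fun i j : Fin n =>
        if (z ∘ Equiv.swap p q) (g i) = (⟨b, Fin.castLE hn j⟩ : Ind k) then (1 : ℂ) else 0) =
        (Matrix.of fun i j : Fin n => if z (g i) = (⟨b, Fin.castLE hn j⟩ : Ind k) then (1 : ℂ)
          else 0).submatrix (Equiv.swap (g.symm p) (g.symm q)) id := by
      ext i j
      rw [Matrix.submatrix_apply, Matrix.of_apply, Matrix.of_apply, id, comp_apply]
      have h2 : Equiv.swap p q (g i) = g (Equiv.swap (g.symm p) (g.symm q) i) := by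
        have h3 := g.injective.swap_apply (g.symm p) (g.symm q) i
        rwa [g.apply_symm_apply, g.apply_symm_apply] at h3
      rw [h2]
    have h4 : g.symm p ≠ g.symm q := fun h => hpq (g.symm.injective h)
    simp only [h1]
    rw [Matrix.det_permute, Equiv.Perm.sign_swap h4]
    simp

theorem col_mem {b : B} {n : ℕ} (hn : n ≤ (k b).dim) {f : Fin n → ι} (hf : Injective f) {ν : ℕ}
    {T : Ten {p : ι // p ∉ Set.range f} (Ind k)} (hT : T ∈ D k {p : ι // p ∉ Set.range f} ν) :
    (fun y : ι → Ind k => (hit y f (fun i => (⟨b, Fin.castLE hn i⟩ : Ind k))).det *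
      T (fun p => y p)) ∈ D k ι (ν + ∑ i : Fin n, sl (⟨b, Fin.castLE hn i⟩ : Ind k)) := by
  classical
  unfold D at hT
  refine Submodule.span_induction (p := fun T _ => (fun y : ι → Ind k =>
    (hit y f (fun i => (⟨b, Fin.castLE hn i⟩ : Ind k))).det * T (fun p => y p)) ∈
      D k ι (ν + ∑ i : Fin n, sl (⟨b, Fin.castLE hn i⟩ : Ind k))) ?_ ?_ ?_ ?_ hT
  · rintro _ ⟨r, c, t, v, hp, hv, rfl⟩
    let c' : ι → Option (Fin r) := fun p => if h : p ∈ Set.range f then none else some (c ⟨p, h⟩)
    have hc1 : ∀ p, c' p = none ↔ p ∈ Set.range f := by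
      intro p
      simp only [c']
      by_cases h : p ∈ Set.range f
      · rw [dif_pos h]
        exact ⟨fun _ => h, fun _ => rfl⟩
      · rw [dif_neg h]
        exact ⟨fun h1 => by simp at h1, fun h1 => absurd h1 h⟩
    have hc2 : ∀ (p : ι) (h : p ∉ Set.range f), c' p = some (c ⟨p, h⟩) := by
      intro p h
      simp only [c']
      rw [dif_neg h]
    let g : Fin n ≃ {p // c' p = none} := Equiv.ofBijective
      (fun i => ⟨f i, (hc1 _).2 ⟨i, rfl⟩⟩) ⟨fun i j h => hf (congrArg Subtype.val h), fun p => by
        obtain ⟨i, hi⟩ := (hc1 _).1 p.2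
        exact ⟨i, Subtype.ext hi⟩⟩
    let e : ∀ a : Fin r, {p // c' p = some a} ≃ {q : {p : ι // p ∉ Set.range f} // c q = a} := fun a =>
      { toFun := fun p => ⟨⟨p.1, fun h => by
            have h1 := (hc1 p.1).2 h
            rw [p.2] at h1
            simp at h1⟩, by
            have h2 : p.1 ∉ Set.range f := fun h => by
              have h1 := (hc1 p.1).2 h
              rw [p.2] at h1
              simp at h1
            have h3 := hc2 p.1 h2
            rw [p.2] at h3
            exact (Option.some.inj h3).symm⟩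
        invFun := fun q => ⟨q.1.1, by rw [hc2 q.1.1 q.1.2, q.2]⟩
        left_inv := fun p => rfl
        right_inv := fun q => rfl }
    let t' : ∀ a : Option (Fin r), Ten {p // c' p = a} (Ind k) := fun a =>
      match a with
      | none => fun z => (Matrix.of fun i j : Fin n =>
          if z (g i) = (⟨b, Fin.castLE hn j⟩ : Ind k) then (1 : ℂ) else 0).det
      | some a => fun z => t a (z ∘ (e a).symm)
    let v' : Option (Fin r) → ℕ := fun a =>
      match a with
      | none => ∑ i : Fin n, sl (⟨b, Fin.castLE hn i⟩ : Ind k)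
      | some a => v a
    have hmem : (fun y => ∏ a, t' a (fun p => y p)) ∈
        D k ι (ν + ∑ i : Fin n, sl (⟨b, Fin.castLE hn i⟩ : Ind k)) := by
      refine mem_D_of c' t' v' ?_ ?_
      · rintro (_ | a)
        · refine Or.inl ⟨b, det_alt52 hn g, ?_⟩
          have hcard : Fintype.card {p // c' p = none} = n := by
            rw [← Fintype.card_congr g, Fintype.card_fin]
          rw [hcard, nu_eq52 hn]
        · exact (hp a).comp (e a)
      · rw [Fintype.sum_option]
        change _ ≤ ∑ i : Fin n, sl (⟨b, Fin.castLE hn i⟩ : Ind k) + ∑ a, v a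
        omega
    convert hmem using 1
    funext y
    rw [Fintype.prod_option]
    rfl
  · have h0 : (fun y : ι → Ind k => (hit y f (fun i => (⟨b, Fin.castLE hn i⟩ : Ind k))).det *
        (0 : Ten {p : ι // p ∉ Set.range f} (Ind k)) (fun p => y p)) = 0 := by
      funext y
      simp
    rw [h0]
    exact Submodule.zero_mem _
  · intro T T' _ _ h1 h2
    have h3 := Submodule.add_mem _ h1 h2
    convert h3 using 1
    funext y
    simp only [Pi.add_apply]
    ring
  · intro a T _ h1
    have h3 := Submodule.smul_mem _ a h1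
    convert h3 using 1
    funext y
    simp only [Pi.smul_apply, smul_eq_mul]
    ring

end Pool.Agent.Helper48.SP
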