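import Pool.Agent.Helper48.PW.Dense

/-!
# Powers of varieties with big monodromy: definitions (project SP)

`V = ⊕ V_b`; the block `V_b` has the letters `(b, i)`, `i < dim`, an invariant form of sign
`(-1) ^ wt` which pairs `(b, i)` with `(b, dim - 1 - i)`, and slopes `slope i`.
-/

set_option autoImplicit false

namespace Pool.Agent.Helper48.SP

open Polynomial Pool.Agent.Helper48.GC8

/-- The numerical data of a block: dimension, weight, slopes. -/
structure Blk where
  dim : ℕ
  wt : ℕ
  slope : Fin dim → ℕ

/-- The slopes are in increasing order and symmetric; odd weight: even dimension (symplectic); even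
weight and even dimension: the two slopes in the middle are `wt / 2`. -/
structure Blk.Ok (k : Blk) : Prop where
  mono : Monotone k.slope
  dual : ∀ i, k.slope i + k.slope i.rev = k.wt
  even : Odd k.wt → Even k.dim
  mid : Even k.wt → ∀ i : Fin k.dim, (i : ℕ) + 1 = (i.rev : ℕ) → 2 * k.slope i = k.wt

/-- The sum of the first `j` slopes. -/
def Blk.nu (k : Blk) (j : ℕ) : ℕ := ∑ i : Fin k.dim, if (i : ℕ) < j then k.slope i else 0

section

variable {B : Type} (k : B → Blk)

/-- The letters. -/
abbrev Ind : Type := Σ b, Fin (k b).dim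

variable {k}

/-- The opposite letter. -/
def op (l : Ind k) : Ind k := ⟨l.1, l.2.rev⟩

/-- The slope of a letter. -/
def sl (l : Ind k) : ℕ := (k l.1).slope l.2

variable (k)

/-- The sign of the form of the block `b`. -/
def sg (b : B) : ℂ := if Even (k b).wt then 1 else -1

variable {k}

/-- The value of the form at `(l, op l)`. -/
def eps (l : Ind k) : ℂ := if Even (k l.1).wt then 1 else if l.2 < l.2.rev then 1 else -1

variable [DecidableEq B]

variable (k) in
/-- The matrix of the form of the block `b`. -/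
def frm (b : B) : Matrix (Ind k) (Ind k) ℂ :=
  Matrix.of fun l r => if l.1 = b ∧ r = op l then eps l else 0

variable [Fintype B]

variable (k) in
/-- The block diagonal matrices `M` which are similitudes of the form of the block `b` with
multiplier `c ^ wt`, for all `b`. -/
structure InGO (c : ℂ) (M : Matrix (Ind k) (Ind k) ℂ) : Prop where
  ne : c ≠ 0
  blk : ∀ l r : Ind k, l.1 ≠ r.1 → M l r = 0
  sim : ∀ b, M.transpose * frm k b * M = c ^ (k b).wt • frm k b

variable (k) in
/-- The block diagonal matrices `M` which are proper similitudes: the determinant of the block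
`b` is `c ^ (dim * wt / 2)`. -/
structure InG (c : ℂ) (M : Matrix (Ind k) (Ind k) ℂ) : Prop extends InGO k c M where
  det : ∀ b, (M.submatrix (Sigma.mk b) (Sigma.mk b)).det = c ^ ((k b).dim * (k b).wt / 2)

/-! ### Pieces and the filtration -/

/-- An alternating tensor in the tensor power `V_b^(⊗ S)`. -/
structure IsAlt {S : Type} [DecidableEq S] (b : B) (t : Ten S (Ind k)) : Prop where
  supp : ∀ y, t y ≠ 0 → ∀ p, (y p).1 = b
  alt : ∀ y, ∀ p q : S, p ≠ q → t (y ∘ Equiv.swap p q) = - t y

/-- A piece of value `v`: an alternating tensor in `V_b^(⊗ S)`, of value the sum of the first `|S|`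
slopes of `V_b`, or the invariant tensor in `V_b ⊗ V_b`, of value the weight of `V_b`. -/
def IsPiece {S : Type} [Fintype S] [DecidableEq S] (t : Ten S (Ind k)) (v : ℕ) : Prop :=
  (∃ b, IsAlt b t ∧ v = (k b).nu (Fintype.card S)) ∨
    ∃ (b : B) (p q : S), p ≠ q ∧ (∀ r, r = p ∨ r = q) ∧ (∀ y, t y = frm k b (y p) (y q)) ∧
      v = (k b).wt

variable (k) in
/-- The span of the products of pieces, at disjoint positions which cover `ι`, of total value at
least `ν`. -/
def D (ι : Type) [Fintype ι] [DecidableEq ι] (ν : ℕ) : Submodule ℂ (Ten ι (Ind k)) :=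
  Submodule.span ℂ {T | ∃ (r : ℕ) (c : ι → Fin r) (t : ∀ a, Ten {p // c p = a} (Ind k))
    (v : Fin r → ℕ), (∀ a, IsPiece (t a) (v a)) ∧ ν ≤ ∑ a, v a ∧
      T = fun y => ∏ a, t a (fun p => y p)}

end

section

variable {B : Type} {k : B → Blk} [Fintype B] [DecidableEq B] {ι : Type} [Fintype ι] [DecidableEq ι]

/-- The number of positions with the letter `l`. -/
def cnt (y : ι → Ind k) (l : Ind k) : ℕ := (Finset.univ.filter fun p => y p = l).card

/-- The torus weight of a word. -/
def tw (y : ι → Ind k) (l : Ind k) : ℤ := (cnt y l : ℤ) - cnt y (op l)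

/-- The height of a letter. -/
def ht (l : Ind k) : ℤ :=
  if Even (k l.1).wt ∧ Even (k l.1).dim then
    (if l.2 < l.2.rev then ((l.2.rev : ℕ) : ℤ) - ((l.2 : ℕ) : ℤ) - 1
      else ((l.2.rev : ℕ) : ℤ) - ((l.2 : ℕ) : ℤ) + 1)
  else ((l.2.rev : ℕ) : ℤ) - ((l.2 : ℕ) : ℤ)

/-- The height of a word. -/
def height (y : ι → Ind k) : ℤ := ∑ p, ht (y p)

/-- The raising matrix `r ↦ l` of the Lie algebra. -/
noncomputable def rais (l r : Ind k) : Matrix (Ind k) (Ind k) ℂ :=
  Matrix.single l r 1 - (eps l * eps r) • Matrix.single (op r) (op l) 1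

/-- The word `y` with the letters `l`, `r` at the positions `p`, `q`. -/
def glue (p q : ι) (l r : Ind k) (y : {x : ι // x ≠ p ∧ x ≠ q} → Ind k) : ι → Ind k := fun x =>
  if h : x ≠ p ∧ x ≠ q then y ⟨x, h⟩ else if x = p then l else r

/-- The contraction of the positions `p`, `q` with the form of the block `b`. -/
noncomputable def kap (b : B) (p q : ι) :
    Ten ι (Ind k) →ₗ[ℂ] Ten {x : ι // x ≠ p ∧ x ≠ q} (Ind k) where
  toFun u := fun y => ∑ l, ∑ r, frm k b l r * u (glue p q l r y)
  map_add' u v := by
    funext y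
    simp [mul_add, Finset.sum_add_distrib]
  map_smul' c u := by
    funext y
    simp only [Pi.smul_apply, smul_eq_mul, RingHom.id_apply, Finset.mul_sum]
    exact Finset.sum_congr rfl fun l _ => Finset.sum_congr rfl fun r _ => by ring

/-- The product with the invariant tensor of the block `b` at the positions `p`, `q`. -/
def insr (b : B) (p q : ι) (u : Ten {x : ι // x ≠ p ∧ x ≠ q} (Ind k)) : Ten ι (Ind k) := fun y =>
  frm k b (y p) (y q) * u (fun x => y x)

/-- Highest weight vectors of the Lie algebra of the form, all weights equal and dominant. -/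
structure IsHW (w : Ten ι (Ind k)) : Prop where
  traceless : ∀ (b : B) (p q : ι), p ≠ q → kap b p q w = 0
  raise : ∀ l r : Ind k, l.1 = r.1 → (l.2 : ℕ) < r.2 → der Finset.univ (rais l r) w = 0
  dom : ∀ y, w y ≠ 0 → ∀ l : Ind k, Even (k l.1).wt → l.2 < l.2.rev → cnt y (op l) ≤ cnt y l

/-- Highest weight vectors of the general linear Lie algebras of the blocks. -/
def IsTop (w : Ten ι (Ind k)) : Prop :=
  ∀ l r : Ind k, l.1 = r.1 → (l.2 : ℕ) < r.2 → der Finset.univ (Matrix.single l r (1 : ℂ)) w = 0

end

end Pool.Agent.Helper48.SP
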