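import Pool.Agent.Helper48.SP.Defs

/-!
# SP-R1: derivatives of curves of matrices

As `GC8.der_mem` (`GC8/Weyl.lean`): the derivative at `0` of
`t ↦ rho univ (1 + t • X + t ^ 2 • Y) u` is `der univ X u`.
-/

set_option autoImplicit false

namespace Pool.Agent.Helper48.SP

open Pool.Agent.Helper48.GC8

private lemma hasDerivAt_rho2 {ι : Type} [Fintype ι] [DecidableEq ι] {I : Type} [Fintype I]
    [DecidableEq I] (R : Finset ι) (X Y : Matrix I I ℂ) (u : Ten ι I) :
    HasDerivAt (fun t : ℂ => rho R (1 + t • X + t ^ 2 • Y) u) (der R X u) 0 := by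
  rw [hasDerivAt_pi]
  intro x
  have h1 : ∀ y : ι → I, HasDerivAt
      (fun t : ℂ => (∏ k, (if k ∈ R then (1 + t • X + t ^ 2 • Y) else 1 : Matrix I I ℂ)
        (x k) (y k)) * u y)
      ((∑ k, (∏ l ∈ Finset.univ.erase k, (1 : Matrix I I ℂ) (x l) (y l)) •
        (if k ∈ R then X (x k) (y k) else 0)) * u y) 0 := by
    intro y
    refine HasDerivAt.mul_const ?_ _
    have h2 : ∀ k ∈ (Finset.univ : Finset ι), HasDerivAt
        (fun t : ℂ => (if k ∈ R then (1 + t • X + t ^ 2 • Y) else 1 : Matrix I I ℂ)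
          (x k) (y k))
        (if k ∈ R then X (x k) (y k) else 0) 0 := by
      intro k _
      by_cases hk : k ∈ R
      · simp only [hk, if_true, Matrix.add_apply, Matrix.smul_apply, smul_eq_mul]
        have h3 := (((hasDerivAt_id (0 : ℂ)).mul_const (X (x k) (y k))).const_add
          ((1 : Matrix I I ℂ) (x k) (y k))).add
          (((hasDerivAt_id (0 : ℂ)).pow 2).mul_const (Y (x k) (y k)))
        have e : (1 : ℂ) * X (x k) (y k) + ((2 : ℕ) * (id (0 : ℂ)) ^ (2 - 1) * 1) * Y (x k) (y k) =
            X (x k) (y k) := by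
          simp
        rw [e] at h3
        exact h3
      · simp only [hk, if_false]
        exact hasDerivAt_const _ _
    have h4 := HasDerivAt.fun_finsetProd h2
    convert h4 using 1
    refine Finset.sum_congr rfl fun k _ => ?_
    congr 1
    refine Finset.prod_congr rfl fun l _ => ?_
    by_cases hl : l ∈ R <;> simp [hl]
  have h5 := HasDerivAt.fun_sum (u := (Finset.univ : Finset (ι → I))) (fun y _ => h1 y)
  have h6 : (∑ y : ι → I, (∑ k, (∏ l ∈ Finset.univ.erase k, (1 : Matrix I I ℂ) (x l) (y l)) •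
        (if k ∈ R then X (x k) (y k) else 0)) * u y) = der R X u x := by
    unfold der
    rw [LinearMap.sum_apply, Finset.sum_apply]
    simp only [Finset.sum_mul]
    rw [Finset.sum_comm]
    have h7 : ∀ k ∈ (Finset.univ : Finset ι), k ∉ R → (∑ y : ι → I,
        (∏ l ∈ Finset.univ.erase k, (1 : Matrix I I ℂ) (x l) (y l)) •
        (if k ∈ R then X (x k) (y k) else 0) * u y) = 0 := by
      intro k _ hk
      simp [hk]
    rw [← Finset.sum_subset (Finset.subset_univ R) h7]
    refine Finset.sum_congr rfl fun k hk => ?_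
    rw [act_apply]
    refine Finset.sum_congr rfl fun y _ => ?_
    congr 1
    rw [← Finset.mul_prod_erase Finset.univ _ (Finset.mem_univ k), ms_self]
    simp only [hk, if_true, smul_eq_mul]
    rw [mul_comm]
    congr 1
    refine Finset.prod_congr rfl fun l hl => ?_
    rw [ms_ne (Finset.ne_of_mem_erase hl)]
  rw [h6] at h5
  exact h5

theorem der_mem2 {ι : Type} [Fintype ι] [DecidableEq ι] {I : Type} [Fintype I] [DecidableEq I]
    (X Y : Matrix I I ℂ) (U : Submodule ℂ (Ten ι I))
    (hU : ∀ t : ℂ, ∀ u ∈ U, rho Finset.univ (1 + t • X + t ^ 2 • Y) u ∈ U) {u : Ten ι I}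
    (hu : u ∈ U) : der Finset.univ X u ∈ U := by
  by_contra hcon
  obtain ⟨f, hf, hfU⟩ := Submodule.exists_dual_map_eq_bot_of_notMem hcon inferInstance
  have h1 := (LinearMap.toContinuousLinearMap f).hasFDerivAt.comp_hasDerivAt (0 : ℂ)
    (hasDerivAt_rho2 Finset.univ X Y u)
  have h2 : (LinearMap.toContinuousLinearMap f) ∘
      (fun t : ℂ => rho Finset.univ (1 + t • X + t ^ 2 • Y) u) = fun _ => 0 := by
    funext t
    have h3 : f (rho Finset.univ (1 + t • X + t ^ 2 • Y) u) ∈ U.map f :=
      Submodule.mem_map_of_mem (hU t u hu)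
    rw [hfU] at h3
    simpa using h3
  rw [h2] at h1
  exact hf (h1.unique (hasDerivAt_const _ _))

end Pool.Agent.Helper48.SP
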