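import Pool.Agent.Helper48.SP.Forms

/-!
# SP-C2: the elementary operators on tensors

`E l r = der univ (single l r 1)` replaces a letter `r` by `l`: its value at the word `y` is the sum
over the positions `p` with `y p = l` of the values at `update y p r`.
-/

set_option autoImplicit false

namespace Pool.Agent.Helper48.SP

open Pool.Agent.Helper48.GC8 Function

variable {ι : Type} [Fintype ι] [DecidableEq ι] {L : Type} [Fintype L] [DecidableEq L]

/-- The elementary operator `r ↦ l`. -/
noncomputable def E (l r : L) : Module.End ℂ (Ten ι L) := der Finset.univ (Matrix.single l r (1 : ℂ))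

lemma E_apply (l r : L) (w : Ten ι L) (y : ι → L) :
    E l r w y = ∑ p, if y p = l then w (update y p r) else 0 := by
  unfold E
  rw [der_apply]
  refine Finset.sum_congr rfl fun p _ => ?_
  by_cases hp : y p = l
  · rw [if_pos hp, Finset.sum_eq_single r]
    · rw [hp, Matrix.single_apply_same, one_mul]
    · intro s _ hs
      rw [Matrix.single_apply_of_ne _ _ _ _ _ (fun h => hs h.2.symm), zero_mul]
    · intro h
      exact absurd (Finset.mem_univ _) h
  · rw [if_neg hp]
    refine Finset.sum_eq_zero fun s _ => ?_
    rw [Matrix.single_apply_of_ne _ _ _ _ _ (fun h => hp h.1.symm), zero_mul]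

lemma E_self (l : L) (w : Ten ι L) (y : ι → L) :
    E l l w y = ((Finset.univ.filter fun p => y p = l).card : ℂ) * w y := by
  rw [E_apply, ← Finset.sum_filter]
  have h1 : ∀ p ∈ Finset.univ.filter (fun p => y p = l), w (update y p l) = w y := by
    intro p hp
    rw [← (Finset.mem_filter.1 hp).2, update_eq_self]
  rw [Finset.sum_congr rfl h1, Finset.sum_const, nsmul_eq_mul]

lemma herm_E (l r : L) (u v : Ten ι L) : herm (E l r u) v = herm u (E r l v) := by
  have h1 : ∀ k : ι, herm (act (ms k (Matrix.single l r (1 : ℂ))) u) v =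
      herm u (act (ms k (Matrix.single r l (1 : ℂ))) v) := by
    intro k
    rw [herm_act]
    congr 2
    congr 1
    funext j
    by_cases hj : j = k
    · subst hj
      rw [ms_self, ms_self, Matrix.conjTranspose_single, star_one]
    · rw [ms_ne hj, ms_ne hj, Matrix.conjTranspose_one]
  unfold E der
  rw [LinearMap.sum_apply, LinearMap.sum_apply]
  unfold herm at h1 ⊢
  simp only [Finset.sum_apply, star_sum, Finset.sum_mul, Finset.mul_sum]
  rw [Finset.sum_comm]
  simp only [h1]
  rw [Finset.sum_comm]

private lemma h99_der_zero (u : Ten ι L) : der Finset.univ (0 : Matrix L L ℂ) u = 0 := by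
  funext y
  rw [der_apply]
  simp

private lemma h99_der_mul (X Y : Matrix L L ℂ) (u : Ten ι L) :
    der Finset.univ X (der Finset.univ Y u) = der Finset.univ (X * Y) u +
      ∑ a, ∑ b, if a = b then 0 else act (ms a X * ms b Y) u := by
  unfold der
  simp only [LinearMap.sum_apply, map_sum]
  rw [Finset.sum_comm, ← Finset.sum_add_distrib]
  refine Finset.sum_congr rfl fun a _ => ?_
  rw [← Finset.add_sum_erase _ _ (Finset.mem_univ a),
    ← Finset.add_sum_erase (a := a) (s := Finset.univ)
      (f := fun b => if a = b then 0 else act (ms a X * ms b Y) u) (Finset.mem_univ a)]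
  simp only [if_true, zero_add]
  congr 1
  · rw [← Module.End.mul_apply, ← act_mul]
    congr 2
    funext j
    by_cases hj : j = a
    · subst hj
      simp [ms_self]
    · simp [ms_ne hj]
  · refine Finset.sum_congr rfl fun b hb => ?_
    rw [if_neg (fun h => (Finset.mem_erase.1 hb).1 h.symm), act_mul, Module.End.mul_apply]

private lemma h99_ms_comm {a b : ι} (hab : a ≠ b) (X Y : Matrix L L ℂ) :
    ms a X * ms b Y = ms b Y * ms a X := by
  funext j
  by_cases hj : j = a
  · subst hj
    simp [ms_ne hab]
  · simp [ms_ne hj]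

private lemma h99_der_comm (X Y : Matrix L L ℂ) (u : Ten ι L) :
    der Finset.univ X (der Finset.univ Y u) - der Finset.univ Y (der Finset.univ X u) =
      der Finset.univ (X * Y) u - der Finset.univ (Y * X) u := by
  rw [h99_der_mul X Y, h99_der_mul Y X]
  have h1 : ∑ a : ι, ∑ b : ι, (if a = b then 0 else act (ms a X * ms b Y) u) =
      ∑ a : ι, ∑ b : ι, if a = b then 0 else act (ms a Y * ms b X) u := by
    rw [Finset.sum_comm]
    refine Finset.sum_congr rfl fun a _ => Finset.sum_congr rfl fun b _ => ?_
    by_cases h : a = b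
    · rw [if_pos h, if_pos h.symm]
    · rw [if_neg h, if_neg (Ne.symm h), h99_ms_comm (Ne.symm h)]
  rw [h1]
  abel

lemma E_comm (l r l' r' : L) (u : Ten ι L) :
    E l r (E l' r' u) = E l' r' (E l r u) + (if r = l' then E l r' u else 0) -
      (if r' = l then E l' r u else 0) := by
  have h1 := h99_der_comm (Matrix.single l r (1 : ℂ)) (Matrix.single l' r' (1 : ℂ)) u
  have h2 : ∀ a b c d : L, der Finset.univ (Matrix.single a b (1 : ℂ) * Matrix.single c d (1 : ℂ)) u =
      if b = c then E a d u else 0 := by
    intro a b c d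
    by_cases h : b = c
    · subst h
      rw [if_pos rfl, Matrix.single_mul_single_same, mul_one]
      rfl
    · rw [if_neg h, Matrix.single_mul_single_of_ne _ _ _ _ h]
      exact h99_der_zero u
  rw [h2, h2] at h1
  unfold E at h1 ⊢
  rw [add_sub_assoc, ← h1]
  abel

lemma der_rais {B : Type} {k : B → Blk} [Fintype B] [DecidableEq B] (l r : Ind k)
    (w : Ten ι (Ind k)) :
    der Finset.univ (rais l r) w = E l r w - (eps l * eps r) • E (op r) (op l) w := by
  unfold E rais
  funext y
  simp only [Pi.sub_apply, Pi.smul_apply, der_apply, Matrix.sub_apply, Matrix.smul_apply,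
    smul_eq_mul, sub_mul, Finset.sum_sub_distrib, Finset.mul_sum, mul_assoc]

end Pool.Agent.Helper48.SP
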