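import Pool.Agent.Helper48.SP.Height
import Pool.Agent.Helper48.SP.Ops

/-!
# SP-M3: parts of tensors and raising operators

Use `der_rais`. At a word `y`, all words `y'` contributing to `der (rais l r) v y` (a letter `l` of
`y` replaced by `r`, or a letter `op r` replaced by `op l`) have the same torus weight
`tw y - (root)`. So `der (rais l r) (part y0 v) y` is `der (rais l r) v y` or `0`. If it is not zero
then by `height_eq` `height y = height y0 + ht l - ht r`, larger than `height y0` by `ht_lt`, against
`hmax`, unless `r = op l` and the weight is even, where `rais l r = 0`.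
-/

set_option autoImplicit false
set_option linter.unusedSectionVars false

namespace Pool.Agent.Helper48.SP

open Pool.Agent.Helper48.GC8

variable {B : Type} {k : B → Blk} [Fintype B] [DecidableEq B] {ι : Type} [Fintype ι]
  [DecidableEq ι]

omit [Fintype B] in
private lemma h80_cnt_update (y : ι → Ind k) (p : ι) (a b : Ind k) (hp : y p = a) (x : Ind k) :
    (cnt (Function.update y p b) x : ℤ) = cnt y x - (if x = a then 1 else 0) +
      (if x = b then 1 else 0) := by
  have h1 : ∀ z : ι → Ind k, (cnt z x : ℤ) = ∑ q, if z q = x then (1 : ℤ) else 0 := by
    intro z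
    unfold cnt
    rw [Finset.card_eq_sum_ones, Finset.sum_filter]
    push_cast
    rfl
  rw [h1, h1, ← Finset.add_sum_erase _ _ (Finset.mem_univ p),
    ← Finset.add_sum_erase Finset.univ (fun q => if y q = x then (1 : ℤ) else 0)
      (Finset.mem_univ p)]
  have h2 : ∑ q ∈ Finset.univ.erase p, (if Function.update y p b q = x then (1 : ℤ) else 0) =
      ∑ q ∈ Finset.univ.erase p, if y q = x then (1 : ℤ) else 0 := by
    refine Finset.sum_congr rfl fun q hq => ?_
    rw [Function.update_of_ne (Finset.ne_of_mem_erase hq)]
  rw [h2, Function.update_self]
  simp only [hp]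
  have h3 : (if a = x then (1 : ℤ) else 0) = if x = a then 1 else 0 := by
    by_cases h : a = x
    · rw [if_pos h, if_pos h.symm]
    · rw [if_neg h, if_neg (Ne.symm h)]
  have h4 : (if b = x then (1 : ℤ) else 0) = if x = b then 1 else 0 := by
    by_cases h : b = x
    · rw [if_pos h, if_pos h.symm]
    · rw [if_neg h, if_neg (Ne.symm h)]
  rw [h3, h4]
  ring

/-- The root. -/
private def h80_dl (l r x : Ind k) : ℤ :=
  (if x = r then 1 else 0) - (if x = l then 1 else 0) + (if x = op l then 1 else 0) -
    (if x = op r then 1 else 0)

omit [Fintype B] [DecidableEq B] in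
private lemma h80_op_eq (x l : Ind k) : op x = l ↔ x = op l := by
  constructor
  · intro h
    rw [← h, op_op]
  · intro h
    rw [h, op_op]

omit [Fintype B] in
private lemma h80_tw1 (y : ι → Ind k) (p : ι) (l r : Ind k) (hp : y p = l) :
    tw (Function.update y p r) = fun x => tw y x + h80_dl l r x := by
  funext x
  unfold tw h80_dl
  rw [h80_cnt_update y p l r hp, h80_cnt_update y p l r hp]
  simp only [h80_op_eq]
  ring

omit [Fintype B] in
private lemma h80_tw2 (y : ι → Ind k) (p : ι) (l r : Ind k) (hp : y p = op r) :
    tw (Function.update y p (op l)) = fun x => tw y x + h80_dl l r x := by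
  funext x
  unfold tw h80_dl
  rw [h80_cnt_update y p _ _ hp, h80_cnt_update y p _ _ hp]
  simp only [h80_op_eq, op_op]
  ring

private lemma h80_sum (l r : Ind k) : ∑ x, ht x * h80_dl l r x = 2 * (ht r - ht l) := by
  have h1 : ∀ x, ht x * h80_dl l r x = (if x = r then ht x else 0) - (if x = l then ht x else 0) +
      (if x = op l then ht x else 0) - (if x = op r then ht x else 0) := by
    intro x
    unfold h80_dl
    split_ifs <;> ring
  simp only [h1, Finset.sum_sub_distrib, Finset.sum_add_distrib, Finset.sum_ite_eq',
    Finset.mem_univ, if_true, ht_op]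
  ring

theorem der_part {l r : Ind k} (hb : l.1 = r.1) (hlr : (l.2 : ℕ) < r.2) {v : Ten ι (Ind k)}
    {y0 : ι → Ind k} (hmax : ∀ y, der Finset.univ (rais l r) v y ≠ 0 → height y ≤ height y0) :
    der Finset.univ (rais l r) (part y0 v) = 0 := by
  classical
  by_cases hc : r = op l ∧ Even (k l.1).wt
  · -- the raising matrix is zero
    have h0 : rais l r = 0 := by
      unfold rais
      have e1 : eps l = 1 := eps_even hc.2
      have e2 : eps r = 1 := eps_even (by rw [← hb]; exact hc.2)
      rw [e1, e2, hc.1, op_op]
      simp
    rw [h0]
    funext y
    rw [der_apply]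
    simp
  · have hht := ht_lt hb hlr hc
    funext y
    by_cases hy : (fun x => tw y x + h80_dl l r x) = tw y0
    · -- all contributing words have the weight of `y0`
      have h1 : der Finset.univ (rais l r) (part y0 v) y = der Finset.univ (rais l r) v y := by
        rw [der_rais, der_rais]
        simp only [Pi.sub_apply, Pi.smul_apply, E_apply]
        congr 1
        · refine Finset.sum_congr rfl fun p _ => ?_
          by_cases hp : y p = l
          · rw [if_pos hp, if_pos hp]
            unfold part
            rw [h80_tw1 y p l r hp, if_pos hy]
          · rw [if_neg hp, if_neg hp]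
        · congr 1
          refine Finset.sum_congr rfl fun p _ => ?_
          by_cases hp : y p = op r
          · rw [if_pos hp, if_pos hp]
            unfold part
            rw [h80_tw2 y p l r hp, if_pos hy]
          · rw [if_neg hp, if_neg hp]
      rw [h1, Pi.zero_apply]
      by_contra hne
      have h2 := hmax y hne
      have h3 : 2 * height y0 = 2 * height y + 2 * (ht r - ht l) := by
        rw [height_eq, height_eq, ← h80_sum l r, ← Finset.sum_add_distrib, ← hy]
        refine Finset.sum_congr rfl fun x _ => ?_
        ring
      omega
    · rw [der_rais]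
      simp only [Pi.sub_apply, Pi.smul_apply, E_apply, Pi.zero_apply]
      have h1 : ∑ p, (if y p = l then part y0 v (Function.update y p r) else 0) = 0 := by
        refine Finset.sum_eq_zero fun p _ => ?_
        by_cases hp : y p = l
        · rw [if_pos hp]
          unfold part
          rw [h80_tw1 y p l r hp, if_neg hy]
        · rw [if_neg hp]
      have h2 : ∑ p, (if y p = op r then part y0 v (Function.update y p (op l)) else 0) = 0 := by
        refine Finset.sum_eq_zero fun p _ => ?_
        by_cases hp : y p = op r
        · rw [if_pos hp]
          unfold part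
          rw [h80_tw2 y p l r hp, if_neg hy]
        · rw [if_neg hp]
      rw [h1, h2, smul_zero, sub_zero]

end Pool.Agent.Helper48.SP
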