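import Pool.Agent.Helper48.SP.Forms

/-!
# SP-W: reflections in the orthogonal blocks

For a letter `l` of an orthogonal block (even weight), above the middle and not in the middle pair,
there is a matrix of the group which exchanges `l` and `op l`, and either is `-1` on the middle
letter (dimension odd) or exchanges the two middle letters (dimension even). It acts on tensors
by a permutation of the letters, up to signs. Take `σ = swap l (op l)` (times the swap of the middle
letters if the dimension is even), `ζ = 1` except `ζ = -1` at the middle letter of the block of `l`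
if the dimension is odd, and `M x y = if y = σ x then ζ x else 0`.
-/

set_option autoImplicit false

namespace Pool.Agent.Helper48.SP

open Pool.Agent.Helper48.GC8

variable {B : Type} {k : B → Blk} [Fintype B] [DecidableEq B]

/-- Block permutations with signs give elements of the group. -/
private lemma refl_inG (F : ∀ b, Equiv.Perm (Fin (k b).dim)) (Z : ∀ b, Fin (k b).dim → ℂ)
    (h1 : ∀ b i, F b (F b i) = i) (h2 : ∀ b i, F b i.rev = (F b i).rev)
    (h3 : ∀ b i, eps (k := k) ⟨b, F b i⟩ = eps (k := k) ⟨b, i⟩)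
    (h4 : ∀ b i, Z b i * Z b i.rev = 1)
    (h5 : ∀ b, (∏ i, Z b i) * ((Equiv.Perm.sign (F b) : ℤ) : ℂ) = 1) :
    InG k 1 (Matrix.of fun x y : Ind k =>
      if y = Equiv.sigmaCongrRight F x then Z x.1 x.2 else 0) := by
  set σ : Equiv.Perm (Ind k) := Equiv.sigmaCongrRight F with hσ
  have hσ1 : ∀ z, σ (σ z) = z := by
    rintro ⟨b, i⟩
    change (⟨b, F b (F b i)⟩ : Ind k) = ⟨b, i⟩
    rw [h1]
  have hσ2 : ∀ z, σ (op z) = op (σ z) := by
    rintro ⟨b, i⟩
    change (⟨b, F b i.rev⟩ : Ind k) = ⟨b, (F b i).rev⟩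
    rw [h2]
  have hσ3 : ∀ z, (σ z).1 = z.1 := fun z => rfl
  have hσ4 : ∀ z, eps (σ z) = eps z := by
    rintro ⟨b, i⟩
    exact h3 b i
  have hiff : ∀ x u : Ind k, x = σ u ↔ u = σ x := by
    intro x u
    constructor
    · rintro rfl
      exact (hσ1 u).symm
    · rintro rfl
      exact (hσ1 x).symm
  refine ⟨⟨one_ne_zero, ?_, ?_⟩, ?_⟩
  · intro l r hlr
    rw [Matrix.of_apply, if_neg]
    intro h
    apply hlr
    rw [h]
    rfl
  · intro b
    rw [one_pow, one_smul]
    ext x y
    rw [Matrix.mul_apply]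
    have e1 : ∀ v, (Matrix.transpose (Matrix.of fun x y : Ind k =>
        if y = σ x then Z x.1 x.2 else 0) * frm k b) x v =
        Z (σ x).1 (σ x).2 * frm k b (σ x) v := by
      intro v
      rw [Matrix.mul_apply, Finset.sum_eq_single (σ x)]
      · rw [Matrix.transpose_apply, Matrix.of_apply, if_pos (hσ1 x).symm]
      · intro u _ hu
        rw [Matrix.transpose_apply, Matrix.of_apply, if_neg, zero_mul]
        exact fun h => hu ((hiff x u).mp h)
      · intro h
        exact absurd (Finset.mem_univ _) h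
    rw [Finset.sum_eq_single (σ y)]
    · rw [e1, Matrix.of_apply, if_pos (hσ1 y).symm]
      have e2 : frm k b (σ x) (σ y) = if x.1 = b ∧ y = op x then eps x else 0 := by
        change (if (σ x).1 = b ∧ σ y = op (σ x) then eps (σ x) else 0) = _
        rw [hσ3, hσ4, ← hσ2]
        simp only [σ.injective.eq_iff]
      have e3 : frm k b x y = if x.1 = b ∧ y = op x then eps x else 0 := rfl
      rw [e2, e3]
      by_cases hxy : x.1 = b ∧ y = op x
      · rw [if_pos hxy, hxy.2, hσ2]
        have e4 : Z (σ x).1 (σ x).2 * Z (op (σ x)).1 (op (σ x)).2 = 1 := h4 (σ x).1 (σ x).2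
        linear_combination eps x * e4
      · rw [if_neg hxy, mul_zero, zero_mul]
    · intro v _ hv
      rw [Matrix.of_apply, if_neg, mul_zero]
      exact fun h => hv ((hiff y v).mp h)
    · intro h
      exact absurd (Finset.mem_univ _) h
  · intro b
    rw [one_pow]
    have e1 : ((Matrix.of fun x y : Ind k => if y = σ x then Z x.1 x.2 else 0).submatrix
        (Sigma.mk b) (Sigma.mk b)) =
        Matrix.diagonal (Z b) * (Equiv.Perm.permMatrix ℂ (F b)) := by
      ext i j
      rw [Matrix.submatrix_apply, Matrix.of_apply, Matrix.diagonal_mul]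
      have e2 : ((⟨b, j⟩ : Ind k) = σ ⟨b, i⟩) ↔ j = F b i := by
        change ((⟨b, j⟩ : Ind k) = ⟨b, F b i⟩) ↔ _
        exact sigma_mk_injective.eq_iff
      have e3 : (Equiv.Perm.permMatrix ℂ (F b)) i j = if j = F b i then 1 else 0 := by
        change ((F b).toPEquiv.toMatrix : Matrix _ _ ℂ) i j = _
        rw [PEquiv.toMatrix_apply]
        simp only [Equiv.toPEquiv_apply, Option.mem_def, Option.some.injEq, eq_comm]
      rw [e3]
      by_cases hj : j = F b i
      · rw [if_pos (e2.mpr hj), if_pos hj, mul_one]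
      · rw [if_neg (fun h => hj (e2.mp h)), if_neg hj, mul_zero]
    rw [e1, Matrix.det_mul, Matrix.det_diagonal, Matrix.det_permutation]
    exact h5 b

/-- The permutation of the letters of one block. -/
private lemma refl_perm (n : ℕ) (i₀ : Fin n) (hlt : i₀ < i₀.rev)
    (hmid : (i₀ : ℕ) + 1 ≠ (i₀.rev : ℕ)) :
    ∃ (τ : Equiv.Perm (Fin n)) (ζ : Fin n → ℂ), (∀ i, τ (τ i) = i) ∧
      (∀ i, τ i.rev = (τ i).rev) ∧ (∀ i, ζ i * ζ i.rev = 1) ∧ (∀ i, ζ i ≠ 0) ∧
      (∏ i, ζ i) * ((Equiv.Perm.sign τ : ℤ) : ℂ) = 1 ∧ τ i₀ = i₀.rev ∧ τ i₀.rev = i₀ ∧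
      ∀ i, i ≠ i₀ → i ≠ i₀.rev → τ i = i ∨
        (Even n ∧ (((i : ℕ) + 1 = (i.rev : ℕ) ∧ τ i = i.rev) ∨
          ((i.rev : ℕ) + 1 = (i : ℕ) ∧ τ i = i.rev))) := by
  have hne : i₀ ≠ i₀.rev := ne_of_lt hlt
  have hval : (i₀.rev : ℕ) = n - (i₀ + 1) := Fin.val_rev i₀
  have hlt' : (i₀ : ℕ) < (i₀.rev : ℕ) := hlt
  have hn : 0 < n := i₀.pos
  have hswap : ∀ a b : Fin n, a.rev = b → ∀ i : Fin n,
      Equiv.swap a b i.rev = (Equiv.swap a b i).rev := by
    intro a b hab i
    subst hab
    have h := Fin.rev_injective.swap_apply a a.rev i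
    rw [Fin.rev_rev] at h
    rw [← h, Equiv.swap_comm]
  rcases Nat.even_or_odd n with hev | hodd
  · obtain ⟨c, hc⟩ := hev
    have hc0 : 0 < c := by omega
    let m1 : Fin n := ⟨c - 1, by omega⟩
    let m2 : Fin n := ⟨c, by omega⟩
    have hm1 : m1.rev = m2 := by
      apply Fin.ext
      rw [Fin.val_rev]
      change n - (c - 1 + 1) = c
      omega
    have hm12 : m1 ≠ m2 := by
      intro h
      have := congrArg Fin.val h
      change c - 1 = c at this
      omega
    have ha : ∀ i : Fin n, i = i₀ ∨ i = i₀.rev → i ≠ m1 ∧ i ≠ m2 := by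
      intro i hi
      constructor
      · rintro rfl
        rcases hi with hi | hi
        · have := congrArg Fin.val hi
          change c - 1 = (i₀ : ℕ) at this
          omega
        · have := congrArg Fin.val hi
          change c - 1 = (i₀.rev : ℕ) at this
          omega
      · rintro rfl
        rcases hi with hi | hi
        · have := congrArg Fin.val hi
          change c = (i₀ : ℕ) at this
          omega
        · have := congrArg Fin.val hi
          change c = (i₀.rev : ℕ) at this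
          omega
    have hm1r : m2.rev = m1 := by rw [← hm1, Fin.rev_rev]
    have t0 : (Equiv.swap i₀ i₀.rev * Equiv.swap m1 m2) i₀ = i₀.rev := by
      rw [Equiv.Perm.mul_apply, Equiv.swap_apply_of_ne_of_ne (ha i₀ (Or.inl rfl)).1
        (ha i₀ (Or.inl rfl)).2, Equiv.swap_apply_left]
    have t1 : (Equiv.swap i₀ i₀.rev * Equiv.swap m1 m2) i₀.rev = i₀ := by
      rw [Equiv.Perm.mul_apply, Equiv.swap_apply_of_ne_of_ne (ha i₀.rev (Or.inr rfl)).1
        (ha i₀.rev (Or.inr rfl)).2, Equiv.swap_apply_right]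
    have t2 : (Equiv.swap i₀ i₀.rev * Equiv.swap m1 m2) m1 = m2 := by
      rw [Equiv.Perm.mul_apply, Equiv.swap_apply_left, Equiv.swap_apply_of_ne_of_ne]
      · exact fun h => (ha i₀ (Or.inl rfl)).2 h.symm
      · exact fun h => (ha i₀.rev (Or.inr rfl)).2 h.symm
    have t3 : (Equiv.swap i₀ i₀.rev * Equiv.swap m1 m2) m2 = m1 := by
      rw [Equiv.Perm.mul_apply, Equiv.swap_apply_right, Equiv.swap_apply_of_ne_of_ne]
      · exact fun h => (ha i₀ (Or.inl rfl)).1 h.symm
      · exact fun h => (ha i₀.rev (Or.inr rfl)).1 h.symm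
    have t4 : ∀ i, i ≠ i₀ → i ≠ i₀.rev → i ≠ m1 → i ≠ m2 →
        (Equiv.swap i₀ i₀.rev * Equiv.swap m1 m2) i = i := by
      intro i h1 h2 h3 h4
      rw [Equiv.Perm.mul_apply, Equiv.swap_apply_of_ne_of_ne h3 h4,
        Equiv.swap_apply_of_ne_of_ne h1 h2]
    refine ⟨Equiv.swap i₀ i₀.rev * Equiv.swap m1 m2, fun _ => 1, ?_, ?_, ?_, ?_, ?_, t0, t1, ?_⟩
    · intro i
      by_cases h1 : i = i₀
      · rw [h1, t0, t1]
      by_cases h2 : i = i₀.rev
      · rw [h2, t1, t0]
      by_cases h3 : i = m1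
      · rw [h3, t2, t3]
      by_cases h4 : i = m2
      · rw [h4, t3, t2]
      rw [t4 i h1 h2 h3 h4, t4 i h1 h2 h3 h4]
    · intro i
      rw [Equiv.Perm.mul_apply, Equiv.Perm.mul_apply, hswap m1 m2 hm1, hswap i₀ i₀.rev rfl]
    · intro i
      exact one_mul 1
    · intro i
      exact one_ne_zero
    · rw [Finset.prod_const_one, one_mul, Equiv.Perm.sign_mul, Equiv.Perm.sign_swap hne,
        Equiv.Perm.sign_swap hm12]
      norm_num
    · intro i h1 h2
      by_cases h3 : i = m1
      · right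
        refine ⟨⟨c, hc⟩, Or.inl ⟨?_, ?_⟩⟩
        · rw [h3, hm1]
          change c - 1 + 1 = c
          omega
        · rw [h3, t2, hm1]
      by_cases h4 : i = m2
      · right
        refine ⟨⟨c, hc⟩, Or.inr ⟨?_, ?_⟩⟩
        · rw [h4, hm1r]
          change c - 1 + 1 = c
          omega
        · rw [h4, t3, hm1r]
      left
      exact t4 i h1 h2 h3 h4
  · obtain ⟨c, hc⟩ := hodd
    let m : Fin n := ⟨c, by omega⟩
    have hm : ∀ i : Fin n, i = i.rev ↔ i = m := by
      intro i
      constructor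
      · intro h
        have h' := congrArg Fin.val h
        rw [Fin.val_rev] at h'
        apply Fin.ext
        change (i : ℕ) = c
        have := i.isLt
        omega
      · rintro rfl
        apply Fin.ext
        rw [Fin.val_rev]
        change c = n - (c + 1)
        omega
    refine ⟨Equiv.swap i₀ i₀.rev, fun i => if i = i.rev then -1 else 1, ?_, ?_, ?_, ?_, ?_,
      Equiv.swap_apply_left _ _, Equiv.swap_apply_right _ _, ?_⟩
    · intro i
      rw [← Equiv.Perm.mul_apply, Equiv.swap_mul_self]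
      rfl
    · exact hswap i₀ i₀.rev rfl
    · intro i
      have e : (i.rev = i.rev.rev) ↔ (i = i.rev) := by
        rw [Fin.rev_rev]
        exact eq_comm
      by_cases h : i = i.rev
      · simp only [if_pos h, if_pos (e.mpr h)]
        norm_num
      · simp only [if_neg h, if_neg (fun h' => h (e.mp h'))]
        norm_num
    · intro i
      by_cases h : i = i.rev
      · simp only [if_pos h]
        norm_num
      · simp only [if_neg h]
        norm_num
    · have e : (∏ i : Fin n, (if i = i.rev then (-1 : ℂ) else 1)) = -1 := by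
        simp only [hm]
        rw [Finset.prod_ite_eq' Finset.univ m (fun _ => (-1 : ℂ)), if_pos (Finset.mem_univ _)]
      rw [e, Equiv.Perm.sign_swap hne]
      norm_num
    · intro i h1 h2
      left
      exact Equiv.swap_apply_of_ne_of_ne h1 h2

theorem exists_refl (hk : ∀ b, (k b).Ok) (l : Ind k) (hev : Even (k l.1).wt)
    (hlt : l.2 < l.2.rev) (hmid : (l.2 : ℕ) + 1 ≠ (l.2.rev : ℕ)) :
    ∃ (M : Matrix (Ind k) (Ind k) ℂ) (σ : Equiv.Perm (Ind k)) (ζ : Ind k → ℂ), InG k 1 M ∧
      (∀ x y, M x y = if y = σ x then ζ x else 0) ∧ (∀ z, ζ z ≠ 0) ∧ (∀ z, σ (σ z) = z) ∧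
      σ l = op l ∧ σ (op l) = l ∧ ∀ r, r ≠ l → r ≠ op l → ht (σ r) = ht r := by
  obtain ⟨b₀, i₀⟩ := l
  obtain ⟨τ, ζ, h1, h2, h3, h4, h5, h6, h7, h8⟩ := refl_perm (k b₀).dim i₀ hlt hmid
  let F : ∀ b, Equiv.Perm (Fin (k b).dim) := Function.update (fun _ => 1) b₀ τ
  let Z : ∀ b, Fin (k b).dim → ℂ := Function.update (fun _ _ => 1) b₀ ζ
  have hF : F b₀ = τ := Function.update_self _ _ _
  have hZ : Z b₀ = ζ := Function.update_self _ _ _
  have hF' : ∀ b, b ≠ b₀ → F b = 1 := fun b hb => Function.update_of_ne hb _ _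
  have hZ' : ∀ b, b ≠ b₀ → Z b = fun _ => 1 := fun b hb => Function.update_of_ne hb _ _
  have H1 : ∀ b i, F b (F b i) = i := by
    intro b i
    by_cases hb : b = b₀
    · subst hb
      rw [hF, h1]
    · rw [hF' b hb]
      rfl
  have H2 : ∀ b i, F b i.rev = (F b i).rev := by
    intro b i
    by_cases hb : b = b₀
    · subst hb
      rw [hF, h2]
    · rw [hF' b hb]
      rfl
  have H3 : ∀ b i, eps (k := k) ⟨b, F b i⟩ = eps (k := k) ⟨b, i⟩ := by
    intro b i
    by_cases hb : b = b₀
    · subst hb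
      have hev' : Even (k b).wt := hev
      unfold eps
      rw [if_pos hev', if_pos hev']
    · rw [hF' b hb]
      rfl
  have H4 : ∀ b i, Z b i * Z b i.rev = 1 := by
    intro b i
    by_cases hb : b = b₀
    · subst hb
      rw [hZ, h3]
    · rw [hZ' b hb]
      exact one_mul 1
  have H5 : ∀ b, (∏ i, Z b i) * ((Equiv.Perm.sign (F b) : ℤ) : ℂ) = 1 := by
    intro b
    by_cases hb : b = b₀
    · subst hb
      rw [hZ, hF, h5]
    · rw [hZ' b hb, hF' b hb]
      simp
  refine ⟨_, Equiv.sigmaCongrRight F, fun z => Z z.1 z.2, refl_inG F Z H1 H2 H3 H4 H5,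
    fun x y => rfl, ?_, ?_, ?_, ?_, ?_⟩
  · rintro ⟨b, i⟩
    change Z b i ≠ 0
    by_cases hb : b = b₀
    · subst hb
      rw [hZ]
      exact h4 i
    · rw [hZ' b hb]
      exact one_ne_zero
  · rintro ⟨b, i⟩
    change (⟨b, F b (F b i)⟩ : Ind k) = ⟨b, i⟩
    rw [H1]
  · change (⟨b₀, F b₀ i₀⟩ : Ind k) = ⟨b₀, i₀.rev⟩
    rw [hF, h6]
  · change (⟨b₀, F b₀ i₀.rev⟩ : Ind k) = ⟨b₀, i₀⟩
    rw [hF, h7]
  · rintro ⟨b, i⟩ hr1 hr2
    change ht (k := k) ⟨b, F b i⟩ = ht ⟨b, i⟩
    by_cases hb : b = b₀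
    · subst hb
      rw [hF]
      have hi1 : i ≠ i₀ := fun h => hr1 (by rw [h])
      have hi2 : i ≠ i₀.rev := fun h => hr2 (by rw [h]; rfl)
      have hev' : Even (k b).wt := hev
      rcases h8 i hi1 hi2 with h | ⟨hn, ⟨h, h'⟩ | ⟨h, h'⟩⟩
      · rw [h]
      · have e : ∀ i : Fin (k b).dim, ht (k := k) ⟨b, i⟩ =
            if i < i.rev then ((i.rev : ℕ) : ℤ) - ((i : ℕ) : ℤ) - 1
            else ((i.rev : ℕ) : ℤ) - ((i : ℕ) : ℤ) + 1 := fun i => if_pos ⟨hev', hn⟩
        rw [h']
        have hlt1 : i < i.rev := by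
          rw [Fin.lt_def]
          omega
        have hlt2 : ¬ (i.rev < i.rev.rev) := by
          rw [Fin.rev_rev]
          exact not_lt.mpr hlt1.le
        rw [e, e, if_neg hlt2, if_pos hlt1, Fin.rev_rev]
        omega
      · have e : ∀ i : Fin (k b).dim, ht (k := k) ⟨b, i⟩ =
            if i < i.rev then ((i.rev : ℕ) : ℤ) - ((i : ℕ) : ℤ) - 1
            else ((i.rev : ℕ) : ℤ) - ((i : ℕ) : ℤ) + 1 := fun i => if_pos ⟨hev', hn⟩
        rw [h']
        have hlt1 : i.rev < i := by
          rw [Fin.lt_def]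
          omega
        have hlt2 : i.rev < i.rev.rev := by
          rw [Fin.rev_rev]
          exact hlt1
        rw [e, e, if_pos hlt2, if_neg (not_lt.mpr hlt1.le), Fin.rev_rev]
        omega
    · rw [hF' b hb]
      rfl

/-- The action of a monomial matrix. -/
lemma rho_monomial {ι : Type} [Fintype ι] [DecidableEq ι] {L : Type} [Fintype L] [DecidableEq L]
    (M : Matrix L L ℂ) (σ : Equiv.Perm L) (ζ : L → ℂ)
    (hM : ∀ x y, M x y = if y = σ x then ζ x else 0) (u : Ten ι L) (y : ι → L) :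
    rho Finset.univ M u y = (∏ p, ζ (y p)) * u (fun p => σ (y p)) := by
  rw [rho_apply, Finset.sum_eq_single (fun p => σ (y p))]
  · congr 1
    apply Finset.prod_congr rfl
    intro p _
    rw [if_pos (Finset.mem_univ p), hM, if_pos rfl]
  · intro z _ hz
    obtain ⟨p, hp⟩ := Function.ne_iff.mp hz
    rw [Finset.prod_eq_zero (Finset.mem_univ p), zero_mul]
    rw [if_pos (Finset.mem_univ p), hM, if_neg hp]
  · intro h
    exact absurd (Finset.mem_univ _) h

end Pool.Agent.Helper48.SP
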