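import Pool.Agent.Helper48.SP.Height
import Pool.Agent.Helper48.SP.Refl

/-!
# SP-M4: dominance

`rho M v ∈ U` for the reflection `M` of `exists_refl`; by `rho_monomial` its coefficient at
`y' = σ ∘ y` is `(∏ ζ) * v y ≠ 0`, so `height y' ≤ height y0 = height y` (`height_eq`), and
`height y' = height y - 2 * ht l * (cnt y l - cnt y (op l))`, with `ht l > 0`.
-/

set_option autoImplicit false

namespace Pool.Agent.Helper48.SP

open Pool.Agent.Helper48.GC8

variable {B : Type} {k : B → Blk} [Fintype B] [DecidableEq B] {ι : Type} [Fintype ι]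
  [DecidableEq ι]

theorem dom_part (hk : ∀ b, (k b).Ok) {U : Submodule ℂ (Ten ι (Ind k))} (hU : PW.Stab (InG k) U)
    {y0 : ι → Ind k} (hmax : ∀ u ∈ U, ∀ y, u y ≠ 0 → height y ≤ height y0) {v : Ten ι (Ind k)}
    (hv : v ∈ U) {y : ι → Ind k} (hy : v y ≠ 0) (hy0 : tw y = tw y0) {l : Ind k}
    (hev : Even (k l.1).wt) (hlt : l.2 < l.2.rev) (hmid : (l.2 : ℕ) + 1 ≠ (l.2.rev : ℕ)) :
    cnt y (op l) ≤ cnt y l := by
  obtain ⟨M, σ, ζ, hM, hMe, hζ, hσ2, hσl, hσo, hσr⟩ := exists_refl hk l hev hlt hmid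
  have hlt' : (l.2 : ℕ) < (l.2.rev : ℕ) := hlt
  have hne : op l ≠ l := by
    intro h
    have h1 := congrArg (fun x : Ind k => (x.2 : ℕ)) h
    have h2 : (l.2.rev : ℕ) = (l.2 : ℕ) := h1
    omega
  have hht : 0 < ht l := by
    unfold ht
    split_ifs with h1
    · have h2 : (((l.2.rev : ℕ) : ℤ)) > ((l.2 : ℕ) : ℤ) := by exact_mod_cast hlt'
      have h3 : (((l.2.rev : ℕ) : ℤ)) ≠ ((l.2 : ℕ) : ℤ) + 1 := by
        intro h
        apply hmid
        exact_mod_cast h.symm
      omega
    · have h2 : (((l.2.rev : ℕ) : ℤ)) > ((l.2 : ℕ) : ℤ) := by exact_mod_cast hlt'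
      omega
  have h1 : rho Finset.univ M v (fun p => σ (y p)) ≠ 0 := by
    rw [rho_monomial M σ ζ hMe]
    refine mul_ne_zero (Finset.prod_ne_zero_iff.2 fun p _ => hζ _) ?_
    have e : (fun p => σ (σ (y p))) = y := funext fun p => hσ2 _
    rw [e]
    exact hy
  have h2 : height (fun p => σ (y p)) ≤ height y0 := hmax _ (hU 1 M hM v hv) _ h1
  have h3 : height y = height y0 := by
    have e1 := height_eq y
    have e2 := height_eq y0
    rw [hy0, ← e2] at e1
    omega
  have h4 : ∀ p, ht (σ (y p)) = ht (y p) + (if y p = l then -(2 * ht l) else 0) +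
      (if y p = op l then 2 * ht l else 0) := by
    intro p
    by_cases hp : y p = l
    · rw [hp, hσl, ht_op, if_pos rfl, if_neg hne.symm]
      ring
    · rw [if_neg hp]
      by_cases hp' : y p = op l
      · rw [hp', hσo, ht_op, if_pos rfl]
        ring
      · rw [if_neg hp', hσr _ hp hp']
        ring
  have h5 : height (fun p => σ (y p)) = height y - 2 * ht l * (cnt y l : ℤ) +
      2 * ht l * (cnt y (op l) : ℤ) := by
    unfold height cnt
    simp only [h4]
    rw [Finset.sum_add_distrib, Finset.sum_add_distrib, ← Finset.sum_filter, ← Finset.sum_filter,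
      Finset.sum_const, Finset.sum_const, nsmul_eq_mul, nsmul_eq_mul]
    ring
  rw [h5, h3] at h2
  have h6 : ht l * (cnt y (op l) : ℤ) ≤ ht l * (cnt y l : ℤ) := by linarith
  have h7 := le_of_mul_le_mul_left h6 hht
  exact_mod_cast h7

end Pool.Agent.Helper48.SP
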