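import Pool.Agent.Helper48.SP.AltSpan
import Pool.Agent.Helper48.SP.Stab
import Pool.Agent.Helper48.SP.Deg
import Pool.Agent.Helper60.GTC.DivEff

/-!
# SP-E3: the products of pieces are effective

Let `M` be a semisimple similitude with multiplier `q`, and assume that for every block and every
`j`, every eigenvalue `β` of `M` on the alternating tensors in `V_b^(⊗ j)` satisfies
`β / q ^ nu j` and `q ^ (j * wt - nu j) / β` integral. Then every eigenvalue `β` of `M` on
`D ν ⊓ deg i` satisfies `β / q ^ ν` and `q ^ (i - ν) / β` integral.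
Proof: `D ν` is spanned by the products `T = ∏ a, t a` of pieces which are eigenvectors of `M`
(`alt_span`, expand the product; the invariant tensor has the eigenvalue `q ^ wt`, `InGO.symm`), so
`T` is an eigenvector with the product of the eigenvalues `β a` (`rho_prod`); if `T ≠ 0` its words all
have the same degree `i' = ∑ a, (card of the fibre a) * wt`, and `β = ∏ β a` is as claimed for `i'`,
with `∑ a, v a ≥ ν`, `v a ≤ card * wt` (transport `t a` to `Fin j` by `Fintype.equivFin`). The
component of degree `i` of an element of `D ν` is the sum of the components `T` of degree `i`. An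
eigenvector in the span of eigenvectors `T` has one of their eigenvalues
(`Pool.Agent.Helper60.GTC.eig_of_span`).
-/

set_option autoImplicit false

namespace Pool.Agent.Helper48.SP

open Pool.Agent.Helper48.GC8

/-! ### Products of spans -/

private lemma h42_prod_upd {L A ι : Type} [Fintype A] [DecidableEq A] (c : ι → A)
    (t : ∀ a, Ten {p // c p = a} L) (a0 : A) (x : Ten {p // c p = a0} L) (y : ι → L) :
    ∏ a, (Function.update t a0 x) a (fun p => y p) =
      x (fun p => y p) * ∏ a ∈ Finset.univ.erase a0, t a (fun p => y p) := by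
  rw [← Finset.mul_prod_erase _ _ (Finset.mem_univ a0), Function.update_self]
  congr 1
  refine Finset.prod_congr rfl fun a ha => ?_
  rw [Function.update_of_ne (Finset.ne_of_mem_erase ha)]

private lemma h42_prod_span {L A ι : Type} [Fintype A] [DecidableEq A] (c : ι → A)
    (S : ∀ a, Set (Ten {p // c p = a} L)) (t : ∀ a, Ten {p // c p = a} L)
    (ht : ∀ a, t a ∈ Submodule.span ℂ (S a)) :
    (fun y : ι → L => ∏ a, t a (fun p => y p)) ∈ Submodule.span ℂ {T : Ten ι L |
      ∃ t' : ∀ a, Ten {p // c p = a} L, (∀ a, t' a ∈ S a) ∧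
        T = fun y => ∏ a, t' a (fun p => y p)} := by
  set W : Submodule ℂ (Ten ι L) := Submodule.span ℂ {T : Ten ι L |
      ∃ t' : ∀ a, Ten {p // c p = a} L, (∀ a, t' a ∈ S a) ∧
        T = fun y => ∏ a, t' a (fun p => y p)} with hW
  have key : ∀ (A' : Finset A) (t : ∀ a, Ten {p // c p = a} L),
      (∀ a ∈ A', t a ∈ Submodule.span ℂ (S a)) → (∀ a ∉ A', t a ∈ S a) →
      (fun y : ι → L => ∏ a, t a (fun p => y p)) ∈ W := by
    intro A'
    induction A' using Finset.induction_on with
    | empty =>
      intro t _ h2
      exact Submodule.subset_span ⟨t, fun a => h2 a (Finset.notMem_empty a), rfl⟩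
    | insert a0 A' ha0 ih =>
      intro t h1 h2
      have h3 : ∀ x ∈ Submodule.span ℂ (S a0),
          (fun y : ι → L => ∏ a, (Function.update t a0 x) a (fun p => y p)) ∈ W := by
        intro x hx
        induction hx using Submodule.span_induction with
        | mem x hx =>
          apply ih
          · intro a ha
            have h4 : a ≠ a0 := by
              rintro rfl
              exact ha0 ha
            rw [Function.update_of_ne h4]
            exact h1 a (Finset.mem_insert_of_mem ha)
          · intro a ha
            by_cases h : a = a0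
            · subst h
              rw [Function.update_self]
              exact hx
            · rw [Function.update_of_ne h]
              exact h2 a (by simp [h, ha])
        | zero =>
          have h4 : (fun y : ι → L => ∏ a, (Function.update t a0 0) a (fun p => y p)) = 0 := by
            funext y
            rw [h42_prod_upd]
            simp
          rw [h4]
          exact Submodule.zero_mem _
        | add x1 x2 _ _ hx1 hx2 =>
          have h4 : (fun y : ι → L => ∏ a, (Function.update t a0 (x1 + x2)) a (fun p => y p)) =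
              (fun y : ι → L => ∏ a, (Function.update t a0 x1) a (fun p => y p)) +
                (fun y : ι → L => ∏ a, (Function.update t a0 x2) a (fun p => y p)) := by
            funext y
            rw [Pi.add_apply, h42_prod_upd, h42_prod_upd, h42_prod_upd, Pi.add_apply, add_mul]
          rw [h4]
          exact Submodule.add_mem _ hx1 hx2
        | smul s x _ hx =>
          have h4 : (fun y : ι → L => ∏ a, (Function.update t a0 (s • x)) a (fun p => y p)) =
              s • (fun y : ι → L => ∏ a, (Function.update t a0 x) a (fun p => y p)) := by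
            funext y
            rw [Pi.smul_apply, h42_prod_upd, h42_prod_upd, Pi.smul_apply, smul_mul_assoc]
          rw [h4]
          exact Submodule.smul_mem _ _ hx
      have h5 := h3 (t a0) (h1 a0 (Finset.mem_insert_self _ _))
      rwa [Function.update_eq_self] at h5
  exact key Finset.univ t (fun a _ => ht a) (fun a ha => absurd (Finset.mem_univ a) ha)

variable {B : Type} {k : B → Blk} [Fintype B] [DecidableEq B]

/-! ### The sum of the first slopes -/

private lemma h42_nu_le {b : Blk} (hb : b.Ok) (j : ℕ) : b.nu j ≤ j * b.wt := by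
  unfold Blk.nu
  rw [← Finset.sum_filter]
  have h1 : ∀ i ∈ Finset.univ.filter (fun i : Fin b.dim => (i : ℕ) < j), b.slope i ≤ b.wt := by
    intro i _
    have := hb.dual i
    omega
  refine (Finset.sum_le_card_nsmul _ _ _ h1).trans ?_
  rw [smul_eq_mul]
  refine Nat.mul_le_mul_right _ ?_
  have h2 : (Finset.univ.filter (fun i : Fin b.dim => (i : ℕ) < j)).card =
      ((Finset.univ.filter (fun i : Fin b.dim => (i : ℕ) < j)).image Fin.val).card := by
    rw [Finset.card_image_of_injective _ Fin.val_injective]
  rw [h2]
  refine (Finset.card_le_card (t := Finset.range j) ?_).trans (by simp)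
  intro x hx
  obtain ⟨i, hi, rfl⟩ := Finset.mem_image.1 hx
  exact Finset.mem_range.2 (Finset.mem_filter.1 hi).2

/-! ### Pieces which are eigenvectors -/

/-- an eigenvector in the tensors of one block, with good eigenvalue -/
private def h42_G (q : ℕ) (M : Matrix (Ind k) (Ind k) ℂ) {S : Type} [Fintype S] [DecidableEq S]
    (v : ℕ) (t : Ten S (Ind k)) : Prop :=
  ∃ (b : B) (β : ℂ), (∀ y, t y ≠ 0 → ∀ p, (y p).1 = b) ∧ rho Finset.univ M t = β • t ∧
    (t ≠ 0 → IsIntegral ℤ (β / (q : ℂ) ^ v) ∧
      IsIntegral ℤ ((q : ℂ) ^ (Fintype.card S * (k b).wt - v) / β) ∧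
        v ≤ Fintype.card S * (k b).wt)

private lemma h42_inv (hk : ∀ b, (k b).Ok) {q : ℂ} {M : Matrix (Ind k) (Ind k) ℂ}
    (hM : InGO k q M) {S : Type} [Fintype S] [DecidableEq S] {t : Ten S (Ind k)} {b : B} {p r : S}
    (hpr : p ≠ r) (hS : ∀ s, s = p ∨ s = r) (ht : ∀ y, t y = frm k b (y p) (y r)) :
    rho Finset.univ M t = q ^ (k b).wt • t := by
  funext x
  rw [rho_univ_apply, Pi.smul_apply, ht, smul_eq_mul]
  have h1 := congrFun (congrFun (hM.symm hk b) (x p)) (x r)
  rw [Matrix.smul_apply, smul_eq_mul] at h1
  rw [← h1, Matrix.mul_apply]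
  simp only [Matrix.mul_apply, Matrix.transpose_apply, Finset.sum_mul]
  rw [← Fintype.sum_prod_type' (f := fun l' l : Ind k => M (x p) l * frm k b l l' * M (x r) l')]
  symm
  refine Fintype.sum_bijective (fun z : Ind k × Ind k => fun s => if s = p then z.2 else z.1)
    ⟨?_, ?_⟩ _ _ ?_
  · intro z z' h
    have h2 := congrFun h p
    have h3 := congrFun h r
    simp only [if_true, if_neg hpr.symm] at h2 h3
    exact Prod.ext h3 h2
  · intro y
    refine ⟨(y r, y p), ?_⟩
    funext s
    rcases hS s with rfl | rfl
    · simp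
    · simp [hpr.symm]
  · intro z
    have huniv : (Finset.univ : Finset S) = {p, r} := by
      ext s
      simpa using hS s
    rw [huniv, Finset.prod_pair hpr, ht]
    simp only [if_true, if_neg hpr.symm]
    ring

/-- transport along an equivalence -/
private lemma h42_rho_comp {S S' : Type} [Fintype S] [DecidableEq S] [Fintype S'] [DecidableEq S']
    (e : S ≃ S') (M : Matrix (Ind k) (Ind k) ℂ) (t : Ten S (Ind k)) :
    rho Finset.univ M (fun y : S' → Ind k => t (y ∘ e)) =
      fun y : S' → Ind k => rho Finset.univ M t (y ∘ e) := by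
  funext x
  rw [rho_univ_apply, rho_univ_apply]
  refine Fintype.sum_bijective (fun y : S' → Ind k => y ∘ e) ?_ _ _ ?_
  · exact (Equiv.arrowCongr e.symm (Equiv.refl (Ind k))).bijective
  · intro y
    congr 1
    exact (Fintype.prod_equiv e _ _ fun s => rfl).symm

omit [Fintype B] [DecidableEq B] in
private lemma h42_isAlt_comp {S S' : Type} [DecidableEq S] [DecidableEq S'] (e : S ≃ S') {b : B}
    {t : Ten S (Ind k)} (h : IsAlt b t) : IsAlt b (fun y : S' → Ind k => t (y ∘ e)) where
  supp := by
    intro y hy p
    have := h.supp _ hy (e.symm p)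
    simpa using this
  alt := by
    intro y p q hpq
    have h1 := h.alt (y ∘ e) (e.symm p) (e.symm q) (fun h' => hpq (e.symm.injective h'))
    rw [← h1]
    congr 1
    funext s
    simp only [Function.comp_apply]
    congr 1
    simp only [Equiv.swap_apply_def]
    by_cases h2 : s = e.symm p
    · subst h2
      simp
    · by_cases h3 : s = e.symm q
      · subst h3
        simp only [Equiv.apply_symm_apply]
        by_cases h4 : q = p
        · exact absurd h4.symm hpq
        · have h5 : e.symm q ≠ e.symm p := fun h' => h4 (e.symm.injective h')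
          simp [h4, h5]
      · have h4 : e s ≠ p := fun h' => h2 (by rw [← h', Equiv.symm_apply_apply])
        have h5 : e s ≠ q := fun h' => h3 (by rw [← h', Equiv.symm_apply_apply])
        simp [h2, h3, h4, h5]

private lemma h42_piece_span (hk : ∀ b, (k b).Ok) {q : ℕ} (hq : q ≠ 0)
    {M : Matrix (Ind k) (Ind k) ℂ} (hM : InGO k (q : ℂ) M)
    (hss : Module.End.IsSemisimple (Matrix.toLin' M))
    (halt : ∀ (b : B) (j : ℕ) (t : Ten (Fin j) (Ind k)), IsAlt b t → t ≠ 0 → ∀ β : ℂ,
      rho Finset.univ M t = β • t → IsIntegral ℤ (β / (q : ℂ) ^ (k b).nu j) ∧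
        IsIntegral ℤ ((q : ℂ) ^ (j * (k b).wt - (k b).nu j) / β))
    {S : Type} [Fintype S] [DecidableEq S] {t : Ten S (Ind k)} {v : ℕ} (h : IsPiece t v) :
    t ∈ Submodule.span ℂ {t' : Ten S (Ind k) | h42_G q M v t'} := by
  have hq0 : (q : ℂ) ≠ 0 := Nat.cast_ne_zero.2 hq
  rcases h with ⟨b, hb, rfl⟩ | ⟨b, p, r, hpr, hS, ht, rfl⟩
  · refine Submodule.span_mono ?_ (alt_span hM hss hb)
    rintro t' ⟨h1, β, h2⟩
    refine ⟨b, β, h1.supp, h2, fun h0 => ?_⟩
    let e := Fintype.equivFin S
    have h3 := halt b (Fintype.card S) (fun y => t' (y ∘ e)) (h42_isAlt_comp e h1) (by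
      intro h4
      apply h0
      funext y
      have h5 := congrFun h4 (y ∘ e.symm)
      simpa [Function.comp_assoc] using h5) β (by
      rw [h42_rho_comp, h2]
      rfl)
    exact ⟨h3.1, h3.2, h42_nu_le (hk b) _⟩
  · refine Submodule.subset_span ⟨b, (q : ℂ) ^ (k b).wt, ?_, h42_inv hk hM hpr hS ht, fun _ => ?_⟩
    · intro y hy s
      rw [ht, frm_apply] at hy
      split_ifs at hy with h1
      · rcases hS s with rfl | rfl
        · exact h1.1
        · rw [h1.2]
          exact h1.1
      · exact absurd rfl hy
    · have hcard : Fintype.card S = 2 := by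
        have huniv : (Finset.univ : Finset S) = {p, r} := by
          ext s
          simpa using hS s
        rw [← Finset.card_univ, huniv, Finset.card_pair hpr]
      have h2 : 2 * (k b).wt - (k b).wt = (k b).wt := by omega
      rw [hcard, h2, div_self (pow_ne_zero _ hq0)]
      exact ⟨isIntegral_one, isIntegral_one, by omega⟩

/-- the component of degree `i` -/
private def h42_pr (ι : Type) [Fintype ι] (i : ℕ) : Ten ι (Ind k) →ₗ[ℂ] Ten ι (Ind k) where
  toFun u := fun y => if ∑ p, (k (y p).1).wt = i then u y else 0
  map_add' u v := by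
    funext y
    simp only [Pi.add_apply]
    split_ifs <;> simp
  map_smul' c u := by
    funext y
    simp only [Pi.smul_apply, RingHom.id_apply]
    split_ifs <;> simp

theorem eigen_D (hk : ∀ b, (k b).Ok) {q : ℕ} (hq : q ≠ 0) {M : Matrix (Ind k) (Ind k) ℂ}
    (hM : InGO k (q : ℂ) M) (hss : Module.End.IsSemisimple (Matrix.toLin' M))
    (halt : ∀ (b : B) (j : ℕ) (t : Ten (Fin j) (Ind k)), IsAlt b t → t ≠ 0 → ∀ β : ℂ,
      rho Finset.univ M t = β • t → IsIntegral ℤ (β / (q : ℂ) ^ (k b).nu j) ∧
        IsIntegral ℤ ((q : ℂ) ^ (j * (k b).wt - (k b).nu j) / β))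
    {ι : Type} [Fintype ι] [DecidableEq ι] {i ν : ℕ} {u : Ten ι (Ind k)} (hu : u ∈ D k ι ν)
    (hi : u ∈ deg k ι i) (h0 : u ≠ 0) {β : ℂ} (hβ : rho Finset.univ M u = β • u) :
    IsIntegral ℤ (β / (q : ℂ) ^ ν) ∧ IsIntegral ℤ ((q : ℂ) ^ (i - ν) / β) := by
  have hq0 : (q : ℂ) ≠ 0 := Nat.cast_ne_zero.2 hq
  set E : Set ℂ := {μ | IsIntegral ℤ (μ / (q : ℂ) ^ ν) ∧ IsIntegral ℤ ((q : ℂ) ^ (i - ν) / μ)}
    with hE
  set W : Submodule ℂ (Ten ι (Ind k)) :=
    Submodule.span ℂ {y | ∃ μ ∈ E, rho Finset.univ M y = μ • y} with hW
  -- the generators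
  have h1 : ∀ (r : ℕ) (c : ι → Fin r) (t : ∀ a, Ten {p // c p = a} (Ind k)) (v : Fin r → ℕ),
      (∀ a, h42_G q M (v a) (t a)) → ν ≤ ∑ a, v a →
        h42_pr ι i (fun y => ∏ a, t a (fun p => y p)) ∈ W := by
    intro r c t v ht hv
    by_cases hT : (fun y : ι → Ind k => ∏ a, t a (fun p => y p)) = 0
    · rw [hT, map_zero]
      exact Submodule.zero_mem _
    · choose b β' hb hβ' hg using ht
      have hne : ∀ a, t a ≠ 0 := by
        intro a ha
        apply hT
        funext y
        exact Finset.prod_eq_zero (Finset.mem_univ a) (by rw [ha]; rfl)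
      -- the degree
      have hdeg : ∀ y : ι → Ind k, ∏ a, t a (fun p => y p) ≠ 0 →
          ∑ p, (k (y p).1).wt = ∑ a, Fintype.card {p // c p = a} * (k (b a)).wt := by
        intro y hy
        rw [← Finset.sum_fiberwise (s := Finset.univ) (g := c)]
        refine Finset.sum_congr rfl fun a _ => ?_
        have hy' : t a (fun p => y p) ≠ 0 := fun h' => hy (Finset.prod_eq_zero (Finset.mem_univ a) h')
        rw [Finset.sum_congr rfl (g := fun _ => (k (b a)).wt)]
        · rw [Finset.sum_const, smul_eq_mul, Fintype.card_subtype]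
        · intro p hp
          have := hb a _ hy' ⟨p, (Finset.mem_filter.1 hp).2⟩
          rw [this]
      by_cases hii : ∑ a, Fintype.card {p // c p = a} * (k (b a)).wt = i
      · have h2 : h42_pr ι i (fun y : ι → Ind k => ∏ a, t a (fun p => y p)) =
            fun y => ∏ a, t a (fun p => y p) := by
          funext y
          change (if ∑ p, (k (y p).1).wt = i then ∏ a, t a (fun p => y p) else 0) = _
          by_cases hy : ∏ a, t a (fun p => y p) = 0
          · rw [hy]
            split_ifs <;> rfl
          · rw [if_pos ((hdeg y hy).trans hii)]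
        rw [h2]
        have hle : ∀ a, v a ≤ Fintype.card {p // c p = a} * (k (b a)).wt := fun a =>
          (hg a (hne a)).2.2
        refine Submodule.subset_span ⟨∏ a, β' a, ⟨?_, ?_⟩, ?_⟩
        · have h3 : (∏ a, β' a) / (q : ℂ) ^ ν =
              (∏ a, β' a / (q : ℂ) ^ v a) * (q : ℂ) ^ (∑ a, v a - ν) := by
            rw [Finset.prod_div_distrib, Finset.prod_pow_eq_pow_sum, div_mul_eq_mul_div,
              div_eq_div_iff (pow_ne_zero _ hq0) (pow_ne_zero _ hq0), mul_assoc, ← pow_add,
              Nat.sub_add_cancel hv]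
          rw [h3]
          refine IsIntegral.mul (IsIntegral.prod _ fun a _ => (hg a (hne a)).1) ?_
          exact IsIntegral.pow (isIntegral_natCast q) _
        · have h3 : (q : ℂ) ^ (i - ν) / (∏ a, β' a) =
              (∏ a, (q : ℂ) ^ (Fintype.card {p // c p = a} * (k (b a)).wt - v a) / β' a) *
                (q : ℂ) ^ (∑ a, v a - ν) := by
            rw [Finset.prod_div_distrib, Finset.prod_pow_eq_pow_sum, div_mul_eq_mul_div, ← pow_add]
            congr 2
            have h4 : ∑ a, (Fintype.card {p // c p = a} * (k (b a)).wt - v a) + ∑ a, v a = i := by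
              rw [← Finset.sum_add_distrib, ← hii]
              exact Finset.sum_congr rfl fun a _ => Nat.sub_add_cancel (hle a)
            omega
          rw [h3]
          refine IsIntegral.mul (IsIntegral.prod _ fun a _ => (hg a (hne a)).2.1) ?_
          exact IsIntegral.pow (isIntegral_natCast q) _
        · rw [rho_prod]
          funext y
          rw [Pi.smul_apply, smul_eq_mul, ← Finset.prod_mul_distrib]
          refine Finset.prod_congr rfl fun a _ => ?_
          rw [hβ' a]
          rfl
      · have h2 : h42_pr ι i (fun y : ι → Ind k => ∏ a, t a (fun p => y p)) = 0 := by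
          funext y
          change (if ∑ p, (k (y p).1).wt = i then ∏ a, t a (fun p => y p) else 0) = _
          by_cases hy : ∏ a, t a (fun p => y p) = 0
          · rw [hy]
            split_ifs <;> rfl
          · rw [if_neg fun h' => hii ((hdeg y hy).symm.trans h')]
            rfl
        rw [h2]
        exact Submodule.zero_mem _
  have h2 : D k ι ν ≤ W.comap (h42_pr ι i) := by
    refine Submodule.span_le.2 ?_
    rintro _ ⟨r, c, t, v, ht, hv, rfl⟩
    have h3 := h42_prod_span c (fun a => {t' | h42_G q M (v a) t'}) t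
      (fun a => h42_piece_span hk hq hM hss halt (ht a))
    refine Submodule.span_le.2 ?_ h3
    rintro _ ⟨t', ht', rfl⟩
    exact h1 r c t' v ht' hv
  have h3 : h42_pr ι i u = u := by
    funext y
    change (if ∑ p, (k (y p).1).wt = i then u y else 0) = u y
    by_cases hy : u y = 0
    · rw [hy]
      split_ifs <;> rfl
    · rw [if_pos (hi y hy)]
  have h4 : u ∈ W := by
    have := h2 hu
    rwa [Submodule.mem_comap, h3] at this
  exact Pool.Agent.Helper60.GTC.eig_of_span (rho Finset.univ M) E h4 h0 hβ

end Pool.Agent.Helper48.SP
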