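import Pool.Agent.Helper48.SP.Defs

/-!
# SP-F1: the form, elementary facts

`frm k b` has the entry `eps l` at `(l, op l)`, `l` in the block `b`. `eps_op`: by cases on the parity
of the weight; for odd weight the dimension is even, so `l.2 ≠ l.2.rev`.
-/

set_option autoImplicit false

namespace Pool.Agent.Helper48.SP

open Pool.Agent.Helper48.GC8

variable {B : Type} {k : B → Blk}

lemma op_op (l : Ind k) : op (op l) = l := by
  unfold op
  simp

lemma op_fst (l : Ind k) : (op l).1 = l.1 := rfl

lemma eps_sq (l : Ind k) : eps l * eps l = 1 := by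
  unfold eps
  split_ifs <;> norm_num

lemma star_eps (l : Ind k) : star (eps l) = eps l := by
  unfold eps
  split_ifs <;> simp

lemma sg_sq (b : B) : sg k b * sg k b = 1 := by
  unfold sg
  split_ifs <;> norm_num

lemma eps_op (hk : ∀ b, (k b).Ok) (l : Ind k) : eps (op l) = sg k l.1 * eps l := by
  obtain ⟨b, i⟩ := l
  unfold eps sg op
  simp only [Fin.rev_rev]
  by_cases h : Even (k b).wt
  · simp [h]
  · have h1 : Even (k b).dim := (hk b).even (Nat.not_even_iff_odd.1 h)
    have h2 : ((i.rev : Fin (k b).dim) : ℕ) = (k b).dim - (i + 1) := Fin.val_rev i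
    have h3 := i.isLt
    obtain ⟨m, hm⟩ := h1
    simp only [h, if_false]
    rcases lt_trichotomy i i.rev with h4 | h4 | h4
    · rw [if_neg (not_lt.2 h4.le), if_pos h4]
      norm_num
    · exfalso
      have h5 : (i : ℕ) = (i.rev : Fin (k b).dim) := congrArg Fin.val h4
      omega
    · rw [if_pos h4, if_neg (not_lt.2 h4.le)]
      norm_num

lemma eps_even {l : Ind k} (h : Even (k l.1).wt) : eps l = 1 := by
  unfold eps
  rw [if_pos h]

variable [DecidableEq B]

lemma frm_apply (b : B) (l r : Ind k) : frm k b l r = if l.1 = b ∧ r = op l then eps l else 0 := rfl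

lemma star_frm (b : B) (l r : Ind k) : star (frm k b l r) = frm k b l r := by
  rw [frm_apply]
  split_ifs
  · exact star_eps l
  · exact star_zero _

lemma frm_comm (hk : ∀ b, (k b).Ok) (b : B) (l r : Ind k) :
    frm k b l r = sg k b * frm k b r l := by
  rw [frm_apply, frm_apply]
  by_cases h : l.1 = b ∧ r = op l
  · obtain ⟨rfl, rfl⟩ := h
    rw [if_pos ⟨rfl, rfl⟩, if_pos ⟨op_fst l, (op_op l).symm⟩, eps_op hk, ← mul_assoc, sg_sq, one_mul]
  · have h' : ¬(r.1 = b ∧ l = op r) := by
      rintro ⟨h1, h2⟩
      apply h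
      refine ⟨?_, ?_⟩
      · rw [h2, op_fst]
        exact h1
      · rw [h2, op_op]
    rw [if_neg h, if_neg h', mul_zero]

end Pool.Agent.Helper48.SP
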