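import Pool.Agent.Helper48.SP.Forms

/-!
# SP-M1: heights

For an orthogonal block (even weight) of even dimension `2 g` the heights are
`2 (g - 1), ..., 2, 0, 0, -2, ..., -2 (g - 1)`, else `dim - 1, dim - 3, ..., 1 - dim`.
`height_eq`: `height y = ∑ l, ht l * cnt y l`, and `ht (op l) = - ht l`. `exists_max`: finitely many
words.
-/

set_option autoImplicit false

namespace Pool.Agent.Helper48.SP

open Pool.Agent.Helper48.GC8

variable {B : Type} {k : B → Blk} [Fintype B] [DecidableEq B] {ι : Type} [Fintype ι]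
  [DecidableEq ι]

omit [Fintype B] [DecidableEq B] in
lemma ht_op (l : Ind k) : ht (op l) = - ht l := by
  obtain ⟨b, a⟩ := l
  have ha := a.isLt
  unfold ht op
  simp only [Fin.rev_rev, Fin.lt_def, Fin.val_rev]
  split_ifs with h1 h2 h3 h3
  · omega
  · have h4 : (((k b).dim - ((a : ℕ) + 1) : ℕ) : ℤ) = (k b).dim - (a + 1) := by omega
    rw [h4]
    ring
  · have h4 : (((k b).dim - ((a : ℕ) + 1) : ℕ) : ℤ) = (k b).dim - (a + 1) := by omega
    rw [h4]
    ring
  · exfalso
    obtain ⟨-, t, ht⟩ := h1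
    omega
  · ring

lemma ht_lt {l r : Ind k} (hb : l.1 = r.1) (hlr : (l.2 : ℕ) < r.2)
    (h : ¬ (r = op l ∧ Even (k l.1).wt)) : ht r < ht l := by
  obtain ⟨b, a⟩ := l
  obtain ⟨b', c⟩ := r
  obtain rfl : b = b' := hb
  simp only at hlr
  have ha := a.isLt
  have hc := c.isLt
  unfold ht
  simp only [Fin.lt_def, Fin.val_rev]
  by_cases h1 : Even (k b).wt ∧ Even (k b).dim
  · have hne : (c : ℕ) ≠ (k b).dim - (a + 1) := by
      intro h2
      apply h
      refine ⟨?_, h1.1⟩
      unfold op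
      simp only [Sigma.mk.injEq, heq_eq_eq, true_and]
      apply Fin.ext
      rw [Fin.val_rev]
      exact h2
    rw [if_pos h1, if_pos h1]
    obtain ⟨-, t, ht⟩ := h1
    split_ifs <;> omega
  · rw [if_neg h1, if_neg h1]
    omega

omit [Fintype B] [DecidableEq B] in
private lemma op_op16 (l : Ind k) : op (op l) = l := by
  unfold op
  simp

lemma height_eq (y : ι → Ind k) : 2 * height y = ∑ l, ht l * tw y l := by
  have h1 : height y = ∑ l, ht l * (cnt y l : ℤ) := by
    unfold height cnt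
    rw [← Finset.sum_fiberwise_of_maps_to (s := Finset.univ) (t := Finset.univ) (g := y)
      (fun _ _ => Finset.mem_univ _)]
    refine Finset.sum_congr rfl fun l _ => ?_
    rw [Finset.sum_congr rfl fun p hp => by rw [(Finset.mem_filter.1 hp).2], Finset.sum_const,
      nsmul_eq_mul, mul_comm]
  have h2 : ∑ l, ht l * (cnt y (op l) : ℤ) = - ∑ l, ht l * (cnt y l : ℤ) := by
    rw [← Finset.sum_neg_distrib]
    refine Fintype.sum_bijective op (Function.Involutive.bijective op_op16) _ _ fun l => ?_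
    rw [ht_op, neg_mul, neg_neg]
  unfold tw
  simp_rw [mul_sub]
  rw [Finset.sum_sub_distrib, h2, h1]
  ring

theorem exists_max {U : Submodule ℂ (Ten ι (Ind k))} (hne : U ≠ ⊥) :
    ∃ v ∈ U, ∃ y0, v y0 ≠ 0 ∧ ∀ u ∈ U, ∀ y, u y ≠ 0 → height y ≤ height y0 := by
  classical
  obtain ⟨v, hv, hv0⟩ := (Submodule.ne_bot_iff U).1 hne
  have h1 : ∃ y, v y ≠ 0 := by
    by_contra hcon
    push Not at hcon
    exact hv0 (funext hcon)
  obtain ⟨y, hy⟩ := h1
  have h2 : (Finset.univ.filter fun y : ι → Ind k => ∃ u ∈ U, u y ≠ 0).Nonempty :=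
    ⟨y, by rw [Finset.mem_filter]; exact ⟨Finset.mem_univ _, v, hv, hy⟩⟩
  obtain ⟨y0, hy0, hmax⟩ := Finset.exists_max_image _ height h2
  obtain ⟨-, u, hu, hu0⟩ := Finset.mem_filter.1 hy0
  refine ⟨u, hu, y0, hu0, fun u' hu' y' hy' => hmax y' ?_⟩
  rw [Finset.mem_filter]
  exact ⟨Finset.mem_univ _, u', hu', hy'⟩

open Classical in
/-- The part of `v` with the torus weight of `y0`. -/
noncomputable def part (y0 : ι → Ind k) (v : Ten ι (Ind k)) : Ten ι (Ind k) := fun y =>
  if tw y = tw y0 then v y else 0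

end Pool.Agent.Helper48.SP
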