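import Pool.Agent.Helper48.SP.Forms
import Pool.Agent.Helper48.SP.GenProd

/-!
# SP-O: the ordinary place

Let `z = (q, Φ)` be ordinary: `Φ h = h diag(d l) N` with `h` in the group with multiplier
one, `N` unipotent commuting with `diag d`, and `d l` is `q ^ sl l` times a unit at the prime
`P ∋ q`: `b l * d l = q ^ sl l * a l` with algebraic integers `a l`, `b l` outside of `P`. If `U` is
stable and the eigenvalues of the Frobenii are divisible by `q ^ t` on `U`, then every word of an
element of `U` has slope at least `t`.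
Proof: `rho h u ∈ U`, so `aeval (rho Φ) Q (rho h u) = 0`, and `rho Φ * rho h = rho h * rho (diag N)`
gives `rho h (aeval (rho (diag N)) Q u) = 0`, hence (`h` invertible) `aeval (rho (diag N)) Q u = 0`.
The component of `u` of eigenvalue `∏ p, d (y p)` under the diagonal matrix is a generalized
eigenvector of `rho (diag N)` (`rho_unipotent`), so the product `β = ∏ p, d (y p)` is a root of `Q`
(`root_of_word`), and `β / q ^ t = γ` is integral, `(∏ b) γ q ^ t = q ^ (∑ sl) ∏ a`; if
`∑ p, sl (y p) < t` then `∏ p, a (y p)` is `q` times an algebraic integer, so it is in `P`, a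
contradiction.
-/

set_option autoImplicit false

namespace Pool.Agent.Helper48.SP

open Pool.Agent.Helper48.GC8 Polynomial

variable {B : Type} {k : B → Blk} [Fintype B] [DecidableEq B]

variable (k) in
/-- The pair `(q, Φ)` is conjugate by an isometry to `diag(d) N`, where `N` is unipotent and commutes
with `diag(d)`, and the entry `d l` is `q ^ sl l` times a unit at a prime `P` over `q`, that is, a
quotient of two algebraic integers outside of `P`. -/
def IsOrd (z : ℕ × Matrix (Ind k) (Ind k) ℂ) : Prop :=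
  z.1 ≠ 0 ∧ ∃ (P : Ideal (integralClosure ℤ ℂ)) (h h' N : Matrix (Ind k) (Ind k) ℂ)
    (d : Ind k → ℂ) (a b : Ind k → integralClosure ℤ ℂ), P.IsPrime ∧
      (z.1 : integralClosure ℤ ℂ) ∈ P ∧ InG k 1 h ∧ h' * h = 1 ∧ (∀ l, a l ∉ P) ∧ (∀ l, b l ∉ P) ∧
      (∀ l, (b l : ℂ) * d l = (z.1 : ℂ) ^ sl l * (a l : ℂ)) ∧ IsNilpotent (N - 1) ∧
      N * Matrix.diagonal d = Matrix.diagonal d * N ∧ z.2 * h = h * (Matrix.diagonal d * N)

private lemma aeval_semiconj {V : Type} [AddCommGroup V] [Module ℂ V] {A B S : Module.End ℂ V}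
    (h : A * S = S * B) (p : ℂ[X]) : aeval A p * S = S * aeval B p := by
  induction p using Polynomial.induction_on' with
  | add p q hp hq => rw [map_add, map_add, add_mul, mul_add, hp, hq]
  | monomial n c =>
    have h1 : SemiconjBy S B A := h.symm
    have h2 : S * B ^ n = A ^ n * S := h1.pow_right n
    rw [aeval_monomial, aeval_monomial, mul_assoc, ← h2, ← mul_assoc, ← mul_assoc,
      Algebra.commutes]

private lemma root_of_gen {V : Type} [AddCommGroup V] [Module ℂ V] {f : Module.End ℂ V} {δ : ℂ}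
    {v : V} (hv : v ∈ f.maxGenEigenspace δ) (h0 : v ≠ 0) {Q : ℂ[X]} (hQ : aeval f Q v = 0) :
    Q.eval δ = 0 := by
  classical
  rw [Module.End.mem_maxGenEigenspace] at hv
  have h1 := Nat.find_spec hv
  have h2 : Nat.find hv ≠ 0 := by
    intro h
    rw [h, pow_zero, Module.End.one_apply] at h1
    exact h0 h1
  obtain ⟨n, hn⟩ := Nat.exists_eq_succ_of_ne_zero h2
  have h3 := Nat.find_min hv (m := n) (by omega)
  rw [hn, Nat.succ_eq_add_one, pow_succ', Module.End.mul_apply] at h1
  set g : Module.End ℂ V := f - δ • 1 with hg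
  have h5 : f ((g ^ n) v) = δ • (g ^ n) v := by
    have h6 : g ((g ^ n) v) = f ((g ^ n) v) - δ • (g ^ n) v := by
      conv_lhs => rw [hg]
      rw [LinearMap.sub_apply, LinearMap.smul_apply, Module.End.one_apply, ← hg]
    rw [h1] at h6
    exact (sub_eq_zero.1 h6.symm)
  have h7 : aeval f Q ((g ^ n) v) = Q.eval δ • (g ^ n) v :=
    Module.End.aeval_apply_of_hasEigenvector
      ⟨Module.End.mem_eigenspace_iff.2 h5, h3⟩
  have h8 : Commute f g := by
    rw [hg]
    exact (Commute.refl f).sub_right ((Commute.one_right f).smul_right δ)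
  have h9 : aeval f Q * g ^ n = g ^ n * aeval f Q :=
    aeval_semiconj (h8.pow_right n).eq Q
  have h10 : aeval f Q ((g ^ n) v) = 0 := by
    rw [← Module.End.mul_apply, h9, Module.End.mul_apply, hQ, map_zero]
  rw [h10] at h7
  exact (smul_eq_zero.1 h7.symm).resolve_right h3

/-- the component of the eigenvalue `δ` of the diagonal matrix -/
private noncomputable def compo {ι : Type} [Fintype ι] (d : Ind k → ℂ) (δ : ℂ) :
    Module.End ℂ (Ten ι (Ind k)) := by
  classical
  exact
    { toFun := fun u x => if ∏ j, d (x j) = δ then u x else 0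
      map_add' := by
        intro u v
        funext x
        simp only [Pi.add_apply]
        split_ifs <;> simp
      map_smul' := by
        intro c u
        funext x
        simp only [Pi.smul_apply, RingHom.id_apply]
        split_ifs <;> simp }

omit [Fintype B] [DecidableEq B] in
private lemma compo_apply {ι : Type} [Fintype ι] (d : Ind k → ℂ) (δ : ℂ) (u : Ten ι (Ind k))
    (x : ι → Ind k) [Decidable (∏ j, d (x j) = δ)] :
    compo d δ u x = if ∏ j, d (x j) = δ then u x else 0 := by
  unfold compo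
  simp only [LinearMap.coe_mk, AddHom.coe_mk]
  split_ifs <;> rfl

private lemma root_of_word {ι : Type} [Fintype ι] [DecidableEq ι] {d : Ind k → ℂ}
    {N : Matrix (Ind k) (Ind k) ℂ} (hN : IsNilpotent (N - 1))
    (hc : N * Matrix.diagonal d = Matrix.diagonal d * N) {Q : ℂ[X]} {u : Ten ι (Ind k)}
    (hu : aeval (rho Finset.univ (Matrix.diagonal d * N) : Module.End ℂ (Ten ι (Ind k))) Q u = 0)
    {y : ι → Ind k} (hy : u y ≠ 0) : Q.eval (∏ j, d (y j)) = 0 := by
  classical
  set δ := ∏ j, d (y j) with hδ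
  set T : Module.End ℂ (Ten ι (Ind k)) := rho Finset.univ (Matrix.diagonal d) with hT
  set R : Module.End ℂ (Ten ι (Ind k)) := rho Finset.univ N with hR
  set π : Module.End ℂ (Ten ι (Ind k)) := compo d δ with hπ
  have hTR : rho Finset.univ (Matrix.diagonal d * N) = T * R := rho_mul _ _ _
  have hcomm : R * T = T * R := by
    rw [hT, hR, ← rho_mul, ← rho_mul, hc]
  have hent : ∀ x z : ι → Ind k, ∏ p, N (x p) (z p) ≠ 0 → ∏ j, d (x j) = ∏ j, d (z j) := by
    intro x z hxz
    refine Finset.prod_congr rfl fun p _ => ?_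
    have h1 := congrFun (congrFun hc (x p)) (z p)
    rw [Matrix.mul_diagonal, Matrix.diagonal_mul] at h1
    have h2 : N (x p) (z p) ≠ 0 := Finset.prod_ne_zero_iff.1 hxz p (Finset.mem_univ p)
    rw [mul_comm] at h1
    exact (mul_right_cancel₀ h2 h1).symm
  have hπR : R * π = π * R := by
    refine LinearMap.ext fun v => funext fun x => ?_
    rw [Module.End.mul_apply, Module.End.mul_apply, hR, hπ, compo_apply, rho_univ_apply,
      rho_univ_apply]
    by_cases hx : ∏ j, d (x j) = δ
    · rw [if_pos hx]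
      refine Finset.sum_congr rfl fun z _ => ?_
      by_cases hz : ∏ p, N (x p) (z p) = 0
      · rw [hz, zero_mul, zero_mul]
      · rw [compo_apply, if_pos ((hent x z hz).symm.trans hx)]
    · rw [if_neg hx]
      refine Finset.sum_eq_zero fun z _ => ?_
      by_cases hz : ∏ p, N (x p) (z p) = 0
      · rw [hz, zero_mul]
      · rw [compo_apply, if_neg (fun h => hx ((hent x z hz).trans h)), mul_zero]
  have hπT : T * π = π * T := by
    refine LinearMap.ext fun v => funext fun x => ?_
    rw [Module.End.mul_apply, Module.End.mul_apply, hT, hπ, compo_apply, rho_diag, rho_diag,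
      compo_apply]
    split_ifs <;> simp
  have h1 : aeval (T * R) Q (π u) = 0 := by
    have h2 : (T * R) * π = π * (T * R) := by
      rw [mul_assoc, hπR, ← mul_assoc, hπT, mul_assoc]
    rw [← Module.End.mul_apply, aeval_semiconj h2 Q, Module.End.mul_apply, ← hTR, hu, map_zero]
  have h2 : T (π u) = δ • π u := by
    funext x
    rw [hT, rho_diag, Pi.smul_apply, smul_eq_mul, hπ, compo_apply]
    split_ifs with h
    · rw [h]
    · rw [mul_zero, mul_zero]
  have h3 : ∀ (n : ℕ) (v : Ten ι (Ind k)), T v = δ • v →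
      ((T * R - δ • 1) ^ n) v = δ ^ n • ((R - 1) ^ n) v := by
    intro n
    induction n with
    | zero => intro v _; simp
    | succ n ih =>
      intro v hv
      have h4 : T ((R - 1) v) = δ • (R - 1) v := by
        have h5 : T * (R - 1) = (R - 1) * T := by
          rw [mul_sub, sub_mul, mul_one, one_mul, hcomm]
        rw [← Module.End.mul_apply, h5, Module.End.mul_apply, hv, map_smul]
      have h5 : (T * R - δ • 1) v = δ • (R - 1) v := by
        rw [← hcomm, LinearMap.sub_apply, Module.End.mul_apply, hv, map_smul, LinearMap.smul_apply,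
          Module.End.one_apply, LinearMap.sub_apply, Module.End.one_apply, smul_sub]
      rw [pow_succ, Module.End.mul_apply, h5, map_smul, ih _ h4, pow_succ (R - 1),
        Module.End.mul_apply, smul_smul, pow_succ' δ]
  obtain ⟨n, hn⟩ := rho_unipotent (ι := ι) hN
  have h4 : π u ∈ (T * R).maxGenEigenspace δ := by
    rw [Module.End.mem_maxGenEigenspace]
    refine ⟨n, ?_⟩
    rw [h3 n _ h2, hR, hn, LinearMap.zero_apply, smul_zero]
  refine root_of_gen h4 (fun h0 => hy ?_) h1
  have h5 := congrFun h0 y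
  rw [hπ, compo_apply, if_pos rfl] at h5
  exact h5

theorem le_slope {𝓕 : Set (ℕ × Matrix (Ind k) (Ind k) ℂ)} (hord : ∃ z ∈ 𝓕, IsOrd k z) {ι : Type}
    [Fintype ι] [DecidableEq ι] {U : Submodule ℂ (Ten ι (Ind k))} (hU : PW.Stab (InG k) U) {t : ℕ}
    (hg : PW.Good 𝓕 t U) {u : Ten ι (Ind k)} (hu : u ∈ U) {y : ι → Ind k} (hy : u y ≠ 0) :
    t ≤ ∑ p, sl (y p) := by
  obtain ⟨z, hz, hz0, P, h, h', N, d, a, b, hP, hqP, hG, hh, ha, hb, hd, hN, hc, hΦ⟩ := hord
  obtain ⟨Q, hQ, hQU⟩ := hg z hz
  have h1 := hQU _ (hU 1 h hG u hu)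
  have h2 : rho Finset.univ z.2 * rho (Finset.univ : Finset ι) h = rho Finset.univ h *
      rho Finset.univ (Matrix.diagonal d * N) := by
    rw [← rho_mul, ← rho_mul, hΦ]
  have h3 : rho Finset.univ h (aeval (rho (Finset.univ : Finset ι)
      (Matrix.diagonal d * N)) Q u) = 0 := by
    rw [← Module.End.mul_apply, ← aeval_semiconj h2, Module.End.mul_apply]
    exact h1
  have h4 : aeval (rho (Finset.univ : Finset ι) (Matrix.diagonal d * N)) Q u = 0 := by
    have := congrArg (rho Finset.univ h') h3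
    rwa [← Module.End.mul_apply, ← rho_mul, hh, rho_one, Module.End.one_apply, map_zero] at this
  have h6 : Q.IsRoot (∏ j, d (y j)) := root_of_word hN hc h4 hy
  have h7 := hQ _ h6
  by_contra hcon
  push Not at hcon
  obtain ⟨e, he⟩ : ∃ e, t = (∑ p, sl (y p)) + (e + 1) := ⟨t - (∑ p, sl (y p)) - 1, by omega⟩
  have hq0 : (z.1 : ℂ) ≠ 0 := Nat.cast_ne_zero.2 hz0
  have h10 : (∏ j, (b (y j) : ℂ)) * ∏ j, d (y j) =
      (z.1 : ℂ) ^ (∑ p, sl (y p)) * ∏ j, (a (y j) : ℂ) := by
    rw [← Finset.prod_mul_distrib, ← Finset.prod_pow_eq_pow_sum, ← Finset.prod_mul_distrib]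
    exact Finset.prod_congr rfl fun j _ => hd (y j)
  have h8 : ∏ j, a (y j) = (z.1 : integralClosure ℤ ℂ) * ((z.1 : integralClosure ℤ ℂ) ^ e *
      (⟨_, h7⟩ : integralClosure ℤ ℂ) * ∏ j, b (y j)) := by
    apply Subtype.ext
    push_cast
    have h11 : (z.1 : ℂ) ^ (∑ p, sl (y p)) ≠ 0 := pow_ne_zero _ hq0
    apply mul_left_cancel₀ h11
    rw [← h10, he]
    field_simp
    ring
  have h9 : ∏ j, a (y j) ∈ P := by
    rw [h8]
    exact P.mul_mem_right _ hqP
  obtain ⟨j, _, hj⟩ := (Ideal.IsPrime.prod_mem_iff (hp := hP)).1 h9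
  exact ha _ hj

end Pool.Agent.Helper48.SP
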