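import Pool.Agent.Helper48.SP.Height
import Pool.Agent.Helper48.SP.Kap

/-!
# SP-M2: parts of traceless tensors

The contraction with `frm k b` pairs the letters `l` and `op l` at the positions `p`, `q`, and
`tw (glue p q l (op l) y)` does not depend on `l`.
-/

set_option autoImplicit false

namespace Pool.Agent.Helper48.SP

open Pool.Agent.Helper48.GC8

variable {B : Type} {k : B → Blk} [Fintype B] [DecidableEq B] {ι : Type} [Fintype ι]
  [DecidableEq ι]

omit [Fintype B] [DecidableEq B] [Fintype ι] in
private lemma glue_p65 (p q : ι) (l r : Ind k) (y : {x : ι // x ≠ p ∧ x ≠ q} → Ind k) :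
    glue p q l r y p = l := by
  unfold glue
  simp

omit [Fintype B] [DecidableEq B] [Fintype ι] in
private lemma glue_q65 {p q : ι} (hpq : p ≠ q) (l r : Ind k)
    (y : {x : ι // x ≠ p ∧ x ≠ q} → Ind k) : glue p q l r y q = r := by
  unfold glue
  simp [hpq.symm]

omit [Fintype B] [DecidableEq B] [Fintype ι] in
private lemma glue_rest65 (p q : ι) (l r : Ind k) (y : {x : ι // x ≠ p ∧ x ≠ q} → Ind k)
    (x : {x : ι // x ≠ p ∧ x ≠ q}) : glue p q l r y x = y x := by
  unfold glue
  rw [dif_pos x.2]

omit [Fintype B] in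
private lemma cnt_glue65 {p q : ι} (hpq : p ≠ q) (l r m : Ind k)
    (y : {x : ι // x ≠ p ∧ x ≠ q} → Ind k) :
    cnt (glue p q l r y) m =
      (if l = m then 1 else 0) + ((if r = m then 1 else 0) + cnt y m) := by
  unfold cnt
  rw [Finset.card_filter, Finset.card_filter,
    ← Finset.add_sum_erase Finset.univ _ (Finset.mem_univ p),
    ← Finset.add_sum_erase (Finset.univ.erase p) _
      (Finset.mem_erase.2 ⟨hpq.symm, Finset.mem_univ q⟩),
    Finset.sum_subtype (F := inferInstance) ((Finset.univ.erase p).erase q)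
      (p := fun x => x ≠ p ∧ x ≠ q) (fun x => by simp [and_comm])]
  simp only [glue_p65, glue_q65 hpq, glue_rest65]

omit [Fintype B] in
private lemma tw_glue65 {p q : ι} (hpq : p ≠ q) (l : Ind k)
    (y : {x : ι // x ≠ p ∧ x ≠ q} → Ind k) :
    tw (glue p q l (op l) y) = fun m => (cnt y m : ℤ) - cnt y (op m) := by
  funext m
  have h1 : (l = op m) ↔ (op l = m) := by
    constructor
    · rintro rfl
      exact op_op m
    · rintro rfl
      exact (op_op l).symm
  have h2 : (op l = op m) ↔ (l = m) := by
    constructor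
    · intro h
      have := congrArg op h
      rwa [op_op, op_op] at this
    · rintro rfl
      rfl
  unfold tw
  rw [cnt_glue65 hpq, cnt_glue65 hpq]
  simp only [h1, h2]
  push_cast
  ring

omit [DecidableEq ι] in
private lemma part_apply65 (y0 y : ι → Ind k) (v : Ten ι (Ind k)) (h : tw y = tw y0) :
    part y0 v y = v y := by
  unfold part
  exact if_pos h

omit [DecidableEq ι] in
private lemma part_apply65' (y0 y : ι → Ind k) (v : Ten ι (Ind k)) (h : tw y ≠ tw y0) :
    part y0 v y = 0 := by
  unfold part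
  exact if_neg h

theorem kap_part (b : B) {p q : ι} (hpq : p ≠ q) {v : Ten ι (Ind k)} (h : kap b p q v = 0)
    (y0 : ι → Ind k) : kap b p q (part y0 v) = 0 := by
  funext y
  rw [kap_apply, Pi.zero_apply]
  by_cases ht : (fun m => (cnt y m : ℤ) - cnt y (op m)) = tw y0
  · have h1 : kap b p q v y = 0 := by rw [h]; rfl
    rw [kap_apply] at h1
    rw [← h1]
    refine Finset.sum_congr rfl fun l _ => Finset.sum_congr rfl fun r _ => ?_
    rw [frm_apply]
    by_cases hr : l.1 = b ∧ r = op l
    · rw [hr.2, part_apply65 _ _ _ ((tw_glue65 hpq l y).trans ht)]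
    · rw [if_neg hr, zero_mul, zero_mul]
  · refine Finset.sum_eq_zero fun l _ => Finset.sum_eq_zero fun r _ => ?_
    rw [frm_apply]
    by_cases hr : l.1 = b ∧ r = op l
    · rw [hr.2, part_apply65' _ _ _ (fun e => ht ((tw_glue65 hpq l y).symm.trans e)), mul_zero]
    · rw [if_neg hr, zero_mul]

end Pool.Agent.Helper48.SP
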