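import Pool.Agent.Helper48.SP.ColA
import Pool.Agent.Helper48.SP.ColB1
import Pool.Agent.Helper48.SP.ColB2
import Pool.Agent.Helper48.SP.ColC1
import Pool.Agent.Helper48.SP.ColC2

/-!
# SP-Q: a highest weight vector is not orthogonal to the products of columns

`peel`: a nonzero `v` with `IsTop v` and constant letter counts `α` is not orthogonal to some element
of `D` of value `∑ l, α l * sl l`, with the same letter counts.

Proof by induction on `card ι`. If no letter occurs, `ι` is empty and `T = v` (`D_top`). Otherwise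
choose a block `b` of which a letter occurs.
* (`initial`) if `α r ≥ 1`, `l.1 = r.1`, `l.2 < r.2` then `α l ≥ 1`: take `y` with `v y ≠ 0` and a
  position `p` with `y p = r`; if `l` does not occur in `y`, then
  `(E l r v) (update y p l) = v y ≠ 0`.
* So the letters of the block `b` which occur are `(b, i)`, `i < n`, for some `n ≥ 1`. Let
  `s i = (b, i)`; `exists_col` (with `rk l = l.2`) gives `f` with `v' = col f s v ≠ 0`.
* `v'` has the letter counts `α - 1` at the `s i`, `α` else (`col_count`), and `IsTop v'` (`col_E`; if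
  `l = s i` and `r ∉ range s`, then `r` does not occur in `v`).
* Let `T'` be given by induction for `v'`, `T y = (hit y f s).det * T' (y restricted)`. Then
  `herm T v = herm T' v' ≠ 0` (`herm_col`) and `T ∈ D` with the value `∑ i, sl (s i)` more (`col_mem`).
-/

set_option autoImplicit false

namespace Pool.Agent.Helper48.SP

open Pool.Agent.Helper48.GC8 Function

variable {B : Type} {k : B → Blk} [Fintype B] [DecidableEq B]

private lemma cnt_pos6 {ι : Type} [Fintype ι] [DecidableEq ι] {y : ι → Ind k} {l : Ind k}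
    (h : 1 ≤ cnt y l) : ∃ p, y p = l := by
  have h1 : 0 < (Finset.univ.filter fun p => y p = l).card := h
  rw [Finset.card_pos] at h1
  obtain ⟨p, hp⟩ := h1
  exact ⟨p, (Finset.mem_filter.mp hp).2⟩

private lemma cnt_zero6 {ι : Type} [Fintype ι] [DecidableEq ι] {y : ι → Ind k} {l : Ind k}
    (h : cnt y l = 0) (p : ι) : y p ≠ l := by
  intro hp
  have h1 : (Finset.univ.filter fun p => y p = l).card = 0 := h
  rw [Finset.card_eq_zero] at h1
  have h2 : p ∈ Finset.univ.filter fun p => y p = l :=
    Finset.mem_filter.mpr ⟨Finset.mem_univ p, hp⟩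
  rw [h1] at h2
  exact absurd h2 (Finset.notMem_empty _)

private lemma cnt_split6 {ι : Type} [Fintype ι] [DecidableEq ι] (y : ι → Ind k) (l : Ind k) {n : ℕ}
    {f : Fin n → ι} (hf : Injective f) :
    cnt y l = cnt (fun p : {p : ι // p ∉ Set.range f} => y p) l +
      (Finset.univ.filter fun i : Fin n => y (f i) = l).card := by
  unfold cnt
  simp only [Finset.card_filter]
  rw [← Fintype.sum_subtype_add_sum_subtype (fun p => p ∈ Set.range f)
    (fun p => if y p = l then (1 : ℕ) else 0), add_comm]
  congr 1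
  have key : ∀ _inst : Fintype {p : ι // p ∈ Set.range f},
      ∑ p : {p : ι // p ∈ Set.range f}, (if y p = l then (1 : ℕ) else 0) =
        ∑ i : Fin n, (if y (f i) = l then (1 : ℕ) else 0) := fun inst =>
    (@Fintype.sum_equiv (Fin n) {p : ι // p ∈ Set.range f} ℕ _ inst _ (Equiv.ofInjective f hf)
      (fun i => if y (f i) = l then (1 : ℕ) else 0)
      (fun p : {p : ι // p ∈ Set.range f} => if y p = l then (1 : ℕ) else 0) (fun i => rfl)).symm
  exact key _

private lemma hit_perm6 {ι L : Type} [DecidableEq L] {n : ℕ} {y : ι → L} {f : Fin n → ι}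
    {s : Fin n → L} (h : (hit y f s).det ≠ 0) :
    ∃ σ : Equiv.Perm (Fin n), ∀ i, y (f (σ i)) = s i := by
  rw [Matrix.det_apply] at h
  obtain ⟨σ, -, hσ⟩ := Finset.exists_ne_zero_of_sum_ne_zero h
  refine ⟨σ, fun i => ?_⟩
  by_contra hcon
  apply hσ
  have h1 : ∏ i, hit y f s (σ i) i = 0 := by
    refine Finset.prod_eq_zero (Finset.mem_univ i) ?_
    unfold hit
    rw [Matrix.of_apply, if_neg hcon]
  rw [h1, smul_zero]

lemma initial {ι : Type} [Fintype ι] [DecidableEq ι] {v : Ten ι (Ind k)} {α : Ind k → ℕ}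
    (hv : v ≠ 0) (hα : ∀ y, v y ≠ 0 → ∀ l, cnt y l = α l) (ht : IsTop v) {l r : Ind k}
    (hb : l.1 = r.1) (hlr : (l.2 : ℕ) < r.2) (hr : 1 ≤ α r) : 1 ≤ α l := by
  by_contra hcon
  have hl0 : α l = 0 := by omega
  obtain ⟨y, hy⟩ := Function.ne_iff.mp hv
  have hy' : v y ≠ 0 := hy
  obtain ⟨p, hp⟩ := cnt_pos6 (k := k) (y := y) (l := r) (by rw [hα y hy' r]; exact hr)
  have h4 : ∀ q, y q ≠ l := cnt_zero6 (k := k) (y := y) (l := l) (by rw [hα y hy' l, hl0])
  have h5 : E l r v = 0 := ht l r hb hlr
  have h6 : E l r v (update y p l) = v y := by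
    rw [E_apply, Finset.sum_eq_single p]
    · rw [if_pos (update_self p l y), update_idem, ← hp, update_eq_self]
    · intro q _ hq
      rw [if_neg]
      rw [update_of_ne hq]
      exact h4 q
    · intro h
      exact absurd (Finset.mem_univ p) h
  rw [h5] at h6
  exact hy' h6.symm

theorem peel : ∀ (n : ℕ) (ι : Type) [Fintype ι] [DecidableEq ι], Fintype.card ι ≤ n →
    ∀ (v : Ten ι (Ind k)) (α : Ind k → ℕ), v ≠ 0 → (∀ y, v y ≠ 0 → ∀ l, cnt y l = α l) → IsTop v →
      ∃ T ∈ D k ι (∑ l, α l * sl l), (∀ y, T y ≠ 0 → ∀ l, cnt y l = α l) ∧ herm T v ≠ 0 := by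
  classical
  have hbase : ∀ (ι : Type) [Fintype ι] [DecidableEq ι] (v : Ten ι (Ind k)) (α : Ind k → ℕ),
      v ≠ 0 → (∀ y, v y ≠ 0 → ∀ l, cnt y l = α l) → (∀ l, α l = 0) →
      ∃ T ∈ D k ι (∑ l, α l * sl l), (∀ y, T y ≠ 0 → ∀ l, cnt y l = α l) ∧ herm T v ≠ 0 := by
    intro ι _ _ v α hv hα h0
    refine ⟨v, ?_, hα, fun h => hv (herm_self_eq_zero h)⟩
    have h1 : ∑ l, α l * sl l = 0 := Finset.sum_eq_zero fun l _ => by rw [h0 l, zero_mul]
    rw [h1]
    exact D_top v
  intro n
  induction n with
  | zero =>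
    intro ι _ _ hcard v α hv hα ht
    refine hbase ι v α hv hα fun l => ?_
    by_contra hcon
    obtain ⟨y, hy⟩ := Function.ne_iff.mp hv
    obtain ⟨p, -⟩ := cnt_pos6 (k := k) (y := y) (l := l) (by rw [hα y hy l]; omega)
    have h1 : 0 < Fintype.card ι := Fintype.card_pos_iff.mpr ⟨p⟩
    omega
  | succ n ih =>
    intro ι _ _ hcard v α hv hα ht
    by_cases h0 : ∀ l, α l = 0
    · exact hbase ι v α hv hα h0
    push Not at h0
    obtain ⟨l0, hl0⟩ := h0
    obtain ⟨b, i0⟩ := l0
    have hex : ∃ j : ℕ, ∀ i : Fin (k b).dim, j ≤ (i : ℕ) → α ⟨b, i⟩ = 0 :=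
      ⟨(k b).dim, fun i hi => absurd i.2 (by omega)⟩
    obtain ⟨m, hm⟩ : ∃ m, m = Nat.find hex := ⟨_, rfl⟩
    have hm1 : ∀ i : Fin (k b).dim, m ≤ (i : ℕ) → α ⟨b, i⟩ = 0 := by
      rw [hm]
      exact Nat.find_spec hex
    have hmd : m ≤ (k b).dim := by
      rw [hm]
      exact Nat.find_min' hex fun i hi => absurd i.2 (by omega)
    have hm0 : 0 < m := by
      by_contra hcon
      exact hl0 (hm1 i0 (by omega))
    have hm2 : ∀ i : Fin (k b).dim, (i : ℕ) < m → 1 ≤ α ⟨b, i⟩ := by
      intro i hi
      have h1 := Nat.find_min hex (m := m - 1) (by omega)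
      push Not at h1
      obtain ⟨i', hi', hi''⟩ := h1
      have h2 : (i' : ℕ) < m := by
        by_contra hcon
        exact hi'' (hm1 i' (by omega))
      rcases Nat.lt_or_ge (i : ℕ) (i' : ℕ) with h3 | h3
      · exact initial hv hα ht (l := ⟨b, i⟩) (r := ⟨b, i'⟩) rfl h3 (by omega)
      · have h4 : i = i' := Fin.ext (by omega)
        rw [h4]
        omega
    obtain ⟨s, hs⟩ : ∃ s : Fin m → Ind k, s = fun i => (⟨b, Fin.castLE hmd i⟩ : Ind k) := ⟨_, rfl⟩
    have hs1 : ∀ i, s i = ⟨b, Fin.castLE hmd i⟩ := fun i => by rw [hs]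
    have hrk : Injective fun i => ((s i).2 : ℕ) := by
      intro i j hij
      have h1 : ((s i).2 : ℕ) = ((s j).2 : ℕ) := hij
      rw [hs] at h1
      exact Fin.ext h1
    have hsinj : Injective s := fun i j hij => hrk (by
      change ((s i).2 : ℕ) = ((s j).2 : ℕ)
      rw [hij])
    have hpos : ∀ i, 1 ≤ α (s i) := by
      intro i
      rw [hs1]
      exact hm2 _ i.2
    have hrange : ∀ l : Ind k, l ∈ Set.range s ↔ l.1 = b ∧ (l.2 : ℕ) < m := by
      intro l
      constructor
      · rintro ⟨i, rfl⟩
        rw [hs]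
        exact ⟨rfl, i.2⟩
      · rintro ⟨h1, h2⟩
        obtain ⟨c, i⟩ := l
        change c = b at h1
        subst h1
        exact ⟨⟨i, h2⟩, by rw [hs]; rfl⟩
    obtain ⟨f, hf, hcol⟩ := exists_col (fun l : Ind k => (l.2 : ℕ)) hv hα s hsinj hrk
      (fun i j hij => by
        refine ht (s i) (s j) ?_ hij
        rw [hs]) hpos
    have hα' : ∀ z, col f s v z ≠ 0 → ∀ l, cnt z l = α l - (if l ∈ Set.range s then 1 else 0) := by
      intro z hz l
      have h1 := col_count hα hf hsinj z hz l
      have h2 : cnt z l = (Finset.univ.filter fun p => z p = l).card := rfl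
      rw [h2]
      by_cases hl : l ∈ Set.range s
      · rw [if_pos hl] at h1 ⊢
        omega
      · rw [if_neg hl] at h1 ⊢
        omega
    have hge : ∀ l, (if l ∈ Set.range s then 1 else 0) ≤ α l := by
      intro l
      by_cases hl : l ∈ Set.range s
      · rw [if_pos hl]
        obtain ⟨i, rfl⟩ := hl
        exact hpos i
      · rw [if_neg hl]
        exact Nat.zero_le _
    have htop : IsTop (col f s v) := by
      intro l r hb hlr
      have hne : l ≠ r := by
        rintro rfl
        exact lt_irrefl _ hlr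
      refine col_E hf hsinj hne (ht l r hb hlr) ?_
      by_cases hl : l ∈ Set.range s
      · by_cases hr : r ∈ Set.range s
        · exact Or.inr (Or.inl hr)
        · refine Or.inr (Or.inr fun y hy p => ?_)
          have h1 : α r = 0 := by
            obtain ⟨c, i⟩ := r
            rw [hrange] at hl hr
            have h2 : c = b := hb.symm.trans hl.1
            subst h2
            exact hm1 i (not_lt.mp fun hcon => hr ⟨rfl, hcon⟩)
          exact cnt_zero6 (k := k) (by rw [hα y hy r, h1]) p
      · exact Or.inl hl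
    have hcard' : Fintype.card {p : ι // p ∉ Set.range f} ≤ n := by
      have h1 : Fintype.card {p : ι // p ∉ Set.range f} < Fintype.card ι :=
        Fintype.card_subtype_lt (x := f ⟨0, hm0⟩) (by
          intro h
          exact h ⟨_, rfl⟩)
      omega
    obtain ⟨T', hT', hcT', hherm⟩ := ih {p : ι // p ∉ Set.range f} hcard' (col f s v)
      (fun l => α l - (if l ∈ Set.range s then 1 else 0)) hcol hα' htop
    refine ⟨fun y => (hit y f s).det * T' (fun p => y p), ?_, ?_, ?_⟩
    · have h1 := col_mem (b := b) hmd hf hT'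
      rw [← hs] at h1
      refine D_mono (le_of_eq ?_) h1
      have h2 : ∑ i : Fin m, sl (⟨b, Fin.castLE hmd i⟩ : Ind k) =
          ∑ l : Ind k, (if l ∈ Set.range s then 1 else 0) * sl l := by
        have h3 : ∑ i : Fin m, sl (⟨b, Fin.castLE hmd i⟩ : Ind k) =
            ∑ l ∈ Finset.univ.image s, sl l := by
          rw [Finset.sum_image fun i _ j _ h => hsinj h]
          exact Finset.sum_congr rfl fun i _ => by rw [hs1]
        rw [h3, ← Finset.sum_filter_add_sum_filter_not Finset.univ (fun l => l ∈ Set.range s)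
          (fun l => (if l ∈ Set.range s then 1 else 0) * sl l)]
        have h4 : ∑ l ∈ Finset.univ.filter (fun l => ¬ l ∈ Set.range s),
            (if l ∈ Set.range s then 1 else 0) * sl l = 0 := by
          refine Finset.sum_eq_zero fun l hl => ?_
          rw [if_neg (Finset.mem_filter.mp hl).2, zero_mul]
        rw [h4, add_zero]
        have h5 : Finset.univ.image s = Finset.univ.filter (fun l => l ∈ Set.range s) := by
          ext l
          simp
        rw [h5]
        refine Finset.sum_congr rfl fun l hl => ?_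
        rw [if_pos (Finset.mem_filter.mp hl).2, one_mul]
      rw [h2, ← Finset.sum_add_distrib]
      refine Finset.sum_congr rfl fun l _ => ?_
      rw [← add_mul, Nat.sub_add_cancel (hge l)]
    · intro y hy l
      have h1 : (hit y f s).det ≠ 0 := left_ne_zero_of_mul hy
      have h2 : T' (fun p => y p) ≠ 0 := right_ne_zero_of_mul hy
      obtain ⟨σ, hσ⟩ := hit_perm6 h1
      rw [cnt_split6 y l hf, hcT' _ h2 l]
      have h3 : (Finset.univ.filter fun i : Fin m => y (f i) = l).card =
          if l ∈ Set.range s then 1 else 0 := by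
        by_cases hl : l ∈ Set.range s
        · rw [if_pos hl]
          obtain ⟨i, rfl⟩ := hl
          rw [Finset.card_eq_one]
          refine ⟨σ i, ?_⟩
          ext j
          rw [Finset.mem_filter, Finset.mem_singleton]
          constructor
          · rintro ⟨-, h4⟩
            have h5 := hσ (σ.symm j)
            rw [Equiv.apply_symm_apply] at h5
            have h6 := hsinj (h5.symm.trans h4)
            rw [← h6, Equiv.apply_symm_apply]
          · rintro rfl
            exact ⟨Finset.mem_univ _, hσ i⟩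
        · rw [if_neg hl, Finset.card_eq_zero, Finset.filter_eq_empty_iff]
          intro j _ h4
          apply hl
          refine ⟨σ.symm j, ?_⟩
          rw [← hσ, Equiv.apply_symm_apply]
          exact h4
      rw [h3]
      exact Nat.sub_add_cancel (hge l)
    · rw [herm_col hf hsinj]
      exact hherm

end Pool.Agent.Helper48.SP
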