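import Pool.Agent.Helper48.SP.Symm
import Pool.Agent.Helper48.SP.Prod

/-!
# SP-S2: similitudes on pieces

Alternating tensors in `V_b` stay alternating in `V_b` (reindex the sum by `y ↦ y ∘ swap p q`; `M` is
block diagonal), with the same value; the invariant tensor is multiplied by `c ^ wt` (`InGO.symm`;
`S = {p, q}`).
-/

set_option autoImplicit false

namespace Pool.Agent.Helper48.SP

open Pool.Agent.Helper48.GC8

variable {B : Type} {k : B → Blk} [Fintype B] [DecidableEq B] {ι : Type} [Fintype ι]
  [DecidableEq ι]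

lemma IsAlt.of_rho {b : B} {t : Ten ι (Ind k)} (h : IsAlt b t) {c : ℂ}
    {M : Matrix (Ind k) (Ind k) ℂ} (hM : InGO k c M) : IsAlt b (rho Finset.univ M t) := by
  constructor
  · intro x hx p
    rw [rho_univ_apply] at hx
    obtain ⟨y, -, hy⟩ := Finset.exists_ne_zero_of_sum_ne_zero hx
    have h1 := left_ne_zero_of_mul hy
    have h2 := right_ne_zero_of_mul hy
    have h3 : M (x p) (y p) ≠ 0 := Finset.prod_ne_zero_iff.1 h1 p (Finset.mem_univ p)
    have h4 : (x p).1 = (y p).1 := by
      by_contra h5
      exact h3 (hM.blk _ _ h5)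
    rw [h4]
    exact h.supp y h2 p
  · intro x p q hpq
    rw [rho_univ_apply, rho_univ_apply]
    let e : (ι → Ind k) ≃ (ι → Ind k) :=
      { toFun := fun y => y ∘ Equiv.swap p q
        invFun := fun y => y ∘ Equiv.swap p q
        left_inv := fun y => by
          funext r
          simp
        right_inv := fun y => by
          funext r
          simp }
    rw [← Equiv.sum_comp e, ← Finset.sum_neg_distrib]
    refine Finset.sum_congr rfl fun y _ => ?_
    show (∏ r, M (x (Equiv.swap p q r)) (y (Equiv.swap p q r))) * t (y ∘ Equiv.swap p q) = _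
    rw [h.alt y p q hpq, Equiv.prod_comp (Equiv.swap p q) fun r => M (x r) (y r), mul_neg]

/-- A similitude maps a piece to a multiple of a piece of the same value. -/
theorem IsPiece.of_rho (hk : ∀ b, (k b).Ok) {t : Ten ι (Ind k)} {v : ℕ} (h : IsPiece t v) {c : ℂ}
    {M : Matrix (Ind k) (Ind k) ℂ} (hM : InGO k c M) :
    ∃ (a : ℂ) (t' : Ten ι (Ind k)), IsPiece t' v ∧ rho Finset.univ M t = a • t' := by
  rcases h with ⟨b, h1, h2⟩ | ⟨b, p, q, hpq, hall, ht, hv⟩
  · exact ⟨1, rho Finset.univ M t, Or.inl ⟨b, h1.of_rho hM, h2⟩, (one_smul _ _).symm⟩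
  refine ⟨c ^ (k b).wt, t, Or.inr ⟨b, p, q, hpq, hall, ht, hv⟩, ?_⟩
  funext x
  rw [rho_univ_apply, Pi.smul_apply, smul_eq_mul, ht x]
  have h1 := congrFun (congrFun (hM.symm hk b) (x p)) (x q)
  rw [Matrix.smul_apply, smul_eq_mul] at h1
  rw [← h1]
  have h2 : (M * frm k b * M.transpose) (x p) (x q) =
      ∑ l, ∑ r, M (x p) l * M (x q) r * frm k b l r := by
    rw [Matrix.mul_apply, Finset.sum_comm]
    refine Finset.sum_congr rfl fun r _ => ?_
    rw [Matrix.mul_apply, Finset.sum_mul]
    refine Finset.sum_congr rfl fun l _ => ?_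
    rw [Matrix.transpose_apply]
    ring
  rw [h2]
  let e : (ι → Ind k) ≃ Ind k × Ind k :=
    { toFun := fun y => (y p, y q)
      invFun := fun z s => if s = p then z.1 else z.2
      left_inv := fun y => by
        funext s
        show (if s = p then y p else y q) = y s
        rcases hall s with rfl | rfl
        · rw [if_pos rfl]
        · rw [if_neg hpq.symm]
      right_inv := fun z => by
        show ((if p = p then z.1 else z.2), (if q = p then z.1 else z.2)) = z
        rw [if_pos rfl, if_neg hpq.symm] }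
  rw [← Fintype.sum_prod_type', ← Equiv.sum_comp e]
  refine Finset.sum_congr rfl fun y _ => ?_
  show (∏ s, M (x s) (y s)) * t y = M (x p) (y p) * M (x q) (y q) * frm k b (y p) (y q)
  have h3 : (Finset.univ : Finset ι) = {p, q} := by
    ext s
    simpa using hall s
  rw [h3, Finset.prod_pair hpq, ht y]

end Pool.Agent.Helper48.SP
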