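import Pool.Agent.Helper48.SP.Forms

/-!
# SP-R2: the one parameter groups of the raising matrices

`X = rais l r` satisfies `Xᵀ J = - J X` for the form `J` of every block and `X ^ 3 = 0`; with
`g t = 1 + t • X + (t ^ 2 / 2) • X * X` one has `(g t)ᵀ * J = J * g (-t)` and `g (-t) * g t = 1`; the
blocks of `g t` are upper triangular with ones on the diagonal, so their determinants are `1`
(`Matrix.det_of_upperTriangular`).
-/

set_option autoImplicit false

namespace Pool.Agent.Helper48.SP

open Pool.Agent.Helper48.GC8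

variable {B : Type} {k : B → Blk} [Fintype B] [DecidableEq B]

omit [Fintype B] in
private lemma rais_apply38 (l r x y : Ind k) : rais l r x y =
    (if l = x ∧ r = y then (1 : ℂ) else 0) -
      eps l * eps r * (if op r = x ∧ op l = y then (1 : ℂ) else 0) := by
  unfold rais
  rw [Matrix.sub_apply, Matrix.smul_apply, smul_eq_mul, Matrix.single_apply, Matrix.single_apply]

private lemma rais_ne38 {l r : Ind k} (hb : l.1 = r.1) (hlr : (l.2 : ℕ) < r.2) {x y : Ind k}
    (h : rais l r x y ≠ 0) : x.1 = y.1 ∧ (x.2 : ℕ) < y.2 := by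
  by_cases h1 : l = x ∧ r = y
  · obtain ⟨rfl, rfl⟩ := h1
    exact ⟨hb, hlr⟩
  · by_cases h2 : op r = x ∧ op l = y
    · obtain ⟨rfl, rfl⟩ := h2
      obtain ⟨b, i⟩ := l
      obtain ⟨b', j⟩ := r
      dsimp only at hb hlr
      subst hb
      refine ⟨rfl, ?_⟩
      simp only [op, Fin.val_rev]
      have := i.2
      have := j.2
      omega
    · exfalso
      apply h
      rw [rais_apply38, if_neg h1, if_neg h2]
      simp

private lemma rais_mul_ne38 {l r : Ind k} (hb : l.1 = r.1) (hlr : (l.2 : ℕ) < r.2) {x y : Ind k}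
    (h : (rais l r * rais l r) x y ≠ 0) : x.1 = y.1 ∧ (x.2 : ℕ) < y.2 := by
  rw [Matrix.mul_apply] at h
  obtain ⟨z, -, hz⟩ := Finset.exists_ne_zero_of_sum_ne_zero h
  have h1 := rais_ne38 hb hlr (left_ne_zero_of_mul hz)
  have h2 := rais_ne38 hb hlr (right_ne_zero_of_mul hz)
  exact ⟨h1.1.trans h2.1, h1.2.trans h2.2⟩

private lemma frm_mul38 (b : B) (M : Matrix (Ind k) (Ind k) ℂ) (x y : Ind k) :
    (frm k b * M) x y = if x.1 = b then eps x * M (op x) y else 0 := by
  rw [Matrix.mul_apply, Finset.sum_eq_single (op x)]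
  · rw [frm_apply]
    by_cases h : x.1 = b
    · simp [h]
    · simp [h]
  · intro z _ hz
    rw [frm_apply, if_neg (fun h => hz h.2), zero_mul]
  · intro h
    exact absurd (Finset.mem_univ _) h

private lemma mul_frm38 (b : B) (M : Matrix (Ind k) (Ind k) ℂ) (x y : Ind k) :
    (M.transpose * frm k b) x y = if y.1 = b then M (op y) x * eps (op y) else 0 := by
  rw [Matrix.mul_apply, Finset.sum_eq_single (op y)]
  · rw [frm_apply, Matrix.transpose_apply, op_op, op_fst]
    by_cases h : y.1 = b
    · simp [h]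
    · simp [h]
  · intro z _ hz
    rw [frm_apply, if_neg (fun h => hz (by rw [h.2, op_op])), mul_zero]
  · intro h
    exact absurd (Finset.mem_univ _) h

omit [Fintype B] [DecidableEq B] in
private lemma op_eq38 {x y : Ind k} : op x = y ↔ x = op y := by
  constructor
  · rintro rfl
    rw [op_op]
  · rintro rfl
    rw [op_op]

private lemma key38 (hk : ∀ b, (k b).Ok) {l r : Ind k} (hb : l.1 = r.1) (x y : Ind k) :
    rais l r (op y) x * eps (op y) = -(eps x * rais l r (op x) y) := by
  have hl := eps_sq l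
  have hr := eps_sq r
  have e1 : rais l r (op y) x = (if y = op l ∧ x = r then (1 : ℂ) else 0) -
      eps l * eps r * (if y = r ∧ x = op l then (1 : ℂ) else 0) := by
    rw [rais_apply38]
    have a1 : (l = op y ∧ r = x) ↔ (y = op l ∧ x = r) := by
      rw [← op_eq38 (x := l), eq_comm (a := op l), eq_comm (a := r)]
    have a2 : (op r = op y ∧ op l = x) ↔ (y = r ∧ x = op l) := by
      rw [op_eq38, op_op, eq_comm (a := r), eq_comm (a := op l)]
    simp only [a1, a2]
  have e2 : rais l r (op x) y = (if y = r ∧ x = op l then (1 : ℂ) else 0) -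
      eps l * eps r * (if y = op l ∧ x = r then (1 : ℂ) else 0) := by
    rw [rais_apply38]
    have a1 : (l = op x ∧ r = y) ↔ (y = r ∧ x = op l) := by
      rw [← op_eq38 (x := l), eq_comm (a := op l), eq_comm (a := r), and_comm]
    have a2 : (op r = op x ∧ op l = y) ↔ (y = op l ∧ x = r) := by
      rw [op_eq38, op_op, eq_comm (a := r), eq_comm (a := op l), and_comm]
    simp only [a1, a2]
  rw [e1, e2]
  by_cases hA : y = op l ∧ x = r
  · by_cases hB : y = r ∧ x = op l
    · rw [if_pos hA, if_pos hB]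
      have h1 : eps (op y) = eps l := by rw [hA.1, op_op]
      rw [h1, hA.2]
      linear_combination (-eps r) * hl - eps l * hr
    · rw [if_pos hA, if_neg hB]
      have h1 : eps (op y) = eps l := by rw [hA.1, op_op]
      rw [h1, hA.2]
      linear_combination (-eps l) * hr
  · by_cases hB : y = r ∧ x = op l
    · rw [if_neg hA, if_pos hB, hB.1, hB.2, eps_op hk r, eps_op hk l, hb]
      linear_combination (-(eps l * sg k r.1)) * hr
    · rw [if_neg hA, if_neg hB]
      ring

private lemma comm38 (hk : ∀ b, (k b).Ok) {l r : Ind k} (hb : l.1 = r.1)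
    (hlr : (l.2 : ℕ) < r.2) (b : B) :
    (rais l r).transpose * frm k b = -(frm k b * rais l r) := by
  ext x y
  rw [mul_frm38, Matrix.neg_apply, frm_mul38]
  by_cases h : x.1 = y.1
  · rw [h, key38 hk hb]
    by_cases hy : y.1 = b
    · rw [if_pos hy, if_pos hy]
    · rw [if_neg hy, if_neg hy, neg_zero]
  · have h1 : rais l r (op y) x = 0 := by
      by_contra h0
      exact h ((rais_ne38 hb hlr h0).1).symm
    have h2 : rais l r (op x) y = 0 := by
      by_contra h0
      exact h (rais_ne38 hb hlr h0).1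
    rw [h1, h2]
    simp

private lemma cube38 {l r : Ind k} (hb : l.1 = r.1) (hlr : (l.2 : ℕ) < r.2) :
    rais l r * rais l r * rais l r = 0 := by
  have hne : l ≠ r := by
    rintro rfl
    exact lt_irrefl _ hlr
  have hne' : op l ≠ op r := fun h => hne (by rw [← op_op l, h, op_op])
  have hmid : ¬ (r = op r ∧ op l = l) := by
    rintro ⟨h1, h2⟩
    obtain ⟨b, i⟩ := l
    obtain ⟨b', j⟩ := r
    dsimp only at hb hlr
    subst hb
    simp only [op, Sigma.mk.injEq, heq_eq_eq, true_and] at h1 h2
    have h3 := congrArg Fin.val h1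
    have h4 := congrArg Fin.val h2
    rw [Fin.val_rev] at h3 h4
    have := i.2
    have := j.2
    omega
  have hX : rais l r = Matrix.single l r 1 - (eps l * eps r) • Matrix.single (op r) (op l) 1 := rfl
  set a : Matrix (Ind k) (Ind k) ℂ := Matrix.single l r 1 with ha
  set c : Matrix (Ind k) (Ind k) ℂ := Matrix.single (op r) (op l) 1 with hc
  have aa : a * a = 0 := by
    rw [ha, Matrix.single_mul_single_of_ne _ _ _ _ hne.symm]
  have cc : c * c = 0 := by
    rw [hc, Matrix.single_mul_single_of_ne _ _ _ _ hne']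
  have aca : a * c * a = 0 := by
    by_cases h1 : r = op r
    · by_cases h2 : op l = l
      · exact absurd ⟨h1, h2⟩ hmid
      · rw [mul_assoc, ha, hc, Matrix.single_mul_single_of_ne _ _ _ _ h2, mul_zero]
    · rw [ha, hc, Matrix.single_mul_single_of_ne _ _ _ _ h1, zero_mul]
  have cac : c * a * c = 0 := by
    by_cases h1 : r = op r
    · by_cases h2 : op l = l
      · exact absurd ⟨h1, h2⟩ hmid
      · rw [ha, hc, Matrix.single_mul_single_of_ne _ _ _ _ h2, zero_mul]
    · rw [mul_assoc, ha, hc, Matrix.single_mul_single_of_ne _ _ _ _ h1, mul_zero]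
  rw [hX]
  have e : (a - (eps l * eps r) • c) * (a - (eps l * eps r) • c) * (a - (eps l * eps r) • c) =
      (a * a) * a - (eps l * eps r) • ((a * a) * c) - (eps l * eps r) • (a * c * a) +
      ((eps l * eps r) * (eps l * eps r)) • (a * (c * c)) -
      (eps l * eps r) • (c * (a * a)) + ((eps l * eps r) * (eps l * eps r)) • (c * a * c) +
      ((eps l * eps r) * (eps l * eps r)) • ((c * c) * a) -
      ((eps l * eps r) * (eps l * eps r) * (eps l * eps r)) • ((c * c) * c) := by
    simp only [sub_mul, mul_sub, smul_mul_assoc, mul_smul_comm, smul_sub, smul_smul, mul_assoc]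
    abel
  rw [e, aa, cc, aca, cac]
  simp

theorem rais_mem (hk : ∀ b, (k b).Ok) {l r : Ind k} (hb : l.1 = r.1) (hlr : (l.2 : ℕ) < r.2)
    (t : ℂ) : InG k 1 (1 + t • rais l r + t ^ 2 • ((1 / 2 : ℂ) • (rais l r * rais l r))) := by
  set X := rais l r with hX
  have hcube : X * X * X = 0 := cube38 hb hlr
  have hcube' : X * (X * X) = 0 := by rw [← mul_assoc, hcube]
  have hX4 : X * X * (X * X) = 0 := by rw [← mul_assoc, hcube, zero_mul]
  have h2 : ∀ x y : Ind k, X x y ≠ 0 → x.1 = y.1 ∧ (x.2 : ℕ) < y.2 := fun x y h =>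
    rais_ne38 hb hlr h
  have h3 : ∀ x y : Ind k, (X * X) x y ≠ 0 → x.1 = y.1 ∧ (x.2 : ℕ) < y.2 := fun x y h =>
    rais_mul_ne38 hb hlr h
  have hg : ∀ x y : Ind k, ¬ (x.1 = y.1 ∧ (x.2 : ℕ) < y.2) →
      (1 + t • X + t ^ 2 • ((1 / 2 : ℂ) • (X * X))) x y = (1 : Matrix (Ind k) (Ind k) ℂ) x y := by
    intro x y h
    have e1 : X x y = 0 := by
      by_contra h0
      exact h (h2 x y h0)
    have e2 : (X * X) x y = 0 := by
      by_contra h0
      exact h (h3 x y h0)
    rw [Matrix.add_apply, Matrix.add_apply, Matrix.smul_apply, Matrix.smul_apply,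
      Matrix.smul_apply, e1, e2]
    simp
  refine ⟨⟨one_ne_zero, ?_, ?_⟩, ?_⟩
  · intro x y hxy
    rw [hg x y (fun h => hxy h.1), Matrix.one_apply_ne (fun h => hxy (by rw [h]))]
  · intro b
    have hJ : X.transpose * frm k b = -(frm k b * X) := comm38 hk hb hlr b
    have hJ2 : X.transpose * X.transpose * frm k b = frm k b * (X * X) := by
      rw [mul_assoc, hJ, mul_neg, ← mul_assoc, hJ, neg_mul, neg_neg, mul_assoc]
    have h4 : (1 + t • X + t ^ 2 • ((1 / 2 : ℂ) • (X * X))).transpose * frm k b =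
        frm k b * (1 - t • X + t ^ 2 • ((1 / 2 : ℂ) • (X * X))) := by
      rw [Matrix.transpose_add, Matrix.transpose_add, Matrix.transpose_one, Matrix.transpose_smul,
        Matrix.transpose_smul, Matrix.transpose_smul, Matrix.transpose_mul, add_mul, add_mul,
        one_mul, smul_mul_assoc, smul_mul_assoc, smul_mul_assoc, hJ, hJ2, mul_add, mul_sub,
        mul_one, mul_smul_comm, mul_smul_comm, mul_smul_comm, smul_neg, sub_eq_add_neg]
    have h5 : (1 - t • X + t ^ 2 • ((1 / 2 : ℂ) • (X * X))) *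
        (1 + t • X + t ^ 2 • ((1 / 2 : ℂ) • (X * X))) = 1 := by
      have e1 : (1 - t • X + t ^ 2 • ((1 / 2 : ℂ) • (X * X))) *
          (1 + t • X + t ^ 2 • ((1 / 2 : ℂ) • (X * X))) = 1 +
          (t ^ 2 * (1 / 2) + t ^ 2 * (1 / 2) - t * t) • (X * X) +
          (t * (t ^ 2 * (1 / 2))) • (X * X * X) - (t ^ 2 * (1 / 2) * t) • (X * (X * X)) +
          (t ^ 2 * (1 / 2) * (t ^ 2 * (1 / 2))) • (X * X * (X * X)) := by
        simp only [add_mul, sub_mul, mul_add, one_mul, mul_one, smul_mul_assoc,
          mul_smul_comm, smul_add, smul_sub, smul_smul, add_smul, sub_smul]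
        abel
      rw [e1, hcube, hcube', hX4]
      have e2 : t ^ 2 * (1 / 2) + t ^ 2 * (1 / 2) - t * t = 0 := by ring
      rw [e2]
      simp
    rw [h4, mul_assoc, h5, mul_one, one_pow, one_smul]
  · intro b
    rw [one_pow, Matrix.det_of_isUpperTriangular]
    · apply Finset.prod_eq_one
      intro i _
      rw [Matrix.submatrix_apply, hg _ _ (fun h => lt_irrefl _ h.2), Matrix.one_apply_eq]
    · intro i j hij
      rw [Matrix.submatrix_apply, hg]
      · refine Matrix.one_apply_ne (fun h => ?_)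
        have h1 : i = j := by simpa using h
        subst h1
        exact lt_irrefl _ hij
      · rintro ⟨-, h⟩
        exact absurd h (not_lt.mpr (le_of_lt hij))

end Pool.Agent.Helper48.SP
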