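import Pool.Agent.Helper48.SP.DerMem
import Pool.Agent.Helper48.SP.Rais

/-!
# SP-R: stability under the raising operators
-/

set_option autoImplicit false

namespace Pool.Agent.Helper48.SP

open Pool.Agent.Helper48.GC8

variable {B : Type} {k : B → Blk} [Fintype B] [DecidableEq B] {ι : Type} [Fintype ι]
  [DecidableEq ι]

theorem der_rais_mem (hk : ∀ b, (k b).Ok) {U : Submodule ℂ (Ten ι (Ind k))}
    (hU : PW.Stab (InG k) U) {l r : Ind k} (hb : l.1 = r.1) (hlr : (l.2 : ℕ) < r.2)
    {u : Ten ι (Ind k)} (hu : u ∈ U) : der Finset.univ (rais l r) u ∈ U :=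
  der_mem2 _ _ U (fun t u hu => hU 1 _ (rais_mem hk hb hlr t) u hu) hu

end Pool.Agent.Helper48.SP
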