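import Pool.Agent.Helper48.SP.Top

/-!
# SP-G2: `D` is stable under relabellings which preserve the form

Pieces go to pieces of the same value: an alternating tensor stays alternating and supported on the
same block; the invariant tensor is preserved by `h2`.
-/

set_option autoImplicit false

namespace Pool.Agent.Helper48.SP

open Pool.Agent.Helper48.GC8

variable {B : Type} {k : B → Blk} [Fintype B] [DecidableEq B] {ι : Type} [Fintype ι]
  [DecidableEq ι]

omit [Fintype B] in
private theorem isPiece_relabel50 {S : Type} [Fintype S] [DecidableEq S] {σ : Equiv.Perm (Ind k)}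
    (h1 : ∀ l, (σ l).1 = l.1) (h2 : ∀ b l r, frm k b (σ l) (σ r) = frm k b l r)
    {t : Ten S (Ind k)} {v : ℕ} (ht : IsPiece t v) :
    IsPiece (fun z : S → Ind k => t (fun p => σ (z p))) v := by
  rcases ht with ⟨b, hb, hv⟩ | ⟨b, p, q, hpq, hall, ht, hv⟩
  · refine Or.inl ⟨b, ⟨fun y hy p => ?_, fun y p q hpq => ?_⟩, hv⟩
    · rw [← h1 (y p)]
      exact hb.supp _ hy p
    · exact hb.alt (fun x => σ (y x)) p q hpq
  · refine Or.inr ⟨b, p, q, hpq, hall, fun y => ?_, hv⟩
    exact (ht fun p => σ (y p)).trans (h2 _ _ _)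

theorem D_relabel {σ : Equiv.Perm (Ind k)} (h1 : ∀ l, (σ l).1 = l.1)
    (h2 : ∀ b l r, frm k b (σ l) (σ r) = frm k b l r) {ν : ℕ} {T : Ten ι (Ind k)}
    (hT : T ∈ D k ι ν) : (fun y : ι → Ind k => T (fun p => σ (y p))) ∈ D k ι ν := by
  unfold D at hT ⊢
  induction hT using Submodule.span_induction with
  | mem T hT =>
    obtain ⟨r, c, t, v, ht, hv, rfl⟩ := hT
    exact Submodule.subset_span ⟨r, c, fun a z => t a (fun p => σ (z p)), v,
      fun a => isPiece_relabel50 h1 h2 (ht a), hv, rfl⟩
  | zero => exact Submodule.zero_mem _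
  | add T T' _ _ h h' => exact Submodule.add_mem _ h h'
  | smul a T _ h => exact Submodule.smul_mem _ a h

end Pool.Agent.Helper48.SP
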