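import Pool.Agent.Helper48.SP.Forms
import Pool.Agent.Helper48.SP.Kap
import Pool.Agent.Helper48.SP.Ops

/-!
# SP-G: the middle letters of the orthogonal blocks of even dimension

Relabel: `σ` exchanges the two middle letters in those orthogonal blocks of even dimension for
which `cnt y0 (first middle letter) < cnt y0 (second middle letter)`, and fixes all other letters.
As all words of `w` have the torus weight of `y0`, the relabelled tensor is dominant at the middle
letters too. The form is invariant under `σ` (`eps = 1` at the middle letters), so the relabelled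
tensor is traceless; `rais (σ l) (σ r)` is again `rais l' r'` with `l'.2 < r'.2`, unless `l`, `r` is
a middle pair, where `rais l r = 0`. The slopes of the two middle letters are equal (`Ok.mid` and
`Ok.dual`).
-/

set_option autoImplicit false

namespace Pool.Agent.Helper48.SP

open Pool.Agent.Helper48.GC8

variable {B : Type} {k : B → Blk} [Fintype B] [DecidableEq B] {ι : Type} [Fintype ι]
  [DecidableEq ι]

section Relabel4

variable {B' : Type} {k' : B' → Blk}

/-- The middle letters of the blocks of even weight and even dimension. -/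
private def mid4 (l : Ind k') : Prop :=
  Even (k' l.1).wt ∧ ((l.2 : ℕ) + 1 = (l.2.rev : ℕ) ∨ (l.2.rev : ℕ) + 1 = (l.2 : ℕ))

private lemma mid4_op {l : Ind k'} : mid4 (op l) ↔ mid4 l := by
  unfold mid4 op
  simp only [Fin.rev_rev]
  exact and_congr_right fun _ => or_comm

open Classical in
/-- The relabelling. -/
private noncomputable def sgm4 (bad : B' → Prop) (l : Ind k') : Ind k' :=
  if mid4 l ∧ bad l.1 then op l else l

private lemma sgm4_pos {bad : B' → Prop} {l : Ind k'} (h : mid4 l ∧ bad l.1) :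
    sgm4 bad l = op l := if_pos h

private lemma sgm4_neg {bad : B' → Prop} {l : Ind k'} (h : ¬ (mid4 l ∧ bad l.1)) :
    sgm4 bad l = l := if_neg h

private lemma sgm4_fst (bad : B' → Prop) (l : Ind k') : (sgm4 bad l).1 = l.1 := by
  by_cases h : mid4 l ∧ bad l.1
  · rw [sgm4_pos h, op_fst]
  · rw [sgm4_neg h]

private lemma sgm4_op (bad : B' → Prop) (l : Ind k') : sgm4 bad (op l) = op (sgm4 bad l) := by
  by_cases h : mid4 l ∧ bad l.1
  · rw [sgm4_pos h, sgm4_pos (l := op l) ⟨mid4_op.2 h.1, h.2⟩]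
  · rw [sgm4_neg h, sgm4_neg (l := op l) (fun h' => h ⟨mid4_op.1 h'.1, h'.2⟩)]

private lemma sgm4_sgm4 (bad : B' → Prop) (l : Ind k') : sgm4 bad (sgm4 bad l) = l := by
  by_cases h : mid4 l ∧ bad l.1
  · rw [sgm4_pos h, sgm4_op, sgm4_pos h, op_op]
  · rw [sgm4_neg h, sgm4_neg h]

private lemma eps_sgm4 (bad : B' → Prop) (l : Ind k') : eps (sgm4 bad l) = eps l := by
  by_cases h : mid4 l ∧ bad l.1
  · rw [sgm4_pos h, eps_even h.1.1, eps_even (l := op l) h.1.1]
  · rw [sgm4_neg h]

private lemma sl_sgm4 (hk : ∀ b, (k' b).Ok) (bad : B' → Prop) (l : Ind k') :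
    sl (sgm4 bad l) = sl l := by
  by_cases h : mid4 l ∧ bad l.1
  · rw [sgm4_pos h]
    have h2 := (hk l.1).dual l.2
    show (k' l.1).slope l.2.rev = (k' l.1).slope l.2
    rcases h.1.2 with h3 | h3
    · have h4 := (hk l.1).mid h.1.1 l.2 h3
      omega
    · have h4 := (hk l.1).mid h.1.1 l.2.rev (by rw [Fin.rev_rev]; exact h3)
      omega
  · rw [sgm4_neg h]

private lemma ind_ext4 {l r : Ind k'} (h1 : l.1 = r.1) (h2 : (l.2 : ℕ) = r.2) : l = r := by
  obtain ⟨b, i⟩ := l
  obtain ⟨c, j⟩ := r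
  obtain rfl : b = c := h1
  obtain rfl : i = j := Fin.ext h2
  rfl

/-- The relabelling of a raising pair is a raising pair or the middle pair. -/
private lemma order4 (bad : B' → Prop) {l r : Ind k'} (h : l.1 = r.1) (hlt : (l.2 : ℕ) < r.2) :
    ((sgm4 bad l).2 : ℕ) < (sgm4 bad r).2 ∨
      (Even (k' l.1).wt ∧ r = op l ∧ sgm4 bad l = r ∧ sgm4 bad r = l) := by
  have hd : (k' l.1).dim = (k' r.1).dim := by rw [h]
  have e1 : (l.2.rev : ℕ) = (k' l.1).dim - (l.2 + 1) := Fin.val_rev _
  have e2 : (r.2.rev : ℕ) = (k' r.1).dim - (r.2 + 1) := Fin.val_rev _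
  have b1 := l.2.isLt
  have b2 := r.2.isLt
  by_cases hl : mid4 l ∧ bad l.1 <;> by_cases hr : mid4 r ∧ bad r.1
  · right
    have h3 : r = op l := by
      refine ind_ext4 h.symm ?_
      show (r.2 : ℕ) = (l.2.rev : ℕ)
      rcases hl.1.2 with h4 | h4 <;> rcases hr.1.2 with h5 | h5 <;> omega
    refine ⟨hl.1.1, h3, ?_, ?_⟩
    · rw [sgm4_pos hl, h3]
    · rw [sgm4_pos hr, h3, op_op]
  · left
    rw [sgm4_pos hl, sgm4_neg hr]
    show (l.2.rev : ℕ) < r.2
    rcases Nat.lt_trichotomy (l.2.rev : ℕ) r.2 with h4 | h4 | h4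
    · exact h4
    · exfalso
      apply hr
      have h5 : r = op l := ind_ext4 h.symm h4.symm
      rw [h5]
      exact ⟨mid4_op.2 hl.1, hl.2⟩
    · exfalso
      rcases hl.1.2 with h5 | h5 <;> omega
  · left
    rw [sgm4_neg hl, sgm4_pos hr]
    show (l.2 : ℕ) < (r.2.rev : ℕ)
    rcases Nat.lt_trichotomy (l.2 : ℕ) (r.2.rev : ℕ) with h4 | h4 | h4
    · exact h4
    · exfalso
      apply hl
      have h5 : l = op r := ind_ext4 h h4
      rw [h5]
      exact ⟨mid4_op.2 hr.1, hr.2⟩
    · exfalso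
      rcases hr.1.2 with h5 | h5 <;> omega
  · left
    rw [sgm4_neg hl, sgm4_neg hr]
    exact hlt

end Relabel4

theorem exists_sign (hk : ∀ b, (k b).Ok) {w : Ten ι (Ind k)} {y0 : ι → Ind k}
    (htw : ∀ y, w y ≠ 0 → tw y = tw y0)
    (htr : ∀ (b : B) (p q : ι), p ≠ q → kap b p q w = 0)
    (hra : ∀ l r : Ind k, l.1 = r.1 → (l.2 : ℕ) < r.2 → der Finset.univ (rais l r) w = 0)
    (hdom : ∀ y, w y ≠ 0 → ∀ l : Ind k, Even (k l.1).wt → l.2 < l.2.rev →
      (l.2 : ℕ) + 1 ≠ (l.2.rev : ℕ) → cnt y (op l) ≤ cnt y l) :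
    ∃ σ : Equiv.Perm (Ind k), (∀ l, (σ l).1 = l.1) ∧ (∀ l, sl (σ l) = sl l) ∧
      (∀ l, σ (σ l) = l) ∧ (∀ b l r, frm k b (σ l) (σ r) = frm k b l r) ∧
      IsHW (fun y : ι → Ind k => w (fun p => σ (y p))) := by
  classical
  let bad : B → Prop := fun b => ∃ l : Ind k, l.1 = b ∧ (l.2 : ℕ) + 1 = (l.2.rev : ℕ) ∧
    cnt y0 l < cnt y0 (op l)
  let σ : Equiv.Perm (Ind k) := Function.Involutive.toPerm (sgm4 bad) (sgm4_sgm4 bad)
  have hσ : ∀ l, σ l = sgm4 bad l := fun _ => rfl
  have hσσ : ∀ l, σ (σ l) = l := fun l => sgm4_sgm4 bad l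
  have hσop : ∀ l, σ (op l) = op (σ l) := fun l => sgm4_op bad l
  have hσe : ∀ l, eps (σ l) = eps l := fun l => eps_sgm4 bad l
  have hσ1 : ∀ l, (σ l).1 = l.1 := fun l => sgm4_fst bad l
  have hσinv : ∀ l r, l = σ r ↔ σ l = r := fun l r =>
    ⟨fun h => by rw [h, hσσ], fun h => by rw [← h, hσσ]⟩
  have hfrm : ∀ b l r, frm k b (σ l) (σ r) = frm k b l r := by
    intro b l r
    rw [frm_apply, frm_apply, hσ1, hσe, ← hσop]
    simp only [EmbeddingLike.apply_eq_iff_eq]
  refine ⟨σ, hσ1, fun l => sl_sgm4 hk bad l, hσσ, hfrm, ?_, ?_, ?_⟩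
  · intro b p q hpq
    funext y
    have h1 : kap b p q w (fun x => σ (y x)) = 0 := by
      rw [htr b p q hpq]
      rfl
    rw [kap_apply] at h1
    show kap b p q (fun y : ι → Ind k => w (fun p => σ (y p))) y = 0
    rw [kap_apply, ← h1, ← Equiv.sum_comp σ]
    refine Finset.sum_congr rfl fun l _ => ?_
    rw [← Equiv.sum_comp σ]
    refine Finset.sum_congr rfl fun r _ => ?_
    rw [hfrm]
    congr 2
    funext x
    unfold glue
    split_ifs
    · rfl
    · exact hσσ l
    · exact hσσ r
  · intro l r hlr hlt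
    have hrais : ∀ a s, rais l r (σ a) (σ s) = rais (σ l) (σ r) a s := by
      intro a s
      unfold rais
      rw [Matrix.sub_apply, Matrix.sub_apply, Matrix.smul_apply, Matrix.smul_apply,
        Matrix.single_apply, Matrix.single_apply, Matrix.single_apply, Matrix.single_apply,
        hσe, hσe, ← hσop, ← hσop]
      simp only [hσinv]
    have key : ∀ y, der Finset.univ (rais l r) (fun y : ι → Ind k => w (fun p => σ (y p))) y =
        der Finset.univ (rais (σ l) (σ r)) w (fun p => σ (y p)) := by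
      intro y
      rw [der_apply, der_apply]
      refine Finset.sum_congr rfl fun p _ => ?_
      rw [← Equiv.sum_comp σ]
      refine Finset.sum_congr rfl fun s _ => ?_
      have h1 : (fun x => σ (Function.update y p (σ s) x)) =
          Function.update (fun x => σ (y x)) p s := by
        funext x
        by_cases hx : x = p
        · subst hx
          rw [Function.update_self, Function.update_self, hσσ]
        · rw [Function.update_of_ne hx, Function.update_of_ne hx]
      show rais l r (y p) (σ s) * w (fun x => σ (Function.update y p (σ s) x)) = _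
      rw [h1, ← hrais, hσσ]
    funext y
    rw [key]
    rcases order4 bad hlr hlt with h2 | ⟨hev, h3, h4, h5⟩
    · rw [hra (σ l) (σ r) (by rw [hσ1, hσ1, hlr]) h2]
      rfl
    · have h6 : rais (σ l) (σ r) = 0 := by
        rw [hσ, hσ, h4, h5]
        unfold rais
        rw [eps_even (l := l) hev, eps_even (l := r) (by rw [← hlr]; exact hev), ← h3, h3, op_op]
        simp
      rw [h6, der_apply]
      simp
  · intro y hy l hev hlt
    set z : ι → Ind k := fun p => σ (y p) with hz
    have hz0 : w z ≠ 0 := hy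
    have hc : ∀ m, cnt y m = cnt z (σ m) := by
      intro m
      unfold cnt
      congr 1
      refine Finset.filter_congr fun p _ => ?_
      exact (EmbeddingLike.apply_eq_iff_eq σ).symm
    rw [hc, hc, hσop]
    have htl : (cnt z l : ℤ) - cnt z (op l) = (cnt y0 l : ℤ) - cnt y0 (op l) :=
      congrFun (htw z hz0) l
    have e1 : (l.2.rev : ℕ) = (k l.1).dim - (l.2 + 1) := Fin.val_rev _
    have b1 := l.2.isLt
    have hlt' : (l.2 : ℕ) < (l.2.rev : ℕ) := hlt
    by_cases hm : (l.2 : ℕ) + 1 = (l.2.rev : ℕ)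
    · have hmid : mid4 l := ⟨hev, Or.inl hm⟩
      by_cases hb : bad l.1
      · obtain ⟨l', h1, h2, h3⟩ := hb
        have h4 : l' = l := by
          refine ind_ext4 h1 ?_
          have hd : (k l'.1).dim = (k l.1).dim := by rw [h1]
          have e2 : (l'.2.rev : ℕ) = (k l'.1).dim - (l'.2 + 1) := Fin.val_rev _
          have b2 := l'.2.isLt
          omega
        have h5 : σ l = op l := sgm4_pos ⟨hmid, ⟨l', h1, h2, h3⟩⟩
        rw [h4] at h3
        rw [h5, op_op]
        omega
      · have h5 : σ l = l := sgm4_neg fun h => hb h.2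
        rw [h5]
        have h6 : ¬ cnt y0 l < cnt y0 (op l) := fun h => hb ⟨l, rfl, hm, h⟩
        omega
    · have h5 : σ l = l := by
        refine sgm4_neg fun h => ?_
        rcases h.1.2 with h6 | h6 <;> omega
      rw [h5]
      exact hdom z hz0 l hev hlt hm

end Pool.Agent.Helper48.SP
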