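import Pool.Agent.Helper48.SP.Raise
import Pool.Agent.Helper48.SP.KapPart
import Pool.Agent.Helper48.SP.DerPart
import Pool.Agent.Helper48.SP.DomPart
import Pool.Agent.Helper48.SP.Sign
import Pool.Agent.Helper48.SP.Relabel
import Pool.Agent.Helper48.SP.Cas3
import Pool.Agent.Helper48.SP.Peel

/-!
# SP-Z: traceless stable spaces

Let `U ≠ 0` be stable under the group and traceless. Take `v`, `y0` from `exists_max`,
`w = part y0 v` (`kap_part`, `der_part`, `dom_part`: traceless, raised to zero, dominant), then `σ`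
from `exists_sign`, `w' y = w (σ ∘ y)`, `IsTop w'` by `isTop_of_isHW`. Choose `y1` with `w' y1 ≠ 0`,
`α = cnt y1`, and let `w''` be the part of `w'` with the letter counts `α`; `IsTop w''` (`E l r` maps the
part with counts `α` to the part with counts `α + l - r`). `peel` gives `T` with `herm T w'' ≠ 0`,
all of whose words have the letter counts `α`; so `herm T w' ≠ 0`, and `T' y = T (σ ∘ y)` satisfies
`herm T' w = herm T w' ≠ 0` (reindex by `σ`), and `herm T' v = herm T' w` since all words of `T'`
have the torus weight of `y0`. `T' ∈ D` by `D_relabel`. The word `y = σ ∘ y1` has `w y ≠ 0`, so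
`v y ≠ 0`, and `∑ p, sl (y p) = ∑ p, sl (y1 p) = ∑ l, α l * sl l`.
-/

set_option autoImplicit false

namespace Pool.Agent.Helper48.SP

open Pool.Agent.Helper48.GC8 Function

variable {B : Type} {k : B → Blk} [Fintype B] [DecidableEq B] {ι : Type} [Fintype ι]
  [DecidableEq ι]

omit [Fintype B] in
private lemma cnt_update68 (y : ι → Ind k) {p : ι} {l : Ind k} (hp : y p = l) (r x : Ind k) :
    cnt (update y p r) x + (if x = l then 1 else 0) = cnt y x + (if x = r then 1 else 0) := by
  classical
  unfold cnt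
  rw [Finset.card_filter, Finset.card_filter, ← Finset.add_sum_erase _ _ (Finset.mem_univ p),
    ← Finset.add_sum_erase (Finset.univ : Finset ι) (fun i => if y i = x then 1 else 0)
      (Finset.mem_univ p)]
  have h1 : ∑ i ∈ Finset.univ.erase p, (if update y p r i = x then 1 else 0) =
      ∑ i ∈ Finset.univ.erase p, (if y i = x then 1 else 0) := by
    refine Finset.sum_congr rfl fun i hi => ?_
    rw [update_of_ne (Finset.ne_of_mem_erase hi)]
  rw [h1, update_self, hp]
  have e1 : (if r = x then 1 else 0 : ℕ) = if x = r then 1 else 0 := by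
    by_cases h : r = x
    · rw [if_pos h, if_pos h.symm]
    · rw [if_neg h, if_neg (fun h' => h h'.symm)]
  have e2 : (if l = x then 1 else 0 : ℕ) = if x = l then 1 else 0 := by
    by_cases h : l = x
    · rw [if_pos h, if_pos h.symm]
    · rw [if_neg h, if_neg (fun h' => h h'.symm)]
  rw [e1, e2]
  ring

private lemma isTop_part68 {w : Ten ι (Ind k)} (h : IsTop w) (α : Ind k → ℕ) :
    IsTop (fun y : ι → Ind k => if cnt y = α then w y else 0) := by
  classical
  intro l r hb hlr
  have h0 := h l r hb hlr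
  funext y
  change E l r (fun y : ι → Ind k => if cnt y = α then w y else 0) y = 0
  have h1 : E l r w y = 0 := congrFun h0 y
  rw [E_apply] at h1 ⊢
  by_cases hc : ∀ x, cnt y x + (if x = r then 1 else 0) = α x + (if x = l then 1 else 0)
  · refine (Finset.sum_congr rfl fun p _ => ?_).trans h1
    by_cases hp : y p = l
    · rw [if_pos hp, if_pos hp]
      have h2 : cnt (update y p r) = α := by
        funext x
        have h3 := cnt_update68 y hp r x
        have h4 := hc x
        omega
      simp only [h2, if_true]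
    · rw [if_neg hp, if_neg hp]
  · refine Finset.sum_eq_zero fun p _ => ?_
    by_cases hp : y p = l
    · rw [if_pos hp]
      have h2 : cnt (update y p r) ≠ α := by
        intro h2
        refine hc fun x => ?_
        have h3 := cnt_update68 y hp r x
        rw [h2] at h3
        omega
      simp only [h2, if_false]
    · rw [if_neg hp]

omit [Fintype B] [DecidableEq ι] in
private lemma cnt_relabel68 {σ : Equiv.Perm (Ind k)} (h3 : ∀ l, σ (σ l) = l) (y : ι → Ind k)
    (l : Ind k) : cnt (fun p => σ (y p)) l = cnt y (σ l) := by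
  classical
  unfold cnt
  congr 1
  refine Finset.filter_congr fun p _ => ?_
  constructor
  · intro h
    rw [← h, h3]
  · intro h
    change σ (y p) = l
    rw [h, h3]

omit [DecidableEq ι] in
private lemma sum_sl68 (y : ι → Ind k) : ∑ p, sl (y p) = ∑ l, cnt y l * sl l := by
  classical
  rw [← Finset.sum_fiberwise Finset.univ y fun p => sl (y p)]
  refine Finset.sum_congr rfl fun l _ => ?_
  unfold cnt
  rw [Finset.card_eq_sum_ones, Finset.sum_mul]
  refine Finset.sum_congr rfl fun p hp => ?_
  rw [(Finset.mem_filter.1 hp).2, one_mul]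

omit [DecidableEq B] in
private lemma herm_relabel68 {σ : Equiv.Perm (Ind k)} (h3 : ∀ l, σ (σ l) = l)
    {T v w : Ten ι (Ind k)} (h : ∀ y, T y ≠ 0 → w y = v (fun p => σ (y p))) :
    herm (fun y : ι → Ind k => T (fun p => σ (y p))) v = herm T w := by
  classical
  unfold herm
  have h4 : ∀ y : ι → Ind k, (fun p => σ ((fun q => σ (y q)) p)) = y := fun y => by
    funext p
    exact h3 (y p)
  let e : (ι → Ind k) ≃ (ι → Ind k) :=
    ⟨fun y p => σ (y p), fun y p => σ (y p), fun y => h4 y, fun y => h4 y⟩
  rw [← Equiv.sum_comp e]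
  refine Finset.sum_congr rfl fun y _ => ?_
  change star (T (fun p => σ ((fun q => σ (y q)) p))) * v (fun p => σ (y p)) = _
  rw [h4 y]
  by_cases hT : T y = 0
  · rw [hT, star_zero, zero_mul, zero_mul]
  · rw [h y hT]

theorem terminal (hk : ∀ b, (k b).Ok) {U : Submodule ℂ (Ten ι (Ind k))}
    (hU : PW.Stab (InG k) U) (hne : U ≠ ⊥)
    (htr : ∀ u ∈ U, ∀ (b : B) (p q : ι), p ≠ q → kap b p q u = 0) :
    ∃ v ∈ U, ∃ y : ι → Ind k, v y ≠ 0 ∧ ∃ T ∈ D k ι (∑ p, sl (y p)), herm T v ≠ 0 := by
  classical
  obtain ⟨v, hv, y0, hy0, hmax⟩ := exists_max hne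
  have hpart : ∀ y, tw y = tw y0 → part y0 v y = v y := fun y hy => by
    unfold part
    rw [if_pos hy]
  have hpart' : ∀ y, part y0 v y ≠ 0 → tw y = tw y0 := fun y hy => by
    by_contra hcon
    apply hy
    unfold part
    rw [if_neg hcon]
  have h1 : ∀ (b : B) (p q : ι), p ≠ q → kap b p q (part y0 v) = 0 := fun b p q hpq =>
    kap_part b hpq (htr v hv b p q hpq) y0
  have h2 : ∀ l r : Ind k, l.1 = r.1 → (l.2 : ℕ) < r.2 →
      der Finset.univ (rais l r) (part y0 v) = 0 := fun l r hb hlr =>
    der_part hb hlr (fun y hy => hmax _ (der_rais_mem hk hU hb hlr hv) y hy)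
  have h3 : ∀ y, part y0 v y ≠ 0 → ∀ l : Ind k, Even (k l.1).wt → l.2 < l.2.rev →
      (l.2 : ℕ) + 1 ≠ (l.2.rev : ℕ) → cnt y (op l) ≤ cnt y l := fun y hy l hev hlt hmid =>
    dom_part hk hU hmax hv (by rw [← hpart y (hpart' y hy)]; exact hy) (hpart' y hy) hev hlt hmid
  obtain ⟨σ, s1, s2, s3, s4, s5⟩ := exists_sign hk hpart' h1 h2 h3
  have hσσ : (fun p => σ (σ (y0 p))) = y0 := funext fun p => s3 (y0 p)
  obtain ⟨T, hT, hTα, hTw⟩ := peel (Fintype.card ι) ι le_rfl
    (fun y : ι → Ind k => if cnt y = cnt (fun p => σ (y0 p)) then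
      (fun y : ι → Ind k => part y0 v (fun p => σ (y p))) y else 0)
    (cnt (fun p => σ (y0 p))) (by
      intro h
      have h4 := congrFun h (fun p => σ (y0 p))
      simp only [if_true, Pi.zero_apply, hσσ] at h4
      rw [hpart y0 rfl] at h4
      exact hy0 h4) (by
      intro y hy l
      by_contra hcon
      apply hy
      rw [if_neg fun h => hcon (congrFun h l)]) (isTop_part68 (isTop_of_isHW hk s5) _)
  have hsum : ∑ l, cnt (fun p => σ (y0 p)) l * sl l = ∑ p, sl (y0 p) := by
    rw [← sum_sl68 (fun p => σ (y0 p))]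
    exact Finset.sum_congr rfl fun p _ => s2 (y0 p)
  refine ⟨v, hv, y0, hy0, fun y : ι → Ind k => T (fun p => σ (y p)), ?_, ?_⟩
  · rw [← hsum]
    exact D_relabel s1 s4 hT
  · rw [herm_relabel68 s3 (w := fun y : ι → Ind k => if cnt y = cnt (fun p => σ (y0 p)) then
      (fun y : ι → Ind k => part y0 v (fun p => σ (y p))) y else 0)]
    · exact hTw
    · intro y hy
      have h4 : cnt y = cnt (fun p => σ (y0 p)) := funext fun l => hTα y hy l
      have h5 : cnt (fun p => σ (y p)) = cnt y0 := by
        funext l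
        rw [cnt_relabel68 s3, h4, cnt_relabel68 s3, s3]
      have h6 : tw (fun p => σ (y p)) = tw y0 := by
        funext l
        unfold tw
        rw [h5]
      simp only [if_pos h4]
      exact hpart _ h6

end Pool.Agent.Helper48.SP
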